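import Pool.Agent.GSE.NormEq

/-!
# GSE: certificates for `J (W₁) ⊆ W₂`

`certM`: if `m (Jᵀ E J + its transpose) = ∑ G l (E₁ l + its transpose)` over `K`, then the quadratic form of
`E` vanishes at `J z` for every `z` over `Ω` at which the forms of all `E₁ l` vanish.
`mem_of_cert`: the same for the cones of two pencils, the first one a pencil of hermitian forms.
-/

set_option autoImplicit false

noncomputable section

namespace Pool.Agent.GSE

open Matrix Pool.Agent.GSH Pool.Agent.GSX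

variable {K Ω : Type} [Field K] [Field Ω] [Algebra K Ω]

/-- the quadratic form of a matrix -/
def qf (M : Matrix (Fin 8) (Fin 8) K) (z : Fin 8 → Ω) : Ω := z ⬝ᵥ (mK M *ᵥ z)

/-- a point of `K ^ 2 ⊕ K ^ 6` as a vector with eight coordinates -/
def t8 (w : I8 → Ω) : Fin 8 → Ω := ![w (Sum.inl 0), w (Sum.inl 1), w (Sum.inr 0), w (Sum.inr 1),
  w (Sum.inr 2), w (Sum.inr 3), w (Sum.inr 4), w (Sum.inr 5)]

/-- the index of a coordinate -/
def ix : I8 → Fin 8 := Sum.elim ![0, 1] ![2, 3, 4, 5, 6, 7]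

/-- a matrix with eight rows and columns as an endomorphism of `K ^ 2 ⊕ K ^ 6` -/
def m8 (J : Matrix (Fin 8) (Fin 8) K) : Matrix I8 I8 K := fun i j => J (ix i) (ix j)

theorem t8_ix (w : I8 → Ω) (i : I8) : t8 w (ix i) = w i := by
  rcases i with i | i <;> fin_cases i <;> rfl

theorem t8_mul (J : Matrix (Fin 8) (Fin 8) K) (w : I8 → Ω) :
    t8 (mK (m8 J) *ᵥ w) = mK J *ᵥ t8 w := by
  have h : ∀ i, (mK (m8 J) *ᵥ w) i = (mK J *ᵥ t8 w) (ix i) := by
    intro i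
    simp only [mulVec, dotProduct, Fintype.sum_sum_type, Fin.sum_univ_eight, Fin.sum_univ_two,
      Fin.sum_univ_six, mK, m8, Matrix.map_apply]
    change _ = algebraMap K Ω (J (ix i) 0) * w (Sum.inl 0) +
      algebraMap K Ω (J (ix i) 1) * w (Sum.inl 1) + algebraMap K Ω (J (ix i) 2) * w (Sum.inr 0) +
      algebraMap K Ω (J (ix i) 3) * w (Sum.inr 1) + algebraMap K Ω (J (ix i) 4) * w (Sum.inr 2) +
      algebraMap K Ω (J (ix i) 5) * w (Sum.inr 3) + algebraMap K Ω (J (ix i) 6) * w (Sum.inr 4) +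
      algebraMap K Ω (J (ix i) 7) * w (Sum.inr 5)
    change (algebraMap K Ω (J (ix i) 0) * w (Sum.inl 0) +
      algebraMap K Ω (J (ix i) 1) * w (Sum.inl 1)) + (algebraMap K Ω (J (ix i) 2) * w (Sum.inr 0) +
      algebraMap K Ω (J (ix i) 3) * w (Sum.inr 1) + algebraMap K Ω (J (ix i) 4) * w (Sum.inr 2) +
      algebraMap K Ω (J (ix i) 5) * w (Sum.inr 3) + algebraMap K Ω (J (ix i) 6) * w (Sum.inr 4) +
      algebraMap K Ω (J (ix i) 7) * w (Sum.inr 5)) = _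
    ring
  funext i
  fin_cases i
  · exact h (Sum.inl 0)
  · exact h (Sum.inl 1)
  · exact h (Sum.inr 0)
  · exact h (Sum.inr 1)
  · exact h (Sum.inr 2)
  · exact h (Sum.inr 3)
  · exact h (Sum.inr 4)
  · exact h (Sum.inr 5)

theorem qf_t (M : Matrix (Fin 8) (Fin 8) K) (z : Fin 8 → Ω) : qf Mᵀ z = qf M z := by
  unfold qf
  have h1 : (mK Mᵀ : Matrix (Fin 8) (Fin 8) Ω) = (mK M)ᵀ := rfl
  rw [h1, mulVec_transpose, dotProduct_comm, ← dotProduct_mulVec]

theorem qf_add (M N : Matrix (Fin 8) (Fin 8) K) (z : Fin 8 → Ω) :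
    qf (M + N) z = qf M z + qf N z := by
  unfold qf
  have h1 : (mK (M + N) : Matrix (Fin 8) (Fin 8) Ω) = mK M + mK N :=
    Matrix.map_add _ (map_add _) M N
  rw [h1, add_mulVec, dotProduct_add]

theorem qf_smul (c : K) (M : Matrix (Fin 8) (Fin 8) K) (z : Fin 8 → Ω) :
    qf (c • M) z = algebraMap K Ω c * qf M z := by
  unfold qf
  have h1 : (mK (c • M) : Matrix (Fin 8) (Fin 8) Ω) = algebraMap K Ω c • mK M := by
    ext i j
    simp only [mK, Matrix.map_apply, Matrix.smul_apply, smul_eq_mul, map_mul]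
  rw [h1, smul_mulVec, dotProduct_smul, smul_eq_mul]

theorem qf_mul (J M : Matrix (Fin 8) (Fin 8) K) (z : Fin 8 → Ω) :
    qf (Jᵀ * M * J) z = qf M (mK J *ᵥ z) := by
  unfold qf
  have h1 : (mK (Jᵀ * M * J) : Matrix (Fin 8) (Fin 8) Ω) = (mK J)ᵀ * mK M * mK J := by
    unfold mK
    rw [Matrix.map_mul, Matrix.map_mul]
    rfl
  rw [h1, ← mulVec_mulVec, ← mulVec_mulVec, dotProduct_mulVec, vecMul_transpose]

theorem certM [CharZero K] {n : ℕ} (J E : Matrix (Fin 8) (Fin 8) K)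
    (E₁ : Fin n → Matrix (Fin 8) (Fin 8) K) (m : K) (hm : m ≠ 0) (G : Fin n → K)
    (h : m • (Jᵀ * E * J + (Jᵀ * E * J)ᵀ) = ∑ l, G l • (E₁ l + (E₁ l)ᵀ)) {z : Fin 8 → Ω}
    (hz : ∀ l, qf (E₁ l) z = 0) : qf E (mK J *ᵥ z) = 0 := by
  have h1 : qf (m • (Jᵀ * E * J + (Jᵀ * E * J)ᵀ)) z = 0 := by
    rw [h]
    have h2 : ∀ s : Finset (Fin n), qf (∑ l ∈ s, G l • (E₁ l + (E₁ l)ᵀ)) z = 0 := by
      intro s
      classical
      induction s using Finset.induction_on with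
      | empty =>
        rw [Finset.sum_empty]
        simp [qf, mK, dotProduct, mulVec]
      | insert a s ha ih =>
        rw [Finset.sum_insert ha, qf_add, ih, add_zero, qf_smul, qf_add, qf_t, hz, add_zero,
          mul_zero]
    exact h2 _
  rw [qf_smul, qf_add, qf_t, qf_mul] at h1
  have h2 := (mul_eq_zero.1 h1).resolve_left fun h0 => hm ((map_eq_zero _).1 h0)
  haveI : CharZero Ω := charZero_of_injective_algebraMap (algebraMap K Ω).injective
  have h3 : (2 : Ω) * qf E (mK J *ᵥ z) = 0 := by rw [two_mul]; exact h2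
  exact (mul_eq_zero.1 h3).resolve_left two_ne_zero

/-- The cone of the first pencil is mapped into the cone of the second one. `E₁`, `E₂` are matrices
of the equations of the two cones. -/
theorem mem_of_cert [CharZero K] {n n' : ℕ} {S₁ S₂ : Set (I8 → Ω)}
    (J : Matrix (Fin 8) (Fin 8) K) (E₁ : Fin n → Matrix (Fin 8) (Fin 8) K)
    (E₂ : Fin n' → Matrix (Fin 8) (Fin 8) K)
    (hE₁ : ∀ w ∈ S₁, ∀ l, qf (E₁ l) (t8 w) = 0)
    (hE₂ : ∀ w : I8 → Ω, (∀ l, qf (E₂ l) (t8 w) = 0) → w ∈ S₂)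
    (m : Fin n' → K) (hm : ∀ k, m k ≠ 0) (G : Fin n' → Fin n → K)
    (h : ∀ k, m k • (Jᵀ * E₂ k * J + (Jᵀ * E₂ k * J)ᵀ) = ∑ l, G k l • (E₁ l + (E₁ l)ᵀ))
    {w : I8 → Ω} (hw : w ∈ S₁) : mK (m8 J) *ᵥ w ∈ S₂ := by
  refine hE₂ _ fun k => ?_
  rw [t8_mul]
  exact certM J (E₂ k) E₁ (m k) (hm k) (G k) (h k) (hE₁ w hw)

end Pool.Agent.GSE
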