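import Pool.Agent.GSE.Cert
import Pool.Agent.GSE.Mem

/-!
# GSE: from identities of expressions to `J (W₁) ⊆ W₂`

`TP`: a pencil given by expressions in `s`, `t` (`TP.Is`: up to non-zero factors). `TP.q`: the eight
equations of its cone, as quadratic forms in eight variables. `nine`: the nine equations of the cone
of a pencil of hermitian forms.

`glue`: if the certificates `den k * q k (J w) = ∑ l, G k l * q' l (w)` pass the test `check`, then `J`
maps the points with `u ≠ 0` of the cone of the first pencil to the cone of the second one.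
-/

set_option autoImplicit false

noncomputable section

namespace Pool.Agent.GSE

open Matrix Pool.Agent.GSH Pool.Agent.GSX E

/-- a quadratic form in `u` as a form in `(ξ, u)` -/
def sq (M : Fin 6 → Fin 6 → E) : QF :=
  (List.finRange 6).flatMap fun i => (List.finRange 6).map fun j =>
    (M i j, Fin.natAdd 2 i, Fin.natAdd 2 j)

/-- A pencil given by expressions. -/
structure TP where
  /-- the common factor of `S` and of the forms `P` -/
  m : E
  /-- `m` times the matrix of multiplication by `√d` -/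
  S : Fin 6 → Fin 6 → E
  /-- the two quadratic forms -/
  Q : Fin 2 → Fin 6 → Fin 6 → E
  /-- `m` times the quadratic map -/
  P : Fin 6 → Fin 6 → Fin 6 → E

/-- the equation `i` of the cone -/
def TP.pq (T : TP) (i : Fin 6) : QF :=
  ((E.sub (E.c 0) T.m, 0, Fin.natAdd 2 i) :: (List.finRange 6).map fun j =>
    (T.S i j, 1, Fin.natAdd 2 j)) ++ sq (T.P i)

/-- the eight equations of the cone -/
def TP.q (T : TP) : Fin 8 → QF :=
  ![sq (T.Q 0), sq (T.Q 1), T.pq 0, T.pq 1, T.pq 2, T.pq 3, T.pq 4, T.pq 5]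

/-- the nine equations -/
def nine (T : TP) (d : E) (N : Fin 6 → Fin 6 → E) : Fin 9 → QF :=
  ![sq (T.Q 0), sq (T.Q 1), T.pq 0, T.pq 1, T.pq 2, T.pq 3, T.pq 4, T.pq 5,
    (E.c 1, 0, 0) :: (E.sub (E.c 0) d, 1, 1) :: sq N]

variable {K Ω : Type} [Field K] [Field Ω] [Algebra K Ω]

/-- the matrix of values -/
def vm (x y : K) (M : Fin 6 → Fin 6 → E) : Matrix (Fin 6) (Fin 6) K :=
  Matrix.of fun i j => ev x y (M i j)

/-- the expressions are the data of the pencil -/
structure TP.Is (T : TP) (x y : K) (H : Pen K) : Prop where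
  m0 : ev x y T.m ≠ 0
  S : ∀ i j, ev x y (T.S i j) = ev x y T.m * H.S i j
  Q : ∀ j, ∃ c : K, c ≠ 0 ∧ vm x y (T.Q j) + (vm x y (T.Q j))ᵀ = c • (H.Q j + (H.Q j)ᵀ)
  P : ∀ i, vm x y (T.P i) + (vm x y (T.P i))ᵀ = ev x y T.m • (H.P i + (H.P i)ᵀ)

theorem ev_alg (x y : K) (e : E) :
    ev (algebraMap K Ω x) (algebraMap K Ω y) e = algebraMap K Ω (ev x y e) :=
  (ev_map (algebraMap K Ω) x y e).symm

section qv

variable {R : Type} [CommRing R] (x y : R)

theorem qv_append (L L' : QF) (w : Fin 8 → R) : qv x y (L ++ L') w = qv x y L w + qv x y L' w := by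
  simp [qv]

theorem qv_cons (m : E × Fin 8 × Fin 8) (L : QF) (w : Fin 8 → R) :
    qv x y (m :: L) w = ev x y m.1 * (w m.2.1 * w m.2.2) + qv x y L w := by
  simp [qv]

theorem sum_finRange {n : ℕ} (f : Fin n → R) : ((List.finRange n).map f).sum = ∑ i, f i := by
  rw [← List.ofFn_eq_map, List.sum_ofFn]

theorem qv_sq (M : Fin 6 → Fin 6 → E) (w : Fin 8 → R) :
    qv x y (sq M) w = ∑ i, ∑ j, ev x y (M i j) * (w (Fin.natAdd 2 i) * w (Fin.natAdd 2 j)) := by
  have h : ∀ L : List (Fin 6), qv x y (L.flatMap fun i => (List.finRange 6).map fun j =>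
      (M i j, Fin.natAdd 2 i, Fin.natAdd 2 j)) w =
      (L.map fun i => ∑ j, ev x y (M i j) * (w (Fin.natAdd 2 i) * w (Fin.natAdd 2 j))).sum := by
    intro L
    induction L with
    | nil => simp [qv]
    | cons a L ih =>
      rw [List.flatMap_cons, qv_append, ih, List.map_cons, List.sum_cons]
      have h1 : qv x y ((List.finRange 6).map fun j =>
          (M a j, Fin.natAdd 2 a, Fin.natAdd 2 j)) w =
          ∑ j, ev x y (M a j) * (w (Fin.natAdd 2 a) * w (Fin.natAdd 2 j)) := by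
        rw [← sum_finRange]
        unfold qv
        rw [List.map_map]
        rfl
      rw [h1]
  unfold sq
  rw [h, sum_finRange]

end qv

omit [Field Ω] in
/-- the coordinates of `u` -/
theorem t8_nat (w : I8 → Ω) (i : Fin 6) : t8 w (Fin.natAdd 2 i) = pU w i := by
  fin_cases i <;> rfl

theorem qv_sq_bl (x y : K) (M : Fin 6 → Fin 6 → E) (w : I8 → Ω) :
    qv (algebraMap K Ω x) (algebraMap K Ω y) (sq M) (t8 w) = bl (vm x y M) (pU w) (pU w) := by
  rw [qv_sq]
  simp only [t8_nat, ev_alg, bl, dotProduct, mulVec, mK, Matrix.map_apply, vm, Matrix.of_apply,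
    Finset.mul_sum]
  refine Finset.sum_congr rfl fun i _ => Finset.sum_congr rfl fun j _ => ?_
  ring

/-- quadratic forms with the same polar form, up to a factor -/
theorem bl_eq_of_pol (h2 : (2 : Ω) ≠ 0) {M N : Matrix (Fin 6) (Fin 6) K} {c : K}
    (h : M + Mᵀ = c • (N + Nᵀ)) (u : Fin 6 → Ω) : bl M u u = algebraMap K Ω c * bl N u u := by
  have ht : ∀ A : Matrix (Fin 6) (Fin 6) K, bl Aᵀ u u = bl A u u := by
    intro A
    unfold bl
    have h1 : (mK Aᵀ : Matrix (Fin 6) (Fin 6) Ω) = (mK A)ᵀ := rfl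
    rw [h1, mulVec_transpose, dotProduct_comm, ← dotProduct_mulVec]
  have h3 := congrArg (fun A => bl A u u) h
  simp only [bl_add_mat, bl_smul_mat, ht] at h3
  apply mul_left_cancel₀ h2
  linear_combination h3

theorem qv_pq [CharZero K] {T : TP} {x y : K} {H : Pen K} (h : T.Is x y H) (i : Fin 6) (w : I8 → Ω) :
    qv (algebraMap K Ω x) (algebraMap K Ω y) (T.pq i) (t8 w) =
      algebraMap K Ω (ev x y T.m) *
        (bl (H.P i) (pU w) (pU w) - sm H.S (pL w 0) (-pL w 1) (pU w) i) := by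
  have : CharZero Ω := charZero_of_injective_algebraMap (algebraMap K Ω).injective
  unfold TP.pq
  rw [qv_append, qv_cons, qv_sq_bl, bl_eq_of_pol two_ne_zero (h.P i)]
  have e0 : t8 w 0 = pL w 0 := rfl
  have e1 : t8 w 1 = pL w 1 := rfl
  have h1 : qv (algebraMap K Ω x) (algebraMap K Ω y)
      ((List.finRange 6).map fun j => (T.S i j, 1, Fin.natAdd 2 j)) (t8 w) =
      algebraMap K Ω (ev x y T.m) * (pL w 1 * (mK H.S *ᵥ pU w) i) := by
    unfold qv
    rw [List.map_map, sum_finRange]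
    simp only [mulVec, dotProduct, mK, Matrix.map_apply, Finset.mul_sum]
    refine Finset.sum_congr rfl fun j _ => ?_
    simp only [Function.comp_apply, ev_alg, h.S, t8_nat, e1, map_mul]
    ring
  rw [h1]
  simp only [e0, t8_nat, ev_alg, ev, Int.cast_zero, zero_sub]
  simp only [sm, Pi.add_apply, Pi.smul_apply, smul_eq_mul]
  ring

/-- the eight equations and the cone -/
theorem TP.Is.mem_iff [CharZero K] {T : TP} {x y : K} {H : Pen K} (h : T.Is x y H) (w : I8 → Ω) :
    w ∈ H.W Ω ↔ ∀ k, qv (algebraMap K Ω x) (algebraMap K Ω y) (T.q k) (t8 w) = 0 := by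
  have : CharZero Ω := charZero_of_injective_algebraMap (algebraMap K Ω).injective
  have hm : algebraMap K Ω (ev x y T.m) ≠ 0 := fun h0 => h.m0 ((map_eq_zero _).1 h0)
  have hQ : ∀ j, qv (algebraMap K Ω x) (algebraMap K Ω y) (sq (T.Q j)) (t8 w) = 0 ↔
      bl (H.Q j) (pU w) (pU w) = 0 := by
    intro j
    obtain ⟨c, hc, h1⟩ := h.Q j
    rw [qv_sq_bl, bl_eq_of_pol two_ne_zero h1, mul_eq_zero]
    exact or_iff_right fun h0 => hc ((map_eq_zero _).1 h0)
  have hP : ∀ i, qv (algebraMap K Ω x) (algebraMap K Ω y) (T.pq i) (t8 w) = 0 ↔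
      bl (H.P i) (pU w) (pU w) = sm H.S (pL w 0) (-pL w 1) (pU w) i := by
    intro i
    rw [qv_pq h, mul_eq_zero, sub_eq_zero]
    exact or_iff_right hm
  constructor
  · rintro ⟨h1, h2⟩ k
    fin_cases k
    · exact (hQ 0).2 (h1 0)
    · exact (hQ 1).2 (h1 1)
    · exact (hP 0).2 (h2 0)
    · exact (hP 1).2 (h2 1)
    · exact (hP 2).2 (h2 2)
    · exact (hP 3).2 (h2 3)
    · exact (hP 4).2 (h2 4)
    · exact (hP 5).2 (h2 5)
  · intro h1
    constructor
    · intro j
      fin_cases j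
      · exact (hQ 0).1 (h1 0)
      · exact (hQ 1).1 (h1 1)
    · intro i
      fin_cases i
      · exact (hP 0).1 (h1 2)
      · exact (hP 1).1 (h1 3)
      · exact (hP 2).1 (h1 4)
      · exact (hP 3).1 (h1 5)
      · exact (hP 4).1 (h1 6)
      · exact (hP 5).1 (h1 7)

/-- the nine equations of a pencil of hermitian forms -/
theorem nine_zero [CharZero K] {T : TP} {x y : K} {H : Herm K} (h : T.Is x y H.pen)
    (hd : H.d ≠ 0) {d : E} (hdE : ev x y d = H.d) {N : Fin 6 → Fin 6 → E}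
    (hN : vm x y N + (vm x y N)ᵀ = nq H + (nq H)ᵀ) {w : I8 → Ω} (hw : w ∈ H.pen.W Ω)
    (hu : pU w ≠ 0) (l : Fin 9) :
    qv (algebraMap K Ω x) (algebraMap K Ω y) (nine T d N l) (t8 w) = 0 := by
  have : CharZero Ω := charZero_of_injective_algebraMap (algebraMap K Ω).injective
  have h1 := (h.mem_iff w).1 hw
  fin_cases l
  · exact h1 0
  · exact h1 1
  · exact h1 2
  · exact h1 3
  · exact h1 4
  · exact h1 5
  · exact h1 6
  · exact h1 7
  · change qv _ _ ((E.c 1, 0, 0) :: (E.sub (E.c 0) d, 1, 1) :: sq N) (t8 w) = 0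
    rw [qv_cons, qv_cons, qv_sq_bl, bl_eq_of_pol two_ne_zero
      (show vm x y N + (vm x y N)ᵀ = (1 : K) • (nq H + (nq H)ᵀ) by rw [one_smul, hN])]
    have e0 : t8 w 0 = pL w 0 := rfl
    have e1 : t8 w 1 = pL w 1 := rfl
    have h2 := norm_eq H hd hw hu
    simp only [e0, e1, ev_alg, ev, Int.cast_zero, Int.cast_one, zero_sub, hdE, map_one]
    linear_combination h2

/-- the matrix `J` -/
def jm (x y : K) (J : Fin 8 → Fin 8 → E) : Matrix I8 I8 K :=
  m8 (Matrix.of fun i j => ev x y (J i j))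

theorem t8_jm (x y : K) (J : Fin 8 → Fin 8 → E) (w : I8 → Ω) :
    t8 (mK (jm x y J) *ᵥ w) = jw (algebraMap K Ω x) (algebraMap K Ω y) J (t8 w) := by
  unfold jm
  rw [t8_mul]
  funext i
  simp only [jw, mulVec, dotProduct, mK, Matrix.map_apply, Matrix.of_apply, ev_alg]

/-- **Certificates for `J (W₁) ⊆ W₂`.** -/
theorem glue [CharZero K] {x y : K} {T₁ : TP} {H₁ : Herm K} (h₁ : T₁.Is x y H₁.pen)
    (hd : H₁.d ≠ 0) {d : E} (hdE : ev x y d = H₁.d) {N : Fin 6 → Fin 6 → E}
    (hN : vm x y N + (vm x y N)ᵀ = nq H₁ + (nq H₁)ᵀ)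
    {T₂ : TP} {H₂ : Pen K} (h₂ : T₂.Is x y H₂)
    {J : Fin 8 → Fin 8 → E} {den : Fin 8 → E} (hden : ∀ k, ev x y (den k) ≠ 0)
    {G : Fin 8 → Fin 9 → E} {B D : ℕ}
    (hc : ∀ k, check B D (den k) J (T₂.q k) (G k) (nine T₁ d N) = true)
    {w : I8 → Ω} (hw : w ∈ H₁.pen.W Ω) (hu : pU w ≠ 0) : mK (jm x y J) *ᵥ w ∈ H₂.W Ω := by
  have : CharZero Ω := charZero_of_injective_algebraMap (algebraMap K Ω).injective
  rw [h₂.mem_iff]
  intro k
  rw [t8_jm]
  have h1 := cert (hc k) (R := Ω) (fun z hz => (mul_eq_zero.1 hz).resolve_left two_ne_zero)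
    (algebraMap K Ω x) (algebraMap K Ω y) (t8 w)
  simp only [nine_zero h₁ hd hdE hN hw hu, mul_zero, Finset.sum_const_zero, ev_alg] at h1
  exact (mul_eq_zero.1 h1).resolve_left fun h0 => hden k ((map_eq_zero _).1 h0)

end Pool.Agent.GSE
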