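import Pool.Agent.GSE.XE
import Pool.Agent.GSE.Glue
import Pool.Agent.GSX.GenK2
import Pool.Agent.GSX.GSq
import Pool.Agent.PLN.SmoothIrr

/-!
# GSE: tests for the hypotheses of the theorem, for integer data

`psmooth_irr`: a smooth hypersurface in the projective space of dimension five is irreducible.
`ev_ne`: an expression in `s`, `t` with a non-zero value at a point is not zero in `ℂ(s, t)`.
`jdet`: the matrix of expressions is invertible if it has an inverse modulo `p` at a point.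
`top_of_hom`: two fractions generate `ℂ(s, t)`. `d2_nsq`: the discriminant of the node pencil is not
a square.
-/

set_option autoImplicit false

noncomputable section

namespace Pool.Agent.GSE

open MvPolynomial Matrix Pool.Agent.GSH GSX

/-- a smooth hypersurface is irreducible -/
theorem psmooth_irr {F : MvPolynomial (Fin 6) ℂ} {n : ℕ} (hd : F.IsHomogeneous n) (hn : 1 ≤ n)
    (hs : P28.PSmooth F) : Irreducible F := by
  have h0 : F ≠ 0 := by
    rintro rfl
    obtain ⟨i, hi⟩ := hs (fun _ => 1) (fun h => one_ne_zero (congrFun h 0)) (map_zero _)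
    exact hi (by simp)
  have hunit : ∀ A : MvPolynomial (Fin 6) ℂ, A ≠ 0 → A.IsHomogeneous 0 → IsUnit A := by
    intro A hA hA0
    have h1 : A = C (coeff 0 A) :=
      totalDegree_eq_zero_iff_eq_C.1 ((totalDegree_zero_iff_isHomogeneous _).2 hA0)
    have h2 : coeff 0 A ≠ 0 := by
      intro h3
      rw [h3, map_zero] at h1
      exact hA h1
    rw [h1]
    exact (isUnit_iff_ne_zero.2 h2).map C
  have hconst : ∀ (A : MvPolynomial (Fin 6) ℂ) (a : ℕ), A ≠ 0 → A.IsHomogeneous a → ¬ IsUnit A →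
      eval (0 : Fin 6 → ℂ) A = 0 := by
    intro A a hA ha hu
    have ha0 : a ≠ 0 := by
      rintro rfl
      exact hu (hunit A hA ha)
    rw [eval_zero, constantCoeff_eq]
    refine ha.coeff_eq_zero ?_
    rw [map_zero]
    exact ha0.symm
  refine ⟨?_, ?_⟩
  · intro hu
    obtain ⟨u, hu⟩ := hu
    have h1 : F * (↑u⁻¹ : MvPolynomial (Fin 6) ℂ) = 1 := by
      rw [← hu]
      exact u.mul_inv
    have h2 : (F * (↑u⁻¹ : MvPolynomial (Fin 6) ℂ)).IsHomogeneous 0 := by
      rw [h1]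
      exact isHomogeneous_one _ _
    obtain ⟨a, b, hab, ha, -⟩ := Pool.Agent.P28.hom_factor h2 (by rw [h1]; exact one_ne_zero)
    have h3 := ha.inj_right hd h0
    omega
  · intro A B hAB
    by_contra hcon
    push Not at hcon
    obtain ⟨hA, hB⟩ := hcon
    have hA0 : A ≠ 0 := by
      rintro rfl
      exact h0 (by rw [hAB, zero_mul])
    have hB0 : B ≠ 0 := by
      rintro rfl
      exact h0 (by rw [hAB, mul_zero])
    obtain ⟨a, b, -, ha, hb⟩ := Pool.Agent.P28.hom_factor (hAB ▸ hd) (hAB ▸ h0)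
    obtain ⟨s, hs0, hs1⟩ := Pool.Agent.ZIso.exists_ne_zero (K := ℂ) (ι := Fin 6) (κ := Fin 2)
      (by simp) ![A, B] (by
        intro i
        fin_cases i
        · exact hconst A a hA0 ha hA
        · exact hconst B b hB0 hb hB)
    have hsA : eval s A = 0 := hs1 0
    have hsB : eval s B = 0 := hs1 1
    obtain ⟨k, hk⟩ := hs s hs0 (by rw [hAB, map_mul, hsA, zero_mul])
    apply hk
    rw [hAB, pderiv_mul, map_add, map_mul, map_mul, hsA, hsB, mul_zero, zero_mul, add_zero]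

/-! ### Values in the field of rational functions -/

/-- the polynomial of an expression -/
def mp (e : E) : MvPolynomial (Fin 2) ℂ := E.ev (X 0) (X 1) e

theorem ev_KK (e : E) : E.ev sK tK e = algebraMap (MvPolynomial (Fin 2) ℂ) KK (mp e) :=
  (E.ev_map (algebraMap (MvPolynomial (Fin 2) ℂ) KK) (X 0) (X 1) e).symm

theorem eval_mp (a b : ℤ) (e : E) :
    eval ![(a : ℂ), (b : ℂ)] (mp e) = ((E.evZ a b e : ℤ) : ℂ) := by
  rw [E.evZ_eq, mp, E.ev_map (eval ![(a : ℂ), (b : ℂ)])]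
  have h1 := E.ev_map (Int.castRingHom ℂ) a b e
  simp only [Int.coe_castRingHom] at h1
  rw [h1]
  simp

theorem mp_ne {e : E} {a b : ℤ} (h : E.evZ a b e ≠ 0) : mp e ≠ 0 := by
  intro h1
  have h2 := eval_mp a b e
  rw [h1, map_zero] at h2
  exact h (by exact_mod_cast h2.symm)

theorem ev_ne {e : E} {a b : ℤ} (h : E.evZ a b e ≠ 0) : E.ev sK tK e ≠ 0 := by
  rw [ev_KK]
  intro h1
  exact mp_ne h ((map_eq_zero_iff _ (IsFractionRing.injective _ _)).1 h1)

/-- the index of a coordinate, as an equivalence -/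
def ixE : I8 ≃ Fin 8 := Equiv.ofBijective ix (by decide)

theorem det_m8 {K : Type} [Field K] (J : Matrix (Fin 8) (Fin 8) K) : (m8 J).det = J.det :=
  Matrix.det_submatrix_equiv_self ixE J

/-- the entries of the product of `J` at the point `(a, b)` and `L` -/
def pe (a b : ℤ) (J : Fin 8 → Fin 8 → E) (L : Fin 8 → Fin 8 → ℤ) (i j : Fin 8) : ℤ :=
  E.evZ a b (J i 0) * L 0 j + E.evZ a b (J i 1) * L 1 j + E.evZ a b (J i 2) * L 2 j +
    E.evZ a b (J i 3) * L 3 j + E.evZ a b (J i 4) * L 4 j + E.evZ a b (J i 5) * L 5 j +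
    E.evZ a b (J i 6) * L 6 j + E.evZ a b (J i 7) * L 7 j

/-- `L` is inverse to `J` at the point `(a, b)` modulo `p` -/
def invChk (p : ℕ) (a b : ℤ) (J : Fin 8 → Fin 8 → E) (L : Fin 8 → Fin 8 → ℤ) : Bool :=
  all8 fun i => all8 fun j =>
    (pe a b J L i j - bif Nat.beq i.val j.val then 1 else 0) % (p : ℤ) == 0

theorem jdet {p : ℕ} (hp : 1 < p) {a b : ℤ} {J : Fin 8 → Fin 8 → E} {L : Fin 8 → Fin 8 → ℤ}
    (h : invChk p a b J L = true) : IsUnit (jm sK tK J).det := by
  have h1 : ∀ i j, (pe a b J L i j : ZMod p) = (1 : Matrix (Fin 8) (Fin 8) (ZMod p)) i j := by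
    intro i j
    have h2 := (all8_iff _).1 ((all8_iff _).1 h i) j
    rw [beq_iff_eq] at h2
    have h3 := (ZMod.intCast_zmod_eq_zero_iff_dvd _ p).2 (Int.dvd_of_emod_eq_zero h2)
    rw [Int.cast_sub, sub_eq_zero] at h3
    rw [h3]
    by_cases hij : i = j
    · subst hij
      simp
    · have h4 : Nat.beq i.val j.val = false := by
        rw [Bool.eq_false_iff]
        intro h5
        exact hij (Fin.ext (Nat.eq_of_beq_eq_true h5))
      rw [h4, Matrix.one_apply_ne hij]
      simp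
  set M : Matrix (Fin 8) (Fin 8) ℤ := Matrix.of fun i j => E.evZ a b (J i j) with hM
  have h2 : M.map (Int.castRingHom (ZMod p)) * (Matrix.of L).map (Int.castRingHom (ZMod p)) =
      1 := by
    ext i j
    rw [← h1 i j]
    simp [Matrix.mul_apply, Fin.sum_univ_eight, pe, hM]
  have h3 : M.det ≠ 0 := by
    intro h4
    have h5 := congrArg Matrix.det h2
    rw [Matrix.det_mul, Matrix.det_one] at h5
    have h6 : (M.map (Int.castRingHom (ZMod p))).det = Int.castRingHom (ZMod p) M.det :=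
      ((Int.castRingHom (ZMod p)).map_det M).symm
    rw [h6, h4, map_zero, zero_mul] at h5
    haveI : Nontrivial (ZMod p) := ZMod.nontrivial_iff.2 hp.ne'
    exact zero_ne_one h5
  unfold jm
  rw [det_m8, isUnit_iff_ne_zero]
  have h4 : (Matrix.of fun i j => E.ev sK tK (J i j)) =
      (Matrix.of fun i j => mp (J i j)).map (algebraMap (MvPolynomial (Fin 2) ℂ) KK) := by
    ext i j
    exact ev_KK _
  rw [h4]
  have h5 : ((Matrix.of fun i j => mp (J i j)).map (algebraMap (MvPolynomial (Fin 2) ℂ) KK)).det =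
      algebraMap (MvPolynomial (Fin 2) ℂ) KK (Matrix.of fun i j => mp (J i j)).det :=
    ((algebraMap (MvPolynomial (Fin 2) ℂ) KK).map_det _).symm
  rw [h5]
  intro h6
  have h7 := (map_eq_zero_iff _ (IsFractionRing.injective (MvPolynomial (Fin 2) ℂ) KK)).1 h6
  have h8 := (eval ![(a : ℂ), (b : ℂ)]).map_det (Matrix.of fun i j => mp (J i j))
  rw [h7, map_zero] at h8
  have h9 : (eval ![(a : ℂ), (b : ℂ)]).mapMatrix (Matrix.of fun i j => mp (J i j)) =
      (Int.castRingHom ℂ).mapMatrix M := by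
    ext i j
    exact eval_mp a b (J i j)
  rw [h9, ← (Int.castRingHom ℂ).map_det] at h8
  have h10 : ((M.det : ℤ) : ℂ) = 0 := h8.symm
  exact h3 (by exact_mod_cast h10)

/-! ### Generators of the field -/

/-- a field which contains `s` and `t` -/
theorem top_of_st {T : IntermediateField ℂ KK} (hs : sK ∈ T) (ht : tK ∈ T) : T = ⊤ := by
  have h1 : ∀ P : MvPolynomial (Fin 2) ℂ, algebraMap (MvPolynomial (Fin 2) ℂ) KK P ∈ T := by
    intro P
    induction P using MvPolynomial.induction_on with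
    | C a =>
      have h2 : algebraMap (MvPolynomial (Fin 2) ℂ) KK (C a) = algebraMap ℂ KK a := by
        rw [← MvPolynomial.algebraMap_eq]
        exact (IsScalarTower.algebraMap_apply ℂ (MvPolynomial (Fin 2) ℂ) KK a).symm
      rw [h2]
      exact T.algebraMap_mem a
    | add p q hp hq =>
      rw [map_add]
      exact T.add_mem hp hq
    | mul_X p i hp =>
      rw [map_mul]
      refine T.mul_mem hp ?_
      fin_cases i
      · exact hs
      · exact ht
  rw [eq_top_iff]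
  intro z _
  obtain ⟨P, Q, -, rfl⟩ := IsFractionRing.div_surjective (A := MvPolynomial (Fin 2) ℂ) z
  exact T.div_mem (h1 P) (h1 Q)

/-- the power -/
def pw (e : E) : ℕ → E
  | 0 => E.c 1
  | n + 1 => pw e n * e

/-- the value of a polynomial of degree at most `m`, times `dl ^ m` -/
def hom (m : ℕ) (dl n0 n1 : E) (L : List (ℤ × ℕ × ℕ)) : E :=
  lsum (L.map fun a => E.c a.1 * pw n0 a.2.1 * pw n1 a.2.2 * pw dl (m - a.2.1 - a.2.2))

/-- the degrees are at most `m` -/
def dgs (m : ℕ) (L : List (ℤ × ℕ × ℕ)) : Bool := L.all fun a => Nat.ble (a.2.1 + a.2.2) m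

theorem ev_pw {R : Type} [CommRing R] (x y : R) (e : E) (n : ℕ) :
    E.ev x y (pw e n) = E.ev x y e ^ n := by
  induction n with
  | zero => simp [pw, E.ev_c]
  | succ n ih => rw [pw, E.ev_mul, ih, pow_succ]

theorem ev_hom {R : Type} [CommRing R] (x y : R) {m : ℕ} {dl n0 n1 : E} {c0 c1 : R}
    (h0 : E.ev x y n0 = E.ev x y dl * c0) (h1 : E.ev x y n1 = E.ev x y dl * c1)
    {L : List (ℤ × ℕ × ℕ)} (hL : dgs m L = true) :
    E.ev x y (hom m dl n0 n1 L) = E.ev x y dl ^ m *
      (L.map fun a => (a.1 : R) * c0 ^ a.2.1 * c1 ^ a.2.2).sum := by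
  unfold hom
  rw [ev_lsum, List.map_map]
  induction L with
  | nil => simp
  | cons a L ih =>
    unfold dgs at hL
    rw [List.all_cons, Bool.and_eq_true] at hL
    have h2 : a.2.1 + a.2.2 ≤ m := Nat.le_of_ble_eq_true hL.1
    rw [List.map_cons, List.sum_cons, ih hL.2, List.map_cons, List.sum_cons]
    simp only [Function.comp_apply, E.ev_mul, ev_pw, E.ev_c, h0, h1]
    obtain ⟨k, rfl⟩ : ∃ k, m = a.2.1 + a.2.2 + k := ⟨m - (a.2.1 + a.2.2), by omega⟩
    have h3 : a.2.1 + a.2.2 + k - a.2.1 - a.2.2 = k := by omega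
    rw [h3]
    ring

/-- the fractions `n0 / dl`, `n1 / dl` generate the field if `s` and `t` are rational functions of
them -/
theorem top_of_hom {dl n0 n1 : E} {m : ℕ} {S T Q : List (ℤ × ℕ × ℕ)}
    (hS : dgs m S = true) (hT : dgs m T = true) (hQ : dgs m Q = true) {B D : ℕ}
    (h0 : E.isZero B D (hom m dl n0 n1 S - E.s * hom m dl n0 n1 Q) = true)
    (h1 : E.isZero B D (hom m dl n0 n1 T - E.t * hom m dl n0 n1 Q) = true)
    {a b : ℤ} (hq : E.evZ a b (hom m dl n0 n1 Q) ≠ 0) (hd : E.ev sK tK dl ≠ 0)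
    {c : Fin 2 → KK} (hc0 : E.ev sK tK n0 = E.ev sK tK dl * c 0)
    (hc1 : E.ev sK tK n1 = E.ev sK tK dl * c 1) :
    IntermediateField.adjoin ℂ (Set.range c) = ⊤ := by
  set A := IntermediateField.adjoin ℂ (Set.range c) with hA
  have hcA : ∀ i, c i ∈ A := fun i => IntermediateField.subset_adjoin _ _ ⟨i, rfl⟩
  have hm : ∀ L : List (ℤ × ℕ × ℕ),
      (L.map fun a => (a.1 : KK) * c 0 ^ a.2.1 * c 1 ^ a.2.2).sum ∈ A := by
    intro L
    induction L with
    | nil => simp
    | cons a L ih =>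
      rw [List.map_cons, List.sum_cons]
      exact add_mem (mul_mem (mul_mem (intCast_mem A _) (pow_mem (hcA 0) _))
        (pow_mem (hcA 1) _)) ih
  have hdm : E.ev sK tK dl ^ m ≠ 0 := pow_ne_zero _ hd
  have hQ0 := ev_ne hq
  rw [ev_hom sK tK hc0 hc1 hQ] at hQ0
  have hq0 := right_ne_zero_of_mul hQ0
  have key : ∀ (L : List (ℤ × ℕ × ℕ)) (e : E), dgs m L = true →
      E.isZero B D (hom m dl n0 n1 L - e * hom m dl n0 n1 Q) = true → E.ev sK tK e ∈ A := by
    intro L e hL h2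
    have h3 := E.zero h2 sK tK
    rw [E.ev_sub, E.ev_mul, ev_hom sK tK hc0 hc1 hL, ev_hom sK tK hc0 hc1 hQ] at h3
    have h4 : E.ev sK tK e = (L.map fun a => (a.1 : KK) * c 0 ^ a.2.1 * c 1 ^ a.2.2).sum /
        (Q.map fun a => (a.1 : KK) * c 0 ^ a.2.1 * c 1 ^ a.2.2).sum := by
      rw [eq_div_iff hq0]
      apply mul_left_cancel₀ hdm
      linear_combination -h3
    rw [h4]
    exact A.div_mem (hm L) (hm Q)
  exact top_of_st (key S E.s hS h0) (key T E.t hT h1)

/-! ### The discriminant of the node pencil -/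

/-- the coefficients of `Cub.d2` for fixed `t`, as a polynomial in `s` -/
def qc (D : Cub ℤ) (t : ℤ) : ℤ × ℤ × ℤ :=
  let dt := D.a 0 0 * D.a 0 2 - D.a 0 1 ^ 2 + (D.b 0 0 * D.b 0 2 - D.b 0 1 ^ 2)
  (D.b 0 0 * D.a 0 2 + 2 * D.b 0 1 * D.a 0 1 + D.b 0 2 * D.a 0 0 + dt,
    -(2 * D.b 0 0 * D.a 0 1 * t) - 2 * D.b 0 1 * (t * D.a 0 0 + D.a 0 2) -
      2 * D.b 0 2 * D.a 0 1,
    D.b 0 0 * D.a 0 0 * t ^ 2 + 2 * D.b 0 1 * D.a 0 1 * t + D.b 0 2 * D.a 0 2 - dt * t)

theorem map_cast (D : Cub ℤ) :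
    (D.map (Int.castRingHom ℂ)).map (algebraMap ℂ KK) = D.map (Int.castRingHom KK) := by
  simp [Cub.map]

theorem eval_d2 (D : Cub ℤ) (x : ℂ) (t : ℤ) :
    eval ![x, (t : ℂ)] (mp (XT.d2 D)) =
      ((qc D t).1 : ℂ) * x ^ 2 + ((qc D t).2.1 : ℂ) * x + ((qc D t).2.2 : ℂ) := by
  rw [mp, E.ev_map (eval ![x, (t : ℂ)])]
  have hs : ∀ x y : ℂ, E.ev x y E.s = x := fun _ _ => rfl
  have ht : ∀ x y : ℂ, E.ev x y E.t = y := fun _ _ => rfl
  simp [XT.d2, XT.dl, E.ev_add, E.ev_sub, E.ev_mul, E.ev_c, hs, ht, qc]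
  ring

/-- a quadratic polynomial which is a square has discriminant zero -/
theorem disc_sq {q : Polynomial ℂ} {a b c : ℂ}
    (h : ∀ x, q.eval x ^ 2 = a * x ^ 2 + b * x + c) : b ^ 2 = 4 * a * c := by
  have h1 : q ^ 2 = Polynomial.C a * Polynomial.X ^ 2 + Polynomial.C b * Polynomial.X +
      Polynomial.C c := by
    refine Polynomial.funext fun x => ?_
    simp [h]
  have h2 : q.natDegree ≤ 1 := by
    have h3 : (q ^ 2).natDegree ≤ 2 := by
      rw [h1]
      exact Polynomial.natDegree_quadratic_le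
    rw [Polynomial.natDegree_pow] at h3
    omega
  have h3 := Polynomial.eq_X_add_C_of_natDegree_le_one h2
  set u := q.coeff 1
  set v := q.coeff 0
  have h4 : ∀ x, q.eval x = u * x + v := by
    intro x
    rw [h3]
    simp
  have e0 := h 0
  have e1 := h 1
  have e2 := h (-1)
  simp only [h4] at e0 e1 e2
  have f0 : c = v ^ 2 := by linear_combination -e0
  have f1 : b = 2 * u * v := by linear_combination (e2 - e1) / 2
  have f2 : a = u ^ 2 := by linear_combination e0 - (e1 + e2) / 2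
  rw [f0, f1, f2]
  ring

theorem d2_nsq (D : Cub ℤ) (t : ℤ)
    (h : (qc D t).2.1 ^ 2 ≠ 4 * (qc D t).1 * (qc D t).2.2) :
    ¬ IsSquare (D.map (Int.castRingHom ℂ)).D2 := by
  rintro ⟨r, hr⟩
  have h1 : (D.map (Int.castRingHom ℂ)).D2 = E.ev sK tK (XT.d2 D) := by
    rw [XT.ev_d2, Cub.D2, map_cast]
  rw [h1, ev_KK, ← pow_two] at hr
  have h2 : IsIntegral (MvPolynomial (Fin 2) ℂ) (r ^ 2) := by
    rw [← hr]
    exact isIntegral_algebraMap
  obtain ⟨Q, hQ⟩ := IsIntegrallyClosed.exists_algebraMap_eq_of_isIntegral_pow two_pos h2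
  rw [← hQ, ← map_pow] at hr
  have h3 : mp (XT.d2 D) = Q ^ 2 := IsFractionRing.injective (MvPolynomial (Fin 2) ℂ) KK hr
  apply h
  have h4 : ∀ x : ℂ, (aeval ![Polynomial.X, Polynomial.C (t : ℂ)] Q : Polynomial ℂ).eval x ^ 2 =
      ((qc D t).1 : ℂ) * x ^ 2 + ((qc D t).2.1 : ℂ) * x + ((qc D t).2.2 : ℂ) := by
    intro x
    rw [← eval_d2, h3, map_pow]
    congr 1
    have h5 : (Polynomial.evalRingHom x).comp
        (aeval (R := ℂ) ![Polynomial.X, Polynomial.C (t : ℂ)] :
          MvPolynomial (Fin 2) ℂ →ₐ[ℂ] Polynomial ℂ).toRingHom = eval ![x, (t : ℂ)] := by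
      refine MvPolynomial.ringHom_ext (fun a => ?_) fun i => ?_
      · simp
      · fin_cases i <;> simp
    exact DFunLike.congr_fun h5 Q
  have h5 := disc_sq h4
  exact_mod_cast h5

end Pool.Agent.GSE
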