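import Pool.Agent.GSE.Smooth

/-!
# GSE: smoothness of a cubic form given by the list of its terms

`ctF l`: the cubic form with the terms `z x_i x_j x_k`. `psmooth_of_ct`: smoothness over `ℂ` from
certificates modulo `p`.
-/

set_option autoImplicit false

noncomputable section

namespace Pool.Agent.GSE

open MvPolynomial Matrix GSX

/-- lists of terms `z x_i x_j x_k` -/
abbrev CT : Type := List (ℤ × Fin 6 × Fin 6 × Fin 6)

/-- the cubic form -/
def ctF (l : CT) : MvPolynomial (Fin 6) ℤ :=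
  (l.map fun m => C m.1 * (X m.2.1 * (X m.2.2.1 * X m.2.2.2))).sum

/-- the terms of the derivative of one term -/
def dT (k : Fin 6) (m : ℤ × Fin 6 × Fin 6 × Fin 6) : List (ℤ × Fin 6 × Fin 6) :=
  (bif Nat.beq m.2.1.val k.val then [(m.1, m.2.2.1, m.2.2.2)] else []) ++
    ((bif Nat.beq m.2.2.1.val k.val then [(m.1, m.2.1, m.2.2.2)] else []) ++
      (bif Nat.beq m.2.2.2.val k.val then [(m.1, m.2.1, m.2.2.1)] else []))

/-- the terms of the derivative -/
def ctD (k : Fin 6) : CT → List (ℤ × Fin 6 × Fin 6)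
  | [] => []
  | m :: l => dT k m ++ ctD k l

/-- the value of a quadratic form -/
def qvT {R : Type} [CommRing R] (v : Fin 6 → R) (l : List (ℤ × Fin 6 × Fin 6)) : R :=
  (l.map fun m => (m.1 : R) * (v m.2.1 * v m.2.2)).sum

theorem beq_fin {i k : Fin 6} : Nat.beq i.val k.val = decide (i = k) := by
  rw [Bool.eq_iff_iff, Nat.beq_eq, decide_eq_true_iff, Fin.ext_iff]

section

variable {R : Type} [CommRing R] (v : Fin 6 → R)

theorem qvT_append (l l' : List (ℤ × Fin 6 × Fin 6)) : qvT v (l ++ l') = qvT v l + qvT v l' := by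
  simp [qvT]

theorem qvT_bif (i k : Fin 6) (m : ℤ × Fin 6 × Fin 6) :
    qvT v (bif Nat.beq i.val k.val then [m] else []) =
      (if i = k then 1 else 0) * ((m.1 : R) * (v m.2.1 * v m.2.2)) := by
  rw [beq_fin]
  by_cases h : i = k <;> simp [h, qvT]

theorem aeval_pderiv_ct (k : Fin 6) (l : CT) :
    aeval v (pderiv k (ctF l)) = qvT v (ctD k l) := by
  have hC : ∀ z : ℤ, aeval v (C z : MvPolynomial (Fin 6) ℤ) = (z : R) := fun z => by
    rw [aeval_C]
    rfl
  have hX : ∀ i : Fin 6, aeval v (pderiv k (X i : MvPolynomial (Fin 6) ℤ)) =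
      if i = k then 1 else 0 := by
    intro i
    rw [pderiv_X]
    by_cases h : i = k
    · subst h
      simp
    · rw [if_neg h, Pi.single_eq_of_ne h, map_zero]
  induction l with
  | nil => simp [ctF, ctD, qvT]
  | cons m l ih =>
    have h1 : ctF (m :: l) = C m.1 * (X m.2.1 * (X m.2.2.1 * X m.2.2.2)) + ctF l := by
      simp [ctF]
    rw [h1, map_add, map_add, ih, ctD, qvT_append, dT, qvT_append, qvT_append, qvT_bif, qvT_bif,
      qvT_bif]
    simp only [Derivation.leibniz, pderiv_C, smul_eq_mul, map_add, map_mul, hC, aeval_X, hX,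
      mul_zero, add_zero]
    ring

theorem hom_ctF (l : CT) : (ctF l).IsHomogeneous 3 := by
  induction l with
  | nil => simpa [ctF] using isHomogeneous_zero (Fin 6) ℤ 3
  | cons m l ih =>
    have h1 : ctF (m :: l) = C m.1 * (X m.2.1 * (X m.2.2.1 * X m.2.2.2)) + ctF l := by
      simp [ctF]
    rw [h1]
    refine IsHomogeneous.add ?_ ih
    have h2 := (isHomogeneous_C (Fin 6) m.1).mul ((isHomogeneous_X ℤ m.2.1).mul
      ((isHomogeneous_X ℤ m.2.2.1).mul (isHomogeneous_X ℤ m.2.2.2)))
    simpa using h2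

theorem qvT_smul (c : R) (l : List (ℤ × Fin 6 × Fin 6)) :
    qvT (fun j => c * v j) l = c ^ 2 * qvT v l := by
  unfold qvT
  induction l with
  | nil => simp
  | cons m l ih =>
    rw [List.map_cons, List.sum_cons, List.map_cons, List.sum_cons, ih]
    ring

/-- the quadratic form in the chart -/
def qN (n : ℕ) (l : List (ℤ × Fin 6 × Fin 6)) : NP n :=
  sumN n (l.map fun m => t2N n m.1 m.2.1.val m.2.2.val)

theorem ev_qN (x : ℕ → R) (n : ℕ) (l : List (ℤ × Fin 6 × Fin 6)) :
    NP.ev x n (qN n l) = qvT (pt x n) l := by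
  rw [qN, ev_sumN, qvT, List.map_map]
  congr 1
  refine List.map_congr_left fun m _ => ?_
  simp only [Function.comp_apply, t2N, NP.ev_mul, NP.ev_const, ev_vN]

end

/-- the test in one chart -/
def chkT (l : CT) (p n : ℕ) (c : Fin 6 → NP n) : Bool :=
  NP.chk p n [(c 0, qN n (ctD 0 l)), (c 1, qN n (ctD 1 l)), (c 2, qN n (ctD 2 l)),
    (c 3, qN n (ctD 3 l)), (c 4, qN n (ctD 4 l)), (c 5, qN n (ctD 5 l))]

/-- **Smoothness from certificates.** -/
theorem psmooth_of_ct (l : CT) (p : ℕ) (hp : p.Prime) (c : (n : ℕ) → Fin 6 → NP n)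
    (h : ∀ n < 6, chkT l p n (c n) = true) :
    P28.PSmooth (map (Int.castRingHom ℂ) (ctF l)) := by
  classical
  refine psmooth_of_red _ (hom_ctF l) p hp fun κ _ _ v hv => ?_
  by_contra hne
  have h1 : ∃ i, v i ≠ 0 := by
    by_contra hcon
    push Not at hcon
    exact hne (funext hcon)
  obtain ⟨n, hn, hmax⟩ := (Finset.univ.filter fun i : Fin 6 => v i ≠ 0).exists_max_image
    (fun i => i) (by
      obtain ⟨i, hi⟩ := h1
      exact ⟨i, by simp [hi]⟩)
  have hn' : v n ≠ 0 := (Finset.mem_filter.1 hn).2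
  have hz : ∀ j : Fin 6, n < j → v j = 0 := by
    intro j hj
    by_contra hj0
    exact absurd (hmax j (by simp [hj0])) (not_le.2 hj)
  set x : ℕ → κ := fun j => if hj : j < 6 then (v n)⁻¹ * v ⟨j, hj⟩ else 0 with hx
  have hpt : pt x n.val = fun j => (v n)⁻¹ * v j := by
    funext j
    unfold pt
    rcases lt_trichotomy j n with hj | hj | hj
    · rw [if_pos (show j.val < n.val from hj), hx]
      simp
    · subst hj
      rw [if_neg (lt_irrefl _), if_pos rfl, inv_mul_cancel₀ hn']
    · have : n.val < j.val := hj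
      rw [if_neg (by omega : ¬ j.val < n.val), if_neg (by omega : ¬ j.val = n.val), hz j hj,
        mul_zero]
  refine NP.cert (p := p) (h n.val n.isLt) x fun a ha => ?_
  have h3 : ∀ k, NP.ev x n.val (qN n.val (ctD k l)) = 0 := by
    intro k
    rw [ev_qN, hpt, qvT_smul, ← aeval_pderiv_ct, hv, mul_zero]
  simp only [List.mem_cons, List.not_mem_nil, or_false] at ha
  rcases ha with rfl | rfl | rfl | rfl | rfl | rfl <;> exact h3 _

end Pool.Agent.GSE
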