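import Pool.Agent.GSE.Zt

/-!
# GSE: certificates for systems of quadratic forms in eight variables

`cert`: if `J` (8 × 8), `G` (8 × 9) and `den` are given by expressions in `s`, `t` and the test
`check` is true, then `den · q_k (J w) = ∑ G k l · q'_l (w)` for all `w` over every commutative ring
in which `2` is not a zero divisor, for all values of `s`, `t`.
-/

set_option autoImplicit false

namespace Pool.Agent.GSE

open E

/-- a polynomial in one variable, given by the list of its coefficients -/
def ofL (v : E) : List ℤ → E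
  | [] => E.c 0
  | a :: l => E.add (E.c a) (E.mul v (ofL v l))

/-- a polynomial in `s`, `t`: the list of the coefficients of the powers of `t` -/
def ofLL : List (List ℤ) → E
  | [] => E.c 0
  | l :: L => E.add (ofL E.s l) (E.mul E.t (ofLL L))

/-- a quadratic form in eight variables -/
abbrev QF : Type := List (E × Fin 8 × Fin 8)

section

variable {R : Type} [CommRing R] (x y : R)

/-- the value of a quadratic form -/
def qv (L : QF) (w : Fin 8 → R) : R :=
  (L.map fun m => ev x y m.1 * (w m.2.1 * w m.2.2)).sum

/-- the sum of a list -/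
def lsum : List E → E
  | [] => E.c 0
  | a :: l => E.add a (lsum l)

theorem ev_lsum (l : List E) : ev x y (lsum l) = (l.map (ev x y)).sum := by
  induction l with
  | nil => simp [lsum, ev]
  | cons a l ih => simp [lsum, ev, ih]

/-- the coefficient of `w i * w j` in `q (J w)` -/
def pull (J : Fin 8 → Fin 8 → E) (L : QF) (i j : Fin 8) : E :=
  lsum (L.map fun m => E.mul m.1 (E.mul (J m.2.1 i) (J m.2.2 j)))

/-- the coefficient of `w i * w j` in `q` -/
def cf (L : QF) (i j : Fin 8) : E :=
  lsum (L.map fun m => bif Nat.beq m.2.1.val i.val && Nat.beq m.2.2.val j.val then m.1 else E.c 0)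

/-- `J w` -/
def jw (J : Fin 8 → Fin 8 → E) (w : Fin 8 → R) : Fin 8 → R :=
  fun a => ∑ i, ev x y (J a i) * w i

theorem qv_jw (J : Fin 8 → Fin 8 → E) (L : QF) (w : Fin 8 → R) :
    qv x y L (jw x y J w) = ∑ i, ∑ j, ev x y (pull J L i j) * (w i * w j) := by
  induction L with
  | nil => simp [qv, pull, lsum, ev]
  | cons m L ih =>
    have h1 : ∀ i j, ev x y (pull J (m :: L) i j) =
        ev x y m.1 * (ev x y (J m.2.1 i) * ev x y (J m.2.2 j)) + ev x y (pull J L i j) :=
      fun i j => rfl
    have h2 : qv x y (m :: L) (jw x y J w) =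
        ev x y m.1 * (jw x y J w m.2.1 * jw x y J w m.2.2) + qv x y L (jw x y J w) := by
      simp [qv]
    rw [h2, ih]
    simp only [h1, add_mul, Finset.sum_add_distrib]
    congr 1
    unfold jw
    rw [Finset.sum_mul_sum, Finset.mul_sum]
    refine Finset.sum_congr rfl fun i _ => ?_
    rw [Finset.mul_sum]
    refine Finset.sum_congr rfl fun j _ => ?_
    ring

theorem qv_cf (L : QF) (w : Fin 8 → R) :
    qv x y L w = ∑ i, ∑ j, ev x y (cf L i j) * (w i * w j) := by
  induction L with
  | nil => simp [qv, cf, lsum, ev]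
  | cons m L ih =>
    have h1 : ∀ i j, ev x y (cf (m :: L) i j) =
        (if m.2.1 = i ∧ m.2.2 = j then ev x y m.1 else 0) + ev x y (cf L i j) := by
      intro i j
      have h2 : ev x y (cf (m :: L) i j) =
        ev x y (bif Nat.beq m.2.1.val i.val && Nat.beq m.2.2.val j.val then m.1 else E.c 0) +
          ev x y (cf L i j) := rfl
      rw [h2]
      congr 1
      by_cases hi : m.2.1 = i
      · by_cases hj : m.2.2 = j
        · rw [if_pos ⟨hi, hj⟩, hi, hj]
          simp
        · rw [if_neg fun h => hj h.2]
          have h3 : Nat.beq m.2.2.val j.val = false := by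
            rw [Bool.eq_false_iff]
            intro h
            exact hj (Fin.ext (Nat.eq_of_beq_eq_true h))
          rw [h3, Bool.and_false]
          simp [ev]
      · rw [if_neg fun h => hi h.1]
        have h3 : Nat.beq m.2.1.val i.val = false := by
          rw [Bool.eq_false_iff]
          intro h
          exact hi (Fin.ext (Nat.eq_of_beq_eq_true h))
        rw [h3, Bool.false_and]
        simp [ev]
    have h2 : qv x y (m :: L) w = ev x y m.1 * (w m.2.1 * w m.2.2) + qv x y L w := by
      simp [qv]
    rw [h2, ih]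
    simp only [h1, add_mul, Finset.sum_add_distrib]
    congr 1
    rw [Finset.sum_eq_single m.2.1, Finset.sum_eq_single m.2.2]
    · rw [if_pos ⟨rfl, rfl⟩]
    · intro j _ hj
      rw [if_neg fun h => hj h.2.symm, zero_mul]
    · intro h
      exact absurd (Finset.mem_univ _) h
    · intro i _ hi
      refine Finset.sum_eq_zero fun j _ => ?_
      rw [if_neg fun h => hi h.1.symm, zero_mul]
    · intro h
      exact absurd (Finset.mem_univ _) h

end

/-- all -/
def all8 (f : Fin 8 → Bool) : Bool := f 0 && f 1 && f 2 && f 3 && f 4 && f 5 && f 6 && f 7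

theorem all8_iff (f : Fin 8 → Bool) : all8 f = true ↔ ∀ i, f i = true := by
  simp [all8, Fin.forall_fin_succ, and_assoc]

/-- the difference of the coefficients of `w i * w j` -/
def dif (den : E) (J : Fin 8 → Fin 8 → E) (q : QF) (g : Fin 9 → E) (q' : Fin 9 → QF)
    (i j : Fin 8) : E :=
  E.sub (E.mul den (pull J q i j))
    (lsum [E.mul (g 0) (cf (q' 0) i j), E.mul (g 1) (cf (q' 1) i j), E.mul (g 2) (cf (q' 2) i j),
      E.mul (g 3) (cf (q' 3) i j), E.mul (g 4) (cf (q' 4) i j), E.mul (g 5) (cf (q' 5) i j),
      E.mul (g 6) (cf (q' 6) i j), E.mul (g 7) (cf (q' 7) i j), E.mul (g 8) (cf (q' 8) i j)])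

/-- the test -/
def check (B D : ℕ) (den : E) (J : Fin 8 → Fin 8 → E) (q : QF) (g : Fin 9 → E) (q' : Fin 9 → QF) :
    Bool :=
  all8 fun i => all8 fun j => !(Nat.ble i.val j.val) ||
    isZero B D (E.add (dif den J q g q' i j) (dif den J q g q' j i))

theorem cert {B D : ℕ} {den : E} {J : Fin 8 → Fin 8 → E} {q : QF} {g : Fin 9 → E}
    {q' : Fin 9 → QF} (h : check B D den J q g q' = true) {R : Type} [CommRing R]
    (h2 : ∀ z : R, 2 * z = 0 → z = 0) (x y : R) (w : Fin 8 → R) :
    ev x y den * qv x y q (jw x y J w) = ∑ l, ev x y (g l) * qv x y (q' l) w := by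
  have h0 : ∀ i j : Fin 8, ev x y (dif den J q g q' i j) + ev x y (dif den J q g q' j i) = 0 := by
    have h3 : ∀ i j : Fin 8, i.val ≤ j.val →
        ev x y (dif den J q g q' i j) + ev x y (dif den J q g q' j i) = 0 := by
      intro i j hij
      have h4 := (all8_iff _).1 ((all8_iff _).1 h i) j
      rw [Nat.ble_eq_true_of_le hij, Bool.not_true, Bool.false_or] at h4
      exact E.zero h4 x y
    intro i j
    rcases le_total i.val j.val with h4 | h4
    · exact h3 i j h4
    · rw [add_comm]
      exact h3 j i h4
  rw [← sub_eq_zero]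
  apply h2
  have h3 : ev x y den * qv x y q (jw x y J w) - ∑ l, ev x y (g l) * qv x y (q' l) w =
      ∑ i, ∑ j, ev x y (dif den J q g q' i j) * (w i * w j) := by
    rw [qv_jw]
    simp only [qv_cf]
    have h4 : ∀ i j, ev x y (dif den J q g q' i j) = ev x y den * ev x y (pull J q i j) -
        ∑ l, ev x y (g l) * ev x y (cf (q' l) i j) := by
      intro i j
      simp [dif, ev, lsum, Fin.sum_univ_succ]
    simp only [h4, sub_mul, Finset.sum_sub_distrib, Finset.mul_sum, Finset.sum_mul]
    congr 1
    · refine Finset.sum_congr rfl fun i _ => Finset.sum_congr rfl fun j _ => ?_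
      ring
    · rw [Finset.sum_comm]
      refine Finset.sum_congr rfl fun i _ => ?_
      rw [Finset.sum_comm]
      refine Finset.sum_congr rfl fun j _ => Finset.sum_congr rfl fun l _ => ?_
      ring
  rw [h3, two_mul]
  nth_rewrite 2 [Finset.sum_comm]
  rw [← Finset.sum_add_distrib]
  refine Finset.sum_eq_zero fun i _ => ?_
  rw [← Finset.sum_add_distrib]
  refine Finset.sum_eq_zero fun j _ => ?_
  rw [mul_comm (w j) (w i), ← add_mul, h0, zero_mul]

end Pool.Agent.GSE
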