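import Pool.Agent.GSE.HTree
import Pool.Agent.GSD.HD

/-!
# GSE: the pencil of a type O datum with integral coefficients, by expressions

`DT`: a type O datum with coefficients in `ℤ` and expressions `n 0`, `n 1`, `dl`; the parameters of the
pencil are `c i = n i / dl`. `DT.tp`: the equations (`dt_is`).
-/

set_option autoImplicit false

namespace Pool.Agent.GSE

open E Pool.Agent.GSR

/-- A type O datum with parameters. -/
structure DT where
  /-- the datum -/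
  D : Dat ℤ
  /-- the numerators of the parameters -/
  n : Fin 2 → E
  /-- the denominator of the parameters -/
  dl : E

namespace DT

variable (T : DT)

/-- `dl Z` -/
def Z (i j : Fin 2) : E :=
  T.dl * E.c (T.D.E i j) - (bif i == j then T.n 0 else E.c 0) - T.n 1 * E.c (T.D.N i j)

/-- `dl χ` -/
def χ (i : Fin 4) : E := T.dl * E.c (T.D.δ i) - T.n 1 * E.c (T.D.γ i)

/-- `dl mix B Z` -/
def mix : E :=
  E.c (T.D.B 0 0) * T.Z 1 1 + E.c (T.D.B 1 1) * T.Z 0 0 - E.c (T.D.B 0 1) * T.Z 1 0 -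
    E.c (T.D.B 1 0) * T.Z 0 1

/-- `dl ^ 2 det Z` -/
def dZ : E := T.Z 0 0 * T.Z 1 1 - T.Z 0 1 * T.Z 1 0

/-- `det B` -/
def dB : E := E.c (T.D.B 0 0 * T.D.B 1 1 - T.D.B 0 1 * T.D.B 1 0)

/-- the adjugate of `B` -/
def aB : Fin 2 → Fin 2 → E :=
  ![![E.c (T.D.B 1 1), E.c (-T.D.B 0 1)], ![E.c (-T.D.B 1 0), E.c (T.D.B 0 0)]]

/-- `dl` times the adjugate of `Z` -/
def aZ : Fin 2 → Fin 2 → E := ![![T.Z 1 1, -T.Z 0 1], ![-T.Z 1 0, T.Z 0 0]]

end DT

/-- as `GSR.bl` -/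
def blE (M : Fin 2 → Fin 2 → E) (v v' : Fin 6 → E) : E :=
  v 0 * (M 0 0 * v' 2 + M 0 1 * v' 3) + v 1 * (M 1 0 * v' 2 + M 1 1 * v' 3)

/-- as `GSR.ln` -/
def lnE (M : Fin 2 → Fin 2 → E) (c : Fin 4 → E) (v : Fin 6 → E) : E :=
  v 0 * (M 0 0 * c 0 + M 0 1 * c 1) + v 1 * (M 1 0 * c 0 + M 1 1 * c 1) +
    (c 2 * (M 0 0 * v 2 + M 0 1 * v 3) + c 3 * (M 1 0 * v 2 + M 1 1 * v 3))

/-- the unit matrix -/
def oneE : Fin 2 → Fin 2 → E := ![![E.c 1, E.c 0], ![E.c 0, E.c 1]]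

/-- as `GSR.w` -/
def wE (v v' : Fin 6 → E) : E := blE oneE v v' - blE oneE v' v + (v 4 * v' 5 - v' 4 * v 5)

/-- as `GSD.br` -/
def brE (M : Fin 2 → Fin 2 → E) (v v' : Fin 6 → E) : E := blE M v v' - blE M v' v

/-- a matrix of constants -/
def cE {m n : ℕ} (M : Matrix (Fin m) (Fin n) ℤ) : Fin m → Fin n → E := fun i j => E.c (M i j)

/-- the unit vector -/
def un (i : Fin 6) : Fin 6 → E := fun j => bif i == j then E.c 1 else E.c 0

/-- as `GSD.dv` -/
def dvE (f : (Fin 6 → E) → E) : Fin 6 → E :=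
  ![f (un 2), f (un 3), -f (un 0), -f (un 1), f (un 5), -f (un 4)]

namespace DT

variable (T : DT)

/-- `dl ^ 2 K_c` -/
def KK (v : Fin 6 → E) : Fin 6 → E :=
  ![T.dl * (E.c 2 * (v 0 * (T.aB 0 0 * T.Z 0 0 + T.aB 0 1 * T.Z 1 0) +
      v 1 * (T.aB 1 0 * T.Z 0 0 + T.aB 1 1 * T.Z 1 0)) - T.mix * v 0),
    T.dl * (E.c 2 * (v 0 * (T.aB 0 0 * T.Z 0 1 + T.aB 0 1 * T.Z 1 1) +
      v 1 * (T.aB 1 0 * T.Z 0 1 + T.aB 1 1 * T.Z 1 1)) - T.mix * v 1),
    T.dl * (E.c 2 * ((T.Z 0 0 * T.aB 0 0 + T.Z 0 1 * T.aB 1 0) * v 2 +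
      (T.Z 0 0 * T.aB 0 1 + T.Z 0 1 * T.aB 1 1) * v 3) - T.mix * v 2),
    T.dl * (E.c 2 * ((T.Z 1 0 * T.aB 0 0 + T.Z 1 1 * T.aB 1 0) * v 2 +
      (T.Z 1 0 * T.aB 0 1 + T.Z 1 1 * T.aB 1 1) * v 3) - T.mix * v 3),
    T.dl * T.mix * v 4 + E.c 2 * T.dZ * v 5 - E.c 2 * lnE T.aZ T.χ v,
    E.c (-2) * (T.dl * T.dl) * T.dB * v 4 - T.dl * T.mix * v 5 +
      E.c 2 * T.dl * lnE T.aB T.χ v]

/-- as `Dat.tau0` -/
def tau0 (v v' : Fin 6 → E) : E :=
  lsum ((List.finRange 6).flatMap fun i => (List.finRange 6).map fun j =>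
    E.c (T.D.t i j) * (v i * v' j - v' i * v j))

/-- the adjugate of `N` -/
def aN : Fin 2 → Fin 2 → E :=
  ![![E.c (T.D.N 1 1), E.c (-T.D.N 0 1)], ![E.c (-T.D.N 1 0), E.c (T.D.N 0 0)]]

/-- `det N` -/
def dN : E := E.c (T.D.N 0 0 * T.D.N 1 1 - T.D.N 0 1 * T.D.N 1 0)

/-- the coefficients of `γ` -/
def γ (i : Fin 4) : E := E.c (T.D.γ i)

/-- as `Dat.ta` -/
def ta (v v' : Fin 6 → E) : E :=
  blE (cE T.D.N) v v' - blE (cE T.D.N) v' v + (v 4 * lnE oneE T.γ v' - v' 4 * lnE oneE T.γ v)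

/-- as `Dat.tb` -/
def tb (v v' : Fin 6 → E) : E :=
  v 4 * (lnE T.aN T.γ v' - T.dN * v' 5) - v' 4 * (lnE T.aN T.γ v - T.dN * v 5)

/-- `dl τ_c` -/
def tau (v v' : Fin 6 → E) : E := T.dl * T.tau0 v v' + T.n 0 * T.ta v v' + T.n 1 * T.tb v v'

/-- `dl φ_c` -/
def phi (a b d : Fin 6 → E) : E :=
  T.dl * (a 4 * brE (cE T.D.B) b d + b 4 * brE (cE T.D.B) d a + d 4 * brE (cE T.D.B) a b) +
  (a 5 * brE T.Z b d + b 5 * brE T.Z d a + d 5 * brE T.Z a b) +
  ((a 5 * b 4 - a 4 * b 5) * lnE oneE T.χ d + (b 5 * d 4 - b 4 * d 5) * lnE oneE T.χ a +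
    (d 5 * a 4 - d 4 * a 5) * lnE oneE T.χ b)

/-- the equations -/
def tp : TP where
  m := T.dl * T.dl
  S := fun i j => T.KK (un j) i
  Q := ![fun i j => wE (un i) (T.KK (un j)), fun i j => T.tau (un i) (T.KK (un j))]
  P := fun k i j => dvE (T.phi (un i) (dvE (T.tau (un j)))) k

end DT

noncomputable section

open Matrix Pool.Agent.GSH Pool.Agent.GSD

variable {K : Type} [Field K] (T : DT) (x y : K)

/-- the datum over `K` -/
def DT.dat (K : Type) [Field K] (T : DT) : Dat K := T.D.map (Int.castRingHom K)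

/-- the vector of values -/
def v6 (v : Fin 6 → E) : Fin 6 → K := fun i => ev x y (v i)

theorem v6_un (i : Fin 6) : v6 x y (un i) = (Pi.single i 1 : Fin 6 → K) := by
  funext j
  unfold v6 un
  by_cases h : i = j
  · subst h
    simp [ev_c]
  · rw [Pi.single_eq_of_ne (Ne.symm h)]
    have h1 : (i == j) = false := by simp [h]
    rw [h1]
    simp [ev_c]

/-- the matrix of values -/
def v2 (M : Fin 2 → Fin 2 → E) : Matrix (Fin 2) (Fin 2) K := Matrix.of fun i j => ev x y (M i j)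

theorem ev_blE (M : Fin 2 → Fin 2 → E) (v v' : Fin 6 → E) :
    ev x y (blE M v v') = GSR.bl (v2 x y M) (v6 x y v) (v6 x y v') := by
  simp [blE, GSR.bl, v2, v6, ev_add, ev_mul]

theorem ev_lnE (M : Fin 2 → Fin 2 → E) (c : Fin 4 → E) (v : Fin 6 → E) :
    ev x y (lnE M c v) = GSR.ln (v2 x y M) (fun i => ev x y (c i)) (v6 x y v) := by
  simp [lnE, GSR.ln, v2, v6, ev_add, ev_mul]

theorem v2_one : v2 x y oneE = (1 : Matrix (Fin 2) (Fin 2) K) := by
  ext i j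
  fin_cases i <;> fin_cases j <;> simp [v2, oneE, ev_c]

theorem ev_wE (v v' : Fin 6 → E) : ev x y (wE v v') = w (v6 x y v) (v6 x y v') := by
  unfold wE w
  simp only [ev_add, ev_sub, ev_mul, ev_blE, v2_one]
  rfl

theorem ev_brE (M : Fin 2 → Fin 2 → E) (v v' : Fin 6 → E) :
    ev x y (brE M v v') = br (v2 x y M) (v6 x y v) (v6 x y v') := by
  unfold brE br
  simp only [ev_sub, ev_blE]

theorem v2_c (M : Matrix (Fin 2) (Fin 2) ℤ) : v2 x y (cE M) = M.map (Int.castRingHom K) := by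
  ext i j
  simp [v2, cE, ev_c]

theorem v6_dv (f : (Fin 6 → E) → E) (g : (Fin 6 → K) → K) (a : K)
    (h : ∀ v, ev x y (f v) = a * g (v6 x y v)) : v6 x y (dvE f) = a • dv g := by
  funext i
  fin_cases i <;>
    simp [v6, dvE, dv, ev_neg, h, v6_un]

variable {c : Fin 2 → K} (hc : ∀ i, ev x y (T.n i) = ev x y T.dl * c i)
include hc

theorem v2_Z : v2 x y T.Z = ev x y T.dl • (T.dat K).Z c := by
  ext i j
  have h0 := hc 0
  have h1 := hc 1
  fin_cases i <;> fin_cases j <;>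
    (simp [v2, DT.Z, ev_sub, ev_mul, ev_c, DT.dat, Dat.Z, Dat.map, h0, h1]; try ring)

theorem ev_χ (i : Fin 4) : ev x y (T.χ i) = ev x y T.dl * (T.dat K).χ c i := by
  simp [DT.χ, ev_sub, ev_mul, ev_c, DT.dat, Dat.χ, Dat.map, hc 1]
  ring

theorem ev_Z (i j : Fin 2) : ev x y (T.Z i j) = ev x y T.dl * (T.dat K).Z c i j :=
  congrFun (congrFun (v2_Z T x y hc) i) j

theorem ev_mix : ev x y T.mix = ev x y T.dl * mix (T.dat K).B ((T.dat K).Z c) := by
  simp only [DT.mix, ev_add, ev_sub, ev_mul, ev_c, ev_Z T x y hc, mix, DT.dat, Dat.map,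
    Matrix.map_apply, Int.coe_castRingHom]
  ring

theorem ev_dZ : ev x y T.dZ = ev x y T.dl ^ 2 * ((T.dat K).Z c).det := by
  simp only [DT.dZ, ev_sub, ev_mul, ev_Z T x y hc, det_fin_two]
  ring

omit hc in
theorem ev_dB : ev x y T.dB = (T.dat K).B.det := by
  simp [DT.dB, ev_c, DT.dat, Dat.map, det_fin_two]

omit hc in
theorem v2_aB : v2 x y T.aB = (T.dat K).B.adjugate := by
  rw [adjugate_fin_two]
  ext i j
  fin_cases i <;> fin_cases j <;> simp [v2, DT.aB, ev_c, DT.dat, Dat.map]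

theorem v2_aZ : v2 x y T.aZ = ev x y T.dl • ((T.dat K).Z c).adjugate := by
  rw [adjugate_fin_two]
  ext i j
  fin_cases i <;> fin_cases j <;> simp [v2, DT.aZ, ev_neg, ev_Z T x y hc]

omit hc in
theorem ev_aB (i j : Fin 2) : ev x y (T.aB i j) = (T.dat K).B.adjugate i j :=
  congrFun (congrFun (v2_aB T x y) i) j

theorem v6_KK (v : Fin 6 → E) : v6 x y (T.KK v) = ev x y T.dl ^ 2 • (T.dat K).K c (v6 x y v) := by
  have hχ : (fun i => ev x y (T.χ i)) = ev x y T.dl • (T.dat K).χ c := by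
    funext i
    exact ev_χ T x y hc i
  have hln : ∀ (a b : K) (M : Matrix (Fin 2) (Fin 2) K) (χ : Fin 4 → K) (v : Fin 6 → K),
      ln (a • M) (b • χ) v = a * b * ln M χ v := by
    intro a b M χ v
    simp [ln]
    ring
  have hln' : ∀ (b : K) (M : Matrix (Fin 2) (Fin 2) K) (χ : Fin 4 → K) (v : Fin 6 → K),
      ln M (b • χ) v = b * ln M χ v := by
    intro b M χ v
    simp [ln]
    ring
  funext i
  fin_cases i
  · simp [v6, DT.KK, ev_sub, ev_mul, ev_add, ev_c, ev_mix T x y hc, ev_Z T x y hc, ev_aB, Dat.K,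
      GSR.KK, Matrix.mul_apply, Fin.sum_univ_two]
    ring
  · simp [v6, DT.KK, ev_sub, ev_mul, ev_add, ev_c, ev_mix T x y hc, ev_Z T x y hc, ev_aB, Dat.K,
      GSR.KK, Matrix.mul_apply, Fin.sum_univ_two]
    ring
  · simp [v6, DT.KK, ev_sub, ev_mul, ev_add, ev_c, ev_mix T x y hc, ev_Z T x y hc, ev_aB, Dat.K,
      GSR.KK, Matrix.mul_apply, Fin.sum_univ_two]
    ring
  · simp [v6, DT.KK, ev_sub, ev_mul, ev_add, ev_c, ev_mix T x y hc, ev_Z T x y hc, ev_aB, Dat.K,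
      GSR.KK, Matrix.mul_apply, Fin.sum_univ_two]
    ring
  · simp [v6, DT.KK, ev_sub, ev_mul, ev_add, ev_c, ev_mix T x y hc, ev_dZ T x y hc, Dat.K,
      GSR.KK, ev_lnE, v2_aZ T x y hc, hχ, hln]
    ring
  · simp [v6, DT.KK, ev_sub, ev_mul, ev_add, ev_c, ev_mix T x y hc, ev_dB, Dat.K,
      GSR.KK, ev_lnE, v2_aB, hχ, hln']
    ring

omit hc in
theorem ev_lsum2 (f : Fin 6 → Fin 6 → E) :
    ev x y (lsum ((List.finRange 6).flatMap fun i => (List.finRange 6).map fun j => f i j)) =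
      ∑ i, ∑ j, ev x y (f i j) := by
  have h : ∀ L : List (Fin 6), ev x y (lsum (L.flatMap fun i => (List.finRange 6).map fun j =>
      f i j)) = (L.map fun i => ∑ j, ev x y (f i j)).sum := by
    intro L
    rw [ev_lsum]
    induction L with
    | nil => simp
    | cons a L ih =>
      rw [List.flatMap_cons, List.map_append, List.sum_append, ih, List.map_cons, List.sum_cons]
      have h1 : (List.map (ev x y) ((List.finRange 6).map fun j => f a j)).sum =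
          ∑ j, ev x y (f a j) := by
        rw [List.map_map, ← sum_finRange]
        rfl
      rw [h1]
  rw [h, sum_finRange]

omit hc in
theorem ev_tau0 (v v' : Fin 6 → E) :
    ev x y (T.tau0 v v') = (T.dat K).tau0 (v6 x y v) (v6 x y v') := by
  unfold DT.tau0 Dat.tau0
  rw [ev_lsum2]
  refine Finset.sum_congr rfl fun i _ => Finset.sum_congr rfl fun j _ => ?_
  simp [ev_mul, ev_sub, ev_c, v6, DT.dat, Dat.map]

omit hc in
theorem v2_aN : v2 x y T.aN = (T.dat K).N.adjugate := by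
  rw [adjugate_fin_two]
  ext i j
  fin_cases i <;> fin_cases j <;> simp [v2, DT.aN, ev_c, DT.dat, Dat.map]

omit hc in
theorem ev_dN : ev x y T.dN = (T.dat K).N.det := by
  simp [DT.dN, ev_c, DT.dat, Dat.map, det_fin_two]

omit hc in
theorem ev_γ : (fun i => ev x y (T.γ i)) = (T.dat K).γ := by
  funext i
  simp [DT.γ, ev_c, DT.dat, Dat.map]

theorem ev_tau (v v' : Fin 6 → E) :
    ev x y (T.tau v v') = ev x y T.dl * (T.dat K).tau c (v6 x y v) (v6 x y v') := by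
  have hN : v2 x y (cE T.D.N) = (T.dat K).N := v2_c x y _
  simp only [DT.tau, DT.ta, DT.tb, ev_add, ev_mul, ev_sub, ev_tau0, ev_blE, ev_lnE, hN, v2_one,
    v2_aN, ev_dN, ev_γ, hc, Dat.tau, Dat.ta, Dat.tb]
  simp only [v6]
  ring

theorem ev_phi (a b d : Fin 6 → E) :
    ev x y (T.phi a b d) = ev x y T.dl * phi (T.dat K) c (v6 x y a) (v6 x y b) (v6 x y d) := by
  have hB : v2 x y (cE T.D.B) = (T.dat K).B := v2_c x y _
  have hχ : (fun i => ev x y (T.χ i)) = ev x y T.dl • (T.dat K).χ c := by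
    funext i
    exact ev_χ T x y hc i
  have hbr : ∀ (a : K) (M : Matrix (Fin 2) (Fin 2) K) (v v' : Fin 6 → K),
      br (a • M) v v' = a * br M v v' := by
    intro a M v v'
    simp [br, GSR.bl]
    ring
  have hln' : ∀ (b : K) (M : Matrix (Fin 2) (Fin 2) K) (χ : Fin 4 → K) (v : Fin 6 → K),
      ln M (b • χ) v = b * ln M χ v := by
    intro b M χ v
    simp [ln]
    ring
  simp only [DT.phi, ev_add, ev_mul, ev_sub, ev_brE, ev_lnE, hB, v2_one, v2_Z T x y hc, hχ, hbr,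
    hln', phi]
  simp only [v6]
  ring

theorem dt_is [CharZero K] (hdl : ev x y T.dl ≠ 0) : T.tp.Is x y (hd (T.dat K) c) where
  m0 := by
    change ev x y (T.dl * T.dl) ≠ 0
    rw [ev_mul]
    exact mul_ne_zero hdl hdl
  S := by
    intro i j
    change v6 x y (T.KK (un j)) i = ev x y (T.dl * T.dl) * (T.dat K).K c (Pi.single j 1) i
    rw [v6_KK T x y hc, v6_un, ev_mul, Pi.smul_apply, smul_eq_mul, pow_two]
  Q := by
    intro j
    fin_cases j
    · refine ⟨ev x y T.dl ^ 2, pow_ne_zero _ hdl, ?_⟩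
      have h1 : vm x y (T.tp.Q 0) = ev x y T.dl ^ 2 • (hd (T.dat K) c).Q 0 := by
        ext a b
        change ev x y (wE (un a) (T.KK (un b))) = ev x y T.dl ^ 2 *
          w (Pi.single a 1) ((T.dat K).K c (Pi.single b 1))
        rw [ev_wE, v6_KK T x y hc, v6_un, v6_un]
        simp [w, GSR.bl]
        ring
      change vm x y (T.tp.Q 0) + (vm x y (T.tp.Q 0))ᵀ =
        _ • ((hd (T.dat K) c).Q 0 + ((hd (T.dat K) c).Q 0)ᵀ)
      rw [h1, transpose_smul, smul_add]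
    · refine ⟨ev x y T.dl ^ 3, pow_ne_zero _ hdl, ?_⟩
      have h1 : vm x y (T.tp.Q 1) = ev x y T.dl ^ 3 • (hd (T.dat K) c).Q 1 := by
        ext a b
        change ev x y (T.tau (un a) (T.KK (un b))) = ev x y T.dl ^ 3 *
          (T.dat K).tau c (Pi.single a 1) ((T.dat K).K c (Pi.single b 1))
        rw [ev_tau T x y hc, v6_KK T x y hc, v6_un, v6_un, tau_smul_right]
        ring
      change vm x y (T.tp.Q 1) + (vm x y (T.tp.Q 1))ᵀ =
        _ • ((hd (T.dat K) c).Q 1 + ((hd (T.dat K) c).Q 1)ᵀ)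
      rw [h1, transpose_smul, smul_add]
  P := by
    intro i
    have hm : ev x y T.tp.m = ev x y T.dl * ev x y T.dl := ev_mul _ _ _ _
    have h1 : vm x y (T.tp.P i) = ev x y T.tp.m • (hd (T.dat K) c).P i := by
      ext a b
      change v6 x y (dvE (T.phi (un a) (dvE (T.tau (un b))))) i = ev x y T.tp.m *
        Pb (T.dat K) c (Pi.single a 1) (Pi.single b 1) i
      have h2 : v6 x y (dvE (T.tau (un b))) = ev x y T.dl • tv (T.dat K) c (Pi.single b 1) := by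
        refine v6_dv x y _ _ _ fun v => ?_
        rw [ev_tau T x y hc, v6_un]
      have h3 := v6_dv x y (T.phi (un a) (dvE (T.tau (un b))))
        (phi (T.dat K) c (Pi.single a 1) (tv (T.dat K) c (Pi.single b 1)))
        (ev x y T.dl * ev x y T.dl) (fun v => by
          rw [ev_phi T x y hc, v6_un, h2, phi_smul_mid]
          ring)
      rw [h3, hm]
      rfl
    rw [h1, transpose_smul, smul_add]

end

end Pool.Agent.GSE
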