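import Pool.Agent.GSN.Maps
import Mathlib.NumberTheory.Zsqrtd.Basic

/-!
# GSE: the condition `Good` for a datum with integer coefficients

`GC`: the intermediate values for one point. `GC.Ok`: the test. `good_of`: if the test over `ℤ[√N]`
is true then the datum over `ℂ` is `Good`.
-/

set_option autoImplicit false

namespace Pool.Agent.GSE

open Matrix Pool.Agent.GSR Pool.Agent.GSN

namespace GZ

section

variable {F : Type} [CommRing F]

/-- matrices of order two -/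
abbrev M2 (F : Type) : Type := Matrix (Fin 2) (Fin 2) F

/-- the adjugate -/
def ad (M : M2 F) : M2 F := !![M 1 1, -M 0 1; -M 1 0, M 0 0]

/-- the determinant -/
def de (M : M2 F) : F := M 0 0 * M 1 1 - M 0 1 * M 1 0

/-- the product -/
def mu (M N : M2 F) : M2 F :=
  !![M 0 0 * N 0 0 + M 0 1 * N 1 0, M 0 0 * N 0 1 + M 0 1 * N 1 1;
    M 1 0 * N 0 0 + M 1 1 * N 1 0, M 1 0 * N 0 1 + M 1 1 * N 1 1]

/-- the difference -/
def su (M N : M2 F) : M2 F := !![M 0 0 - N 0 0, M 0 1 - N 0 1; M 1 0 - N 1 0, M 1 1 - N 1 1]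

/-- the unit matrix -/
def on : M2 F := !![1, 0; 0, 1]

theorem ad_eq (M : M2 F) : ad M = M.adjugate := (adjugate_fin_two M).symm

theorem de_eq (M : M2 F) : de M = M.det := (det_fin_two M).symm

theorem mu_eq (M N : M2 F) : mu M N = M * N := by
  ext i j
  fin_cases i <;> fin_cases j <;> simp [mu, Matrix.mul_apply, Fin.sum_univ_two]

theorem su_eq (M N : M2 F) : su M N = M - N := by
  ext i j
  fin_cases i <;> fin_cases j <;> simp [su]

theorem on_eq : (on : M2 F) = 1 := by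
  ext i j
  fin_cases i <;> fin_cases j <;> simp [on]

variable (D : Dat F)

/-- `D.Z c` -/
def Z (c : Fin 2 → F) : M2 F :=
  !![D.E 0 0 - c 0 - c 1 * D.N 0 0, D.E 0 1 - c 1 * D.N 0 1;
    D.E 1 0 - c 1 * D.N 1 0, D.E 1 1 - c 0 - c 1 * D.N 1 1]

theorem Z_eq (c : Fin 2 → F) : Z D c = D.Z c := by
  ext i j
  fin_cases i <;> fin_cases j <;> simp [Z, Dat.Z]

/-- the matrix `W` -/
def W (Z : M2 F) (s : F) : M2 F :=
  !![(mix D.B Z - s) * D.B 0 0 - 2 * de D.B * Z 0 0, (mix D.B Z - s) * D.B 0 1 - 2 * de D.B * Z 0 1;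
    (mix D.B Z - s) * D.B 1 0 - 2 * de D.B * Z 1 0, (mix D.B Z - s) * D.B 1 1 - 2 * de D.B * Z 1 1]

theorem W_eq (c : Fin 2 → F) (s : F) : W D (D.Z c) s = WW D c s := by
  ext i j
  fin_cases i <;> fin_cases j <;> simp [W, WW, de_eq]

/-- the eigenvectors -/
def hv (Z W : M2 F) (χ : Fin 4 → F) (s : F) : Fin 3 → Fin 6 → F :=
  ![![0, 0, 0, 0, -(mix D.B Z + s), 2 * de D.B],
    ![de D.B * W 0 0, de D.B * W 0 1, 0, 0, ln (ad D.B) χ ![W 0 0, W 0 1, 0, 0, 0, 0], 0],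
    ![0, 0, de D.B * W 0 0, de D.B * W 1 0, ln (ad D.B) χ ![0, 0, W 0 0, W 1 0, 0, 0], 0]]

theorem hv_eq (c : Fin 2 → F) (s : F) : hv D (D.Z c) (WW D c s) (D.χ c) s = hh D c s := by
  simp only [hv, hh, ad_eq, de_eq]

/-- the sum over the indices -/
def s6 (f : Fin 6 → F) : F := f 0 + f 1 + f 2 + f 3 + f 4 + f 5

/-- `D.tau0` -/
def tau0 (v v' : Fin 6 → F) : F := s6 fun i => s6 fun j => D.t i j * (v i * v' j - v' i * v j)

theorem tau0_eq (v v' : Fin 6 → F) : tau0 D v v' = D.tau0 v v' := by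
  unfold tau0 Dat.tau0 s6
  simp only [Fin.sum_univ_six]

/-- `D.ta` -/
def ta (v v' : Fin 6 → F) : F :=
  bl D.N v v' - bl D.N v' v + (v 4 * ln on D.γ v' - v' 4 * ln on D.γ v)

theorem ta_eq (v v' : Fin 6 → F) : ta D v v' = D.ta v v' := by
  unfold ta Dat.ta
  rw [on_eq]

/-- `D.tb` -/
def tb (v v' : Fin 6 → F) : F :=
  v 4 * (ln (ad D.N) D.γ v' - de D.N * v' 5) - v' 4 * (ln (ad D.N) D.γ v - de D.N * v 5)

theorem tb_eq (v v' : Fin 6 → F) : tb D v v' = D.tb v v' := by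
  unfold tb Dat.tb
  rw [ad_eq, de_eq]

/-- `D.tau` -/
def tau (c : Fin 2 → F) (v v' : Fin 6 → F) : F :=
  tau0 D v v' + c 0 * ta D v v' + c 1 * tb D v v'

theorem tau_eq (c : Fin 2 → F) (v v' : Fin 6 → F) : tau D c v v' = D.tau c v v' := by
  unfold tau Dat.tau
  rw [tau0_eq, ta_eq, tb_eq]

/-- `w` -/
def wx (v v' : Fin 6 → F) : F := bl on v v' - bl on v' v + (v 4 * v' 5 - v' 4 * v 5)

theorem wx_eq (v v' : Fin 6 → F) : wx v v' = w v v' := by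
  unfold wx w
  rw [on_eq]

/-- `f21` -/
def f21 (NB EB X : M2 F) (v z : Fin 6 → F) : F :=
  -((de D.B * z 4 - ln (ad D.B) D.δ z) * bl NB v v) -
    (de D.B * v 4 - ln (ad D.B) D.δ v) * (bl NB v z + bl NB z v) -
    ln (ad D.B) D.γ z * bl EB v v -
    ln (ad D.B) D.γ v * (bl EB v z + bl EB z v) +
    z 5 * bl X v v + v 5 * (bl X v z + bl X z v)

/-- the commutator of `N` and `B` -/
def cNB : M2 F := su (mu D.N D.B) (mu D.B D.N)

/-- the commutator of `E` and `B` -/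
def cEB : M2 F := su (mu D.E D.B) (mu D.B D.E)

/-- the third matrix -/
def cX : M2 F := mu (mu (ad D.B) (su (mu D.E D.N) (mu D.N D.E))) (ad D.B)

theorem f21_eq (v z : Fin 6 → F) : f21 D (cNB D) (cEB D) (cX D) v z = D.f21 v z := by
  unfold f21 cNB cEB cX Dat.f21
  simp only [ad_eq, de_eq, mu_eq, su_eq]

/-- `ew` -/
def ew' (BM MB C : M2 F) (c : Fin 4 → F) (v : Fin 6 → F) : Fin 6 → F :=
  ![v 5 * (v 0 * BM 0 0 + v 1 * BM 1 0) - ln (ad D.B) c v * v 0,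
    v 5 * (v 0 * BM 0 1 + v 1 * BM 1 1) - ln (ad D.B) c v * v 1,
    v 5 * (MB 0 0 * v 2 + MB 0 1 * v 3) - ln (ad D.B) c v * v 2,
    v 5 * (MB 1 0 * v 2 + MB 1 1 * v 3) - ln (ad D.B) c v * v 3, -bl C v v, 0]

/-- `D.e1` -/
def e1 (v : Fin 6 → F) : Fin 6 → F :=
  ew' D (ad D.B) (ad D.B) (su D.B D.B) (fun _ => 0) v

theorem e1_eq (v : Fin 6 → F) : e1 D v = D.e1 v := by
  unfold e1 ew' Dat.e1 ew
  rw [ad_eq, su_eq, mul_one, one_mul, one_mul, mul_one]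
  rfl

/-- `D.e2` -/
def e2 (v : Fin 6 → F) : Fin 6 → F :=
  ew' D (mu (ad D.B) D.N) (mu D.N (ad D.B)) (cNB D) D.γ v

theorem e2_eq (v : Fin 6 → F) : e2 D v = D.e2 v := by
  unfold e2 ew' cNB Dat.e2 ew
  simp only [ad_eq, mu_eq, su_eq]

/-- `D.e0` -/
def e0 (e : Fin 6 → F) (v : Fin 6 → F) : Fin 6 → F :=
  ![de D.B * v 4 * v 0 + e 0, de D.B * v 4 * v 1 + e 1,
    de D.B * v 4 * v 2 + e 2, de D.B * v 4 * v 3 + e 3, e 4, 0]

theorem e0_eq (v : Fin 6 → F) :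
    e0 D (ew' D (mu (ad D.B) D.E) (mu D.E (ad D.B)) (cEB D) D.δ v) v = D.e0 v := by
  unfold e0 ew' cEB Dat.e0 ev ew
  simp only [ad_eq, de_eq, mu_eq, su_eq]

/-- `D.hLam` -/
def lam (v : Fin 6 → F) (a b : F) : F :=
  v 5 * (a * a) + a * b * (v 5 * (D.N 0 0 + D.N 1 1) - ln on D.γ v) +
    b * b * (v 5 * de D.N - ln (ad D.N) D.γ v)

theorem lam_eq (v : Fin 6 → F) (a b : F) : lam D v a b = D.hLam v a b := by
  unfold lam Dat.hLam
  rw [on_eq, de_eq, ad_eq, pow_two, pow_two]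

/-- `D.hA0` -/
def A0 (m p0 p1 : F) (v : Fin 6 → F) : F :=
  -(v 5 * (m * v 4 * (D.B 0 0 + D.B 1 1) + v 5 * (m * (D.E 0 0 + D.E 1 1) - 2 * p0 -
    p1 * (D.N 0 0 + D.N 1 1)) - (m * ln on D.δ v - p1 * ln on D.γ v)))

theorem A0_eq (m p0 p1 : F) (v : Fin 6 → F) : A0 D m p0 p1 v = D.hA0 m p0 p1 v := by
  unfold A0 Dat.hA0
  rw [on_eq]

/-- `D.hA1` -/
def A1 (m p0 p1 : F) (v : Fin 6 → F) : F :=
  -(m * v 4 * v 5 * mix D.B D.N +
    v 5 * v 5 * (m * mix D.E D.N - p0 * (D.N 0 0 + D.N 1 1) - 2 * p1 * de D.N) -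
    m * v 4 * ln (ad D.B) D.γ v -
    v 5 * (m * ln (ad D.E) D.γ v - p0 * ln on D.γ v - p1 * ln (ad D.N) D.γ v) -
    v 5 * (m * ln (ad D.N) D.δ v - p1 * ln (ad D.N) D.γ v) +
    m * bl (cNB D) v v)

theorem A1_eq (m p0 p1 : F) (v : Fin 6 → F) : A1 D m p0 p1 v = D.hA1 m p0 p1 v := by
  unfold A1 cNB Dat.hA1
  simp only [on_eq, de_eq, ad_eq, mu_eq, su_eq, pow_two]

/-- `D.rho` -/
def rho (v : Fin 6 → F) : F := v 4 * ln (ad D.B) D.γ v - bl (cNB D) v v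

theorem rho_eq (v : Fin 6 → F) : rho D v = D.rho v := by
  unfold rho cNB Dat.rho
  simp only [ad_eq, mu_eq, su_eq]

end

/-- equality of tables -/
def Eq2 {F : Type} {k l : ℕ} (f g : Fin k → Fin l → F) : Prop := ∀ i j, f i j = g i j

instance decEq2 {F : Type} [DecidableEq F] {k l : ℕ} (f g : Fin k → Fin l → F) :
    Decidable (Eq2 f g) := inferInstanceAs (Decidable (∀ i j, f i j = g i j))

/-- equality of matrices -/
def EqM {F : Type} {k l : ℕ} (f g : Matrix (Fin k) (Fin l) F) : Prop := Eq2 f g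

instance decEqM {F : Type} [DecidableEq F] {k l : ℕ} (f g : Matrix (Fin k) (Fin l) F) :
    Decidable (EqM f g) := decEq2 (F := F) (k := k) (l := l) f g

/-- The intermediate values. -/
structure GC (F : Type) where
  c : Fin 2 → F
  s : F
  m : F
  n : F
  z : M2 F
  w1 : M2 F
  w2 : M2 F
  h1 : Fin 3 → Fin 6 → F
  h2 : Fin 3 → Fin 6 → F
  M : Matrix (Fin 3) (Fin 3) F
  N : Matrix (Fin 3) (Fin 3) F
  y : Fin 3 → F
  p : Fin 6 → F
  q : Fin 6 → F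
  f1 : F
  f2 : F
  v : Fin 6 → F
  e0 : Fin 6 → F
  e1 : Fin 6 → F
  e2 : Fin 6 → F
  mm : F
  p0 : F
  p1 : F
  M0 : F
  M1 : F

section

variable {F : Type} [CommRing F] (D : Dat F) (g : GC F)

/-- `M z` -/
def mv3 (M : Matrix (Fin 3) (Fin 3) F) (z : Fin 3 → F) : Fin 3 → F :=
  ![M 0 0 * z 0 + M 0 1 * z 1 + M 0 2 * z 2, M 1 0 * z 0 + M 1 1 * z 1 + M 1 2 * z 2,
    M 2 0 * z 0 + M 2 1 * z 1 + M 2 2 * z 2]

theorem mv3_eq (M : Matrix (Fin 3) (Fin 3) F) (z : Fin 3 → F) : mv3 M z = M *ᵥ z := by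
  funext i
  fin_cases i <;> simp [mv3, mulVec, dotProduct, Fin.sum_univ_three]

/-- the determinant -/
def de3 (M : Matrix (Fin 3) (Fin 3) F) : F :=
  M 0 0 * M 1 1 * M 2 2 - M 0 0 * M 1 2 * M 2 1 - M 0 1 * M 1 0 * M 2 2 + M 0 1 * M 1 2 * M 2 0 +
    M 0 2 * M 1 0 * M 2 1 - M 0 2 * M 1 1 * M 2 0

theorem de3_eq (M : Matrix (Fin 3) (Fin 3) F) : de3 M = M.det := (det_fin_three M).symm

/-- the resultant, `res` -/
def rs (M N : Matrix (Fin 3) (Fin 3) F) : F :=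
  let a := N 0 1 * N 1 2 - N 0 2 * N 1 1
  let b := M 0 1 * M 2 2 - M 0 2 * M 2 1
  let a' := M 0 1 * M 1 2 - M 0 2 * M 1 1
  let b' := N 0 1 * N 2 2 - N 0 2 * N 2 1
  let x := N 0 2 * M 2 1 + M 0 2 * N 2 1 - N 0 1 * M 2 2 - M 0 1 * N 2 2
  let y := N 0 2 * M 1 1 + M 0 2 * N 1 1 - N 0 1 * M 1 2 - M 0 1 * N 1 2
  (a * b - a' * b') * (a * b - a' * b') - (a * x - y * b') * (y * b - a' * x)

theorem rs_eq (M N : Matrix (Fin 3) (Fin 3) F) : rs M N = res M N := by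
  unfold rs res
  ring

/-- The test. -/
structure GC.Ok : Prop where
  z : EqM (Z D g.c) g.z
  s : g.s * g.s = mix D.B g.z * mix D.B g.z - 4 * de D.B * de g.z
  B : de D.B ≠ 0
  w1 : EqM (W D g.z g.s) g.w1
  w2 : EqM (W D g.z (-g.s)) g.w2
  w : g.w1 0 0 ≠ 0
  h1 : Eq2 (hv D g.z g.w1 (fun i => D.δ i - g.c 1 * D.γ i) g.s) g.h1
  h2 : Eq2 (hv D g.z g.w2 (fun i => D.δ i - g.c 1 * D.γ i) (-g.s)) g.h2
  M : EqM (Matrix.of fun j i => wx (g.h1 i) (g.h2 j)) g.M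
  N : EqM (Matrix.of fun j i => tau D g.c (g.h1 i) (g.h2 j)) g.N
  dM : de3 g.M ≠ 0
  rM : rs g.M g.N ≠ 0
  y : ∀ i, crs (mv3 g.M ![1, g.m, g.n]) (mv3 g.N ![1, g.m, g.n]) i = g.y i
  p : ∀ i, g.h1 0 i + g.m * g.h1 1 i + g.n * g.h1 2 i = g.p i
  q : ∀ i, g.y 0 * g.h2 0 i + g.y 1 * g.h2 1 i + g.y 2 * g.h2 2 i = g.q i
  f1 : f21 D (cNB D) (cEB D) (cX D) g.q g.p = g.f1
  f2 : f21 D (cNB D) (cEB D) (cX D) g.p g.q = g.f2
  v : ∀ i, g.f1 * g.p i - g.f2 * g.q i = g.v i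
  e0 : ∀ i, GZ.e0 D (ew' D (mu (ad D.B) D.E) (mu D.E (ad D.B)) (cEB D) D.δ g.v) g.v i = g.e0 i
  e1 : ∀ i, GZ.e1 D g.v i = g.e1 i
  e2 : ∀ i, GZ.e2 D g.v i = g.e2 i
  mm : g.e1 0 * g.e2 1 - g.e1 1 * g.e2 0 = g.mm
  p0 : g.e0 0 * g.e2 1 - g.e0 1 * g.e2 0 = g.p0
  p1 : g.e1 0 * g.e0 1 - g.e1 1 * g.e0 0 = g.p1
  M0 : g.v 5 * (g.mm * tau0 D g.v g.e1 + g.p0 * ta D g.v g.e1 + g.p1 * tb D g.v g.e1) -
    rho D g.v * A0 D g.mm g.p0 g.p1 g.v = g.M0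
  M1 : g.v 5 * (g.mm * tau0 D g.v g.e2 + g.p0 * ta D g.v g.e2 + g.p1 * tb D g.v g.e2) -
    rho D g.v * A1 D g.mm g.p0 g.p1 g.v = g.M1
  P : g.v 5 * (g.mm * (lam D g.v g.M1 (-g.M0) * bl (cNB D) g.v g.v)) ≠ 0

variable {D g}

theorem GC.Ok.good (h : g.Ok D) : Good D := by
  have hz : D.Z g.c = g.z := by
    rw [← Z_eq]
    ext i j
    exact h.z i j
  have hχ : D.χ g.c = fun i => D.δ i - g.c 1 * D.γ i := rfl
  have hw1 : WW D g.c g.s = g.w1 := by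
    rw [← W_eq, hz]
    ext i j
    exact h.w1 i j
  have hw2 : WW D g.c (-g.s) = g.w2 := by
    rw [← W_eq, hz]
    ext i j
    exact h.w2 i j
  have hh1 : hh D g.c g.s = g.h1 := by
    rw [← hv_eq, hz, hw1, hχ]
    funext i j
    exact h.h1 i j
  have hh2 : hh D g.c (-g.s) = g.h2 := by
    rw [← hv_eq, hz, hw2, hχ]
    funext i j
    exact h.h2 i j
  have hM : MM D g.c g.s = g.M := by
    ext j i
    have h1 : wx (g.h1 i) (g.h2 j) = g.M j i := h.M j i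
    rw [← h1, wx_eq, MM, hh1, hh2]
  have hN : NN D g.c g.s = g.N := by
    ext j i
    have h1 : tau D g.c (g.h1 i) (g.h2 j) = g.N j i := h.N j i
    rw [← h1, tau_eq, NN, hh1, hh2]
  have hp : pp D g.c g.s ![1, g.m, g.n] = g.p := by
    funext i
    rw [← h.p i, pp, hh1]
    simp
  have hy : Phi D g.c g.s ![1, g.m, g.n] = g.y := by
    funext i
    rw [← h.y i, Phi, hM, hN, mv3_eq, mv3_eq]
  have hq : qq D g.c g.s ![1, g.m, g.n] = g.q := by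
    funext i
    rw [← h.q i, qq, hy, pp, hh2]
  have hv : v3 D g.c g.s ![1, g.m, g.n] = g.v := by
    funext i
    rw [← h.v i, v3, hp, hq, ← f21_eq, ← f21_eq, h.f1, h.f2]
  have he0 : D.e0 g.v = g.e0 := by
    funext i
    rw [← e0_eq, h.e0 i]
  have he1 : D.e1 g.v = g.e1 := by
    funext i
    rw [← e1_eq, h.e1 i]
  have he2 : D.e2 g.v = g.e2 := by
    funext i
    rw [← e2_eq, h.e2 i]
  have hm : D.m g.v = g.mm := by rw [Dat.m, he1, he2, h.mm]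
  have hp0 : D.p0 g.v = g.p0 := by rw [Dat.p0, he0, he2, h.p0]
  have hp1 : D.p1 g.v = g.p1 := by rw [Dat.p1, he1, he0, h.p1]
  have hM0 : D.hM0 g.v = g.M0 := by
    rw [Dat.hM0, hm, hp0, hp1, he1, ← tau0_eq, ← ta_eq, ← tb_eq, ← rho_eq, ← A0_eq, h.M0]
  have hM1 : D.hM1 g.v = g.M1 := by
    rw [Dat.hM1, hm, hp0, hp1, he2, ← tau0_eq, ← ta_eq, ← tb_eq, ← rho_eq, ← A1_eq, h.M1]
  refine ⟨g.c, g.s, g.m, g.n, ?_, ?_, ?_, ?_, ?_, ?_⟩
  · rw [Dat.s2, disc, hz, ← de_eq, ← de_eq, pow_two, pow_two, h.s]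
  · rw [← de_eq]
    exact h.B
  · rw [hw1]
    exact h.w
  · rw [hM, ← de3_eq]
    exact h.dM
  · rw [hM, hN, ← rs_eq]
    exact h.rM
  · have h1 := h.P
    rw [hv, Dat.NDegH, Dat.hP, hm, hM0, hM1, ← lam_eq, ← mu_eq, ← mu_eq, ← su_eq]
    exact h1

end

end GZ

/-- extension of scalars -/
theorem good_map {F F' : Type} [CommRing F] [CommRing F'] (f : F →+* F')
    (hf : Function.Injective f) {D : Dat F} (h : Good D) : Good (D.map f) := by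
  obtain ⟨c, s, m, n, h1, h2, h3, h4, h5, h6⟩ := h
  have hne : ∀ {a : F}, a ≠ 0 → f a ≠ 0 := fun ha h0 => ha ((map_eq_zero_iff f hf).1 h0)
  refine ⟨fun i => f (c i), f s, f m, f n, ?_, ?_, ?_, ?_, ?_, ?_⟩
  · rw [map_s2, ← h1, map_pow]
  · change (D.B.map f).det ≠ 0
    rw [map_det']
    exact hne h2
  · rw [map_WW]
    exact hne h3
  · rw [map_MM, map_det3]
    exact hne h4
  · rw [map_MM, map_NN, map_res]
    exact hne h5
  · have h7 : (![1, f m, f n] : Fin 3 → F') = fun i => f ((![1, m, n] : Fin 3 → F) i) := by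
      funext i
      fin_cases i <;> simp
    rw [h7, map_v3, Dat.NDegH, Dat.map_hP]
    exact hne h6

/-- `N` is not a square of an integer if it is between two consecutive squares -/
theorem good_of {D : Dat ℤ} {N : ℤ} (hN : ∀ n : ℤ, N ≠ n * n) {g : GZ.GC (ℤ√N)}
    (h : g.Ok (D.map (Int.castRingHom (ℤ√N)))) : Good (D.map (Int.castRingHom ℂ)) := by
  obtain ⟨r, hr⟩ := IsAlgClosed.exists_pow_nat_eq (N : ℂ) two_pos
  have hr' : r * r = (N : ℂ) := by rw [← pow_two, hr]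
  have h1 := good_map (Zsqrtd.lift ⟨r, hr'⟩) (Zsqrtd.lift_injective ⟨r, hr'⟩ hN) h.good
  have h2 : (D.map (Int.castRingHom (ℤ√N))).map (Zsqrtd.lift ⟨r, hr'⟩) =
      D.map (Int.castRingHom ℂ) := by
    have h3 : ∀ z : ℤ, Zsqrtd.lift ⟨r, hr'⟩ (Int.castRingHom (ℤ√N) z) = Int.castRingHom ℂ z :=
      fun z => map_intCast _ z
    have h4 : ∀ M : Matrix (Fin 2) (Fin 2) ℤ,
        (M.map (Int.castRingHom (ℤ√N))).map (Zsqrtd.lift ⟨r, hr'⟩) = M.map (Int.castRingHom ℂ) := by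
      intro M
      ext i j
      exact h3 _
    have h5 : (D.t.map (Int.castRingHom (ℤ√N))).map (Zsqrtd.lift ⟨r, hr'⟩) =
        D.t.map (Int.castRingHom ℂ) := by
      ext i j
      exact h3 _
    unfold Dat.map
    simp only [h4, h5, h3]
  rwa [h2] at h1

/-- `B`, `E`, `1`, `N` are linearly independent -/
theorem li_of {D : Dat ℤ}
    (h : GZ.de3 !![D.B 0 0 - D.B 1 1, D.B 0 1, D.B 1 0; D.E 0 0 - D.E 1 1, D.E 0 1, D.E 1 0;
      D.N 0 0 - D.N 1 1, D.N 0 1, D.N 1 0] ≠ 0) :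
    LinearIndependent ℂ ![(D.map (Int.castRingHom ℂ)).B, (D.map (Int.castRingHom ℂ)).E, 1,
      (D.map (Int.castRingHom ℂ)).N] := by
  rw [GZ.de3_eq] at h
  set M : Matrix (Fin 3) (Fin 3) ℤ := !![D.B 0 0 - D.B 1 1, D.B 0 1, D.B 1 0;
    D.E 0 0 - D.E 1 1, D.E 0 1, D.E 1 0; D.N 0 0 - D.N 1 1, D.N 0 1, D.N 1 0] with hM
  have hdet : ((Int.castRingHom ℂ).mapMatrix M).det ≠ 0 := by
    rw [← RingHom.map_det]
    intro h0
    have h1 : ((M.det : ℤ) : ℂ) = 0 := h0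
    exact h (by exact_mod_cast h1)
  rw [Fintype.linearIndependent_iff]
  intro g hg
  simp only [Fin.sum_univ_four, Matrix.cons_val, Fin.isValue] at hg
  have h00 := congrFun (congrFun hg 0) 0
  have h01 := congrFun (congrFun hg 0) 1
  have h10 := congrFun (congrFun hg 1) 0
  have h11 := congrFun (congrFun hg 1) 1
  simp [Dat.map] at h00 h01 h10 h11
  have h1 : ![g 0, g 1, g 3] ᵥ* ((Int.castRingHom ℂ).mapMatrix M) = 0 := by
    funext i
    fin_cases i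
    · simp [vecMul, dotProduct, Fin.sum_univ_three, hM]
      linear_combination h00 - h11
    · simp [vecMul, dotProduct, Fin.sum_univ_three, hM]
      linear_combination h01
    · simp [vecMul, dotProduct, Fin.sum_univ_three, hM]
      linear_combination h10
  have h2 := Matrix.eq_zero_of_vecMul_eq_zero hdet h1
  have g0 : g 0 = 0 := congrFun h2 0
  have g1 : g 1 = 0 := congrFun h2 1
  have g3 : g 3 = 0 := congrFun h2 2
  have g2 : g 2 = 0 := by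
    rw [g0, g1, g3] at h00
    simpa using h00
  intro i
  fin_cases i
  · exact g0
  · exact g1
  · exact g2
  · exact g3

end Pool.Agent.GSE
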