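import Mathlib

/-!
# GSE: a test for identities modulo `p` between polynomials in several variables

`NP n`: polynomials in `n` variables with coefficients in `ℤ`, as nested lists. `NP.cert`: if the
test `NP.chk` is true then the polynomials `q_j` have no common zero in a field of characteristic
`p` (`∑ c_j q_j = 1` modulo `p`).
-/

set_option autoImplicit false

namespace Pool.Agent.GSE

section

variable {α : Type}

/-- addition of lists -/
def addL (f : α → α → α) : List α → List α → List α
  | [], l => l
  | a :: l, [] => a :: l
  | a :: l, b :: l' => f a b :: addL f l l'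

/-- multiplication of polynomials given by lists of coefficients -/
def mulL (z : α) (f g : α → α → α) : List α → List α → List α
  | [], _ => []
  | a :: l, b => addL f (b.map (g a)) (z :: mulL z f g l b)

/-- value of a polynomial given by the list of its coefficients -/
def evL {R : Type} [CommRing R] (x : R) (e : α → R) : List α → R
  | [] => 0
  | a :: l => e a + x * evL x e l

variable {R : Type} [CommRing R] (x : R) (e : α → R)

theorem evL_addL {f : α → α → α} (hf : ∀ a b, e (f a b) = e a + e b) (l l' : List α) :
    evL x e (addL f l l') = evL x e l + evL x e l' := by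
  induction l generalizing l' with
  | nil => simp [addL, evL]
  | cons a l ih =>
    cases l' with
    | nil => simp [addL, evL]
    | cons b l' =>
      simp only [addL, evL, hf, ih]
      ring

theorem evL_map {g : α → α} {c : R} (hg : ∀ b, e (g b) = c * e b) (l : List α) :
    evL x e (l.map g) = c * evL x e l := by
  induction l with
  | nil => simp [evL]
  | cons a l ih =>
    simp only [List.map_cons, evL, hg, ih]
    ring

theorem evL_mulL {z : α} {f g : α → α → α} (hz : e z = 0) (hf : ∀ a b, e (f a b) = e a + e b)
    (hg : ∀ a b, e (g a b) = e a * e b) (l l' : List α) :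
    evL x e (mulL z f g l l') = evL x e l * evL x e l' := by
  induction l with
  | nil => simp [mulL, evL]
  | cons a l ih =>
    rw [mulL, evL_addL x e hf, evL_map x e (hg a), evL, ih, hz, evL]
    ring

end

/-- polynomials in `n` variables with coefficients in `ℤ` -/
def NP : ℕ → Type
  | 0 => ℤ
  | n + 1 => List (NP n)

namespace NP

/-- zero -/
def zero : (n : ℕ) → NP n
  | 0 => (0 : ℤ)
  | _ + 1 => ([] : List _)

/-- constants -/
def const (c : ℤ) : (n : ℕ) → NP n
  | 0 => c
  | n + 1 => ([const c n] : List _)

/-- addition -/
def add : (n : ℕ) → NP n → NP n → NP n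
  | 0 => Int.add
  | n + 1 => addL (add n)

/-- multiplication -/
def mul : (n : ℕ) → NP n → NP n → NP n
  | 0 => Int.mul
  | n + 1 => mulL (zero n) (add n) (mul n)

/-- all coefficients are divisible by `p` -/
def dvd (p : ℕ) : (n : ℕ) → NP n → Bool
  | 0 => fun c => Nat.beq (Nat.mod (Int.natAbs c) p) 0
  | n + 1 => fun l => List.all l (dvd p n)

/-- variables: `x j` for `j < n`, `1` for `j = n`, `0` for `j > n` -/
def v (j : ℕ) : (n : ℕ) → NP n
  | 0 => if j = 0 then (1 : ℤ) else (0 : ℤ)
  | n + 1 => if j = n + 1 then const 1 (n + 1) else if j = n then ([zero n, const 1 n] : List _)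
      else if n < j then zero (n + 1) else ([v j n] : List _)

/-- the value -/
def ev {R : Type} [CommRing R] (x : ℕ → R) : (n : ℕ) → NP n → R
  | 0 => fun c => Int.cast (R := R) (show ℤ from c)
  | n + 1 => fun l => evL (x n) (ev x n) l

variable {R : Type} [CommRing R] (x : ℕ → R)

theorem ev_zero (n : ℕ) : ev x n (zero n) = 0 := by
  cases n with
  | zero => exact Int.cast_zero (R := R)
  | succ n => rfl

theorem ev_const (c : ℤ) (n : ℕ) : ev x n (const c n) = c := by
  induction n with
  | zero => rfl
  | succ n ih =>
    show ev x n (const c n) + x n * 0 = c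
    rw [ih, mul_zero, add_zero]

theorem ev_add (n : ℕ) (a b : NP n) : ev x n (add n a b) = ev x n a + ev x n b := by
  induction n with
  | zero => exact Int.cast_add (R := R) _ _
  | succ n ih => exact evL_addL _ _ ih _ _

theorem ev_mul (n : ℕ) (a b : NP n) : ev x n (mul n a b) = ev x n a * ev x n b := by
  induction n with
  | zero => exact Int.cast_mul (α := R) _ _
  | succ n ih => exact evL_mulL _ _ (ev_zero x n) (ev_add x n) ih _ _

theorem ev_v (n j : ℕ) : ev x n (v j n) = if j < n then x j else if j = n then 1 else 0 := by
  induction n with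
  | zero =>
    unfold v
    by_cases h : j = 0
    · rw [if_pos h, if_neg (by omega), if_pos h]
      exact Int.cast_one (R := R)
    · rw [if_neg h, if_neg (by omega), if_neg h]
      exact Int.cast_zero (R := R)
  | succ n ih =>
    unfold v
    by_cases h1 : j = n + 1
    · rw [if_pos h1, if_neg (by omega), if_pos h1, ev_const]
      exact Int.cast_one (R := R)
    · rw [if_neg h1]
      by_cases h2 : j = n
      · rw [if_pos h2, if_pos (by omega)]
        show ev x n (zero n) + x n * (ev x n (const 1 n) + x n * 0) = x j
        rw [ev_zero, ev_const, h2]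
        simp
      · rw [if_neg h2]
        by_cases h3 : n < j
        · rw [if_pos h3, if_neg (by omega), if_neg h1, ev_zero]
        · rw [if_neg h3, if_pos (by omega)]
          show ev x n (v j n) + x n * 0 = x j
          rw [ih, if_pos (by omega), mul_zero, add_zero]

theorem ev_dvd {p : ℕ} [CharP R p] (n : ℕ) (a : NP n) (h : dvd p n a = true) : ev x n a = 0 := by
  induction n with
  | zero =>
    have h1 : (show ℤ from a).natAbs % p = 0 := Nat.eq_of_beq_eq_true h
    refine (CharP.intCast_eq_zero_iff R p (show ℤ from a)).2 ?_
    exact Int.natCast_dvd.2 (Nat.dvd_of_mod_eq_zero h1)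
  | succ n ih =>
    have h1 : ∀ b ∈ (show List (NP n) from a), dvd p n b = true := List.all_eq_true.1 h
    show evL (x n) (ev x n) (show List (NP n) from a) = 0
    generalize (show List (NP n) from a) = l at h1
    induction l with
    | nil => rfl
    | cons b l ihl =>
      rw [evL, ih b (h1 b (by simp)), ihl fun c hc => h1 c (by simp [hc])]
      simp

/-- `∑ c_j q_j` -/
def dot (n : ℕ) : List (NP n × NP n) → NP n
  | [] => zero n
  | a :: l => add n (mul n a.1 a.2) (dot n l)

theorem ev_dot (n : ℕ) (l : List (NP n × NP n)) (h : ∀ a ∈ l, ev x n a.2 = 0) :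
    ev x n (dot n l) = 0 := by
  induction l with
  | nil => exact ev_zero x n
  | cons a l ih =>
    rw [dot, ev_add, ev_mul, h a (by simp), ih fun b hb => h b (by simp [hb])]
    simp

/-- the test: `∑ c_j q_j - 1` is divisible by `p` -/
def chk (p n : ℕ) (l : List (NP n × NP n)) : Bool :=
  dvd p n (add n (const (-1) n) (dot n l))

theorem cert {F : Type} [Field F] {p : ℕ} [CharP F p] {n : ℕ}
    {l : List (NP n × NP n)} (h : chk p n l = true) (x : ℕ → F) (h0 : ∀ a ∈ l, ev x n a.2 = 0) :
    False := by
  have h1 := ev_dvd (p := p) x n _ h
  rw [ev_add, ev_const, ev_dot x n l h0, add_zero] at h1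
  simp at h1

end NP

end Pool.Agent.GSE
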