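import Pool.Agent.GSE.Red
import Pool.Agent.GSE.Np
import Pool.Agent.GSX.Cub

/-!
# GSE: smoothness of the cubic of a pair of symmetric matrices with integer coefficients

`dF`: the partial derivatives. `psmooth`: if they have no common zero, apart from `0`, over fields
of characteristic `p`, then the cubic is smooth over `ℂ`. `psmooth_of_chk`: the same with
certificates for the six charts `v n = 1`, `v j = 0` for `j > n`, to be checked by the kernel.
-/

set_option autoImplicit false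

noncomputable section

namespace Pool.Agent.GSE

open MvPolynomial Matrix GSX

section

variable {R : Type} [CommRing R] (D : Cub ℤ) (v : Fin 6 → R)

/-- the values of the entries of `A` -/
def va (i : Fin 3) : R := ∑ k, (D.a k i : R) * v k

/-- the values of the entries of `B` -/
def vb (i : Fin 3) : R := ∑ k, (D.b k i : R) * v k

/-- the last part of the partial derivatives of the cubic -/
def dF4 : Fin 6 → R :=
  ![0, 2 * va D v 2 * v 1 - 2 * va D v 1 * v 2, -(2 * va D v 1 * v 1) + 2 * va D v 0 * v 2,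
    -(2 * vb D v 2 * v 3) + 2 * vb D v 1 * v 4, 2 * vb D v 1 * v 3 - 2 * vb D v 0 * v 4,
    (va D v 0 * va D v 2 - va D v 1 ^ 2) - (vb D v 0 * vb D v 2 - vb D v 1 ^ 2)]

/-- the partial derivatives of the cubic -/
def dF (k : Fin 6) : R :=
  ((D.a k 2 : R) * v 1 ^ 2 - 2 * (D.a k 1 : R) * (v 1 * v 2) + (D.a k 0 : R) * v 2 ^ 2) -
    ((D.b k 2 : R) * v 3 ^ 2 - 2 * (D.b k 1 : R) * (v 3 * v 4) + (D.b k 0 : R) * v 4 ^ 2) +
    v 5 * ((D.a k 0 : R) * va D v 2 + va D v 0 * (D.a k 2 : R) - 2 * va D v 1 * (D.a k 1 : R) -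
      ((D.b k 0 : R) * vb D v 2 + vb D v 0 * (D.b k 2 : R) - 2 * vb D v 1 * (D.b k 1 : R))) +
    dF4 D v k

/-- linear forms over `ℤ` -/
def linZ (c : Fin 6 → ℤ) : MvPolynomial (Fin 6) ℤ := ∑ k, C (c k) * X k

/-- the cubic form over `ℤ` -/
def FZ : MvPolynomial (Fin 6) ℤ :=
  (linZ (fun k => D.a k 2) * X 1 ^ 2 - 2 * linZ (fun k => D.a k 1) * (X 1 * X 2) +
      linZ (fun k => D.a k 0) * X 2 ^ 2) -
    (linZ (fun k => D.b k 2) * X 3 ^ 2 - 2 * linZ (fun k => D.b k 1) * (X 3 * X 4) +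
      linZ (fun k => D.b k 0) * X 4 ^ 2) +
    X 5 * ((linZ (fun k => D.a k 0) * linZ (fun k => D.a k 2) - linZ (fun k => D.a k 1) ^ 2) -
      (linZ (fun k => D.b k 0) * linZ (fun k => D.b k 2) - linZ (fun k => D.b k 1) ^ 2))

theorem map_linZ (c : Fin 6 → ℤ) :
    map (Int.castRingHom ℂ) (linZ c) = lin (fun k => ((c k : ℤ) : ℂ)) := by
  unfold linZ lin
  rw [map_sum]
  refine Finset.sum_congr rfl fun k _ => ?_
  rw [map_mul, map_C, map_X]
  rfl

theorem map_FZ : map (Int.castRingHom ℂ) (FZ D) = (D.map (Int.castRingHom ℂ)).F := by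
  unfold FZ Cub.F cubF Cub.A Cub.B
  simp only [map_add, map_sub, map_mul, map_pow, map_X, map_linZ, map_ofNat, Matrix.det_fin_two_of,
    Matrix.of_apply, Matrix.cons_val', Matrix.cons_val_zero, Matrix.cons_val_one,
    Matrix.cons_val_fin_one]
  simp only [Cub.map, Int.coe_castRingHom]
  ring

theorem hom_linZ (c : Fin 6 → ℤ) : (linZ c).IsHomogeneous 1 := by
  unfold linZ
  refine IsHomogeneous.sum _ _ _ fun k _ => ?_
  have := (isHomogeneous_C (Fin 6) (c k)).mul (isHomogeneous_X ℤ k)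
  simpa using this

theorem hom_FZ : (FZ D).IsHomogeneous 3 := by
  have hX : ∀ i : Fin 6, (X i : MvPolynomial (Fin 6) ℤ).IsHomogeneous 1 := isHomogeneous_X ℤ
  have h2 : ∀ a b c : MvPolynomial (Fin 6) ℤ, a.IsHomogeneous 1 → b.IsHomogeneous 1 →
      c.IsHomogeneous 1 → (a * (b * c)).IsHomogeneous 3 := fun a b c ha hb hc =>
    ha.mul (hb.mul hc)
  have h3 : ∀ a b c : MvPolynomial (Fin 6) ℤ, a.IsHomogeneous 1 → b.IsHomogeneous 1 →
      c.IsHomogeneous 1 → (2 * a * (b * c)).IsHomogeneous 3 := fun a b c ha hb hc => by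
    have h4 : (2 * a * (b * c)) = C 2 * (a * (b * c)) := by
      rw [show (C 2 : MvPolynomial (Fin 6) ℤ) = 2 from map_ofNat C 2]
      ring
    rw [h4]
    have := (isHomogeneous_C (Fin 6) (2 : ℤ)).mul (h2 a b c ha hb hc)
    simpa using this
  unfold FZ
  simp only [pow_two]
  refine (((((h2 _ _ _ (hom_linZ _) (hX _) (hX _)).sub (h3 _ _ _ (hom_linZ _) (hX _) (hX _))).add
    (h2 _ _ _ (hom_linZ _) (hX _) (hX _)))).sub
    (((h2 _ _ _ (hom_linZ _) (hX _) (hX _)).sub (h3 _ _ _ (hom_linZ _) (hX _) (hX _))).add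
    (h2 _ _ _ (hom_linZ _) (hX _) (hX _)))).add ?_
  exact (hX 5).mul ((((hom_linZ _).mul (hom_linZ _)).sub ((hom_linZ _).mul (hom_linZ _))).sub
    (((hom_linZ _).mul (hom_linZ _)).sub ((hom_linZ _).mul (hom_linZ _))))

theorem aeval_linZ (c : Fin 6 → ℤ) : aeval v (linZ c) = ∑ k, (c k : R) * v k := by
  unfold linZ
  rw [map_sum]
  refine Finset.sum_congr rfl fun k _ => ?_
  rw [map_mul, aeval_C, aeval_X]
  rfl

theorem pderiv_linZ (c : Fin 6 → ℤ) (k : Fin 6) : pderiv k (linZ c) = C (c k) := by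
  unfold linZ
  rw [map_sum, Finset.sum_eq_single k]
  · rw [Derivation.leibniz, pderiv_C, pderiv_X_self]
    simp
  · intro j _ hj
    rw [Derivation.leibniz, pderiv_C, pderiv_X_of_ne hj]
    simp
  · intro h
    exact absurd (Finset.mem_univ _) h

theorem aeval_pderiv (k : Fin 6) : aeval v (pderiv k (FZ D)) = dF D v k := by
  have h2 : ∀ k : Fin 6, pderiv k (2 : MvPolynomial (Fin 6) ℤ) = 0 := fun k => by
    rw [show (2 : MvPolynomial (Fin 6) ℤ) = C 2 from (map_ofNat C 2).symm, pderiv_C]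
  have hC : ∀ z : ℤ, aeval v (C z : MvPolynomial (Fin 6) ℤ) = (z : R) := fun z => by
    rw [aeval_C]
    rfl
  unfold FZ dF dF4 va vb
  simp only [map_add, map_sub, Derivation.leibniz, Derivation.leibniz_pow, pderiv_linZ, h2,
    smul_eq_mul, map_mul, map_pow, aeval_X, aeval_linZ, hC, add_zero, nsmul_eq_mul,
    map_natCast, map_ofNat, mul_zero]
  fin_cases k <;> simp [pderiv_X] <;> ring

end

/-- Smoothness of the cubic. -/
theorem psmooth (D : Cub ℤ) (p : ℕ) (hp : p.Prime) (h : ∀ (κ : Type) [Field κ] [CharP κ p]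
    (v : Fin 6 → κ), (∀ k, dF D v k = 0) → v = 0) :
    P28.PSmooth (D.map (Int.castRingHom ℂ)).F := by
  rw [← map_FZ]
  refine psmooth_of_red _ (hom_FZ D) p hp fun κ _ _ v hv => h κ v fun k => ?_
  rw [← aeval_pderiv]
  exact hv k

/-! ### The test -/

/-- sums -/
def sumN (n : ℕ) : List (NP n) → NP n
  | [] => NP.zero n
  | a :: l => NP.add n a (sumN n l)

/-- linear forms -/
def lcN (n : ℕ) (c : Fin 6 → ℤ) : NP n :=
  sumN n [NP.mul n (NP.const (c 0) n) (NP.v 0 n), NP.mul n (NP.const (c 1) n) (NP.v 1 n),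
    NP.mul n (NP.const (c 2) n) (NP.v 2 n), NP.mul n (NP.const (c 3) n) (NP.v 3 n),
    NP.mul n (NP.const (c 4) n) (NP.v 4 n), NP.mul n (NP.const (c 5) n) (NP.v 5 n)]

/-- a term `z * v i * v j` -/
def t2N (n : ℕ) (z : ℤ) (i j : ℕ) : NP n :=
  NP.mul n (NP.const z n) (NP.mul n (NP.v i n) (NP.v j n))

/-- a term `z * a * v j` -/
def t1N (n : ℕ) (z : ℤ) (a : NP n) (j : ℕ) : NP n :=
  NP.mul n (NP.const z n) (NP.mul n a (NP.v j n))

/-- the last part of the partial derivatives in the chart -/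
def t4N (D : Cub ℤ) (n : ℕ) : Fin 6 → NP n :=
  ![NP.zero n,
    NP.add n (t1N n 2 (lcN n fun j => D.a j 2) 1) (t1N n (-2) (lcN n fun j => D.a j 1) 2),
    NP.add n (t1N n (-2) (lcN n fun j => D.a j 1) 1) (t1N n 2 (lcN n fun j => D.a j 0) 2),
    NP.add n (t1N n (-2) (lcN n fun j => D.b j 2) 3) (t1N n 2 (lcN n fun j => D.b j 1) 4),
    NP.add n (t1N n 2 (lcN n fun j => D.b j 1) 3) (t1N n (-2) (lcN n fun j => D.b j 0) 4),
    sumN n [NP.mul n (lcN n fun j => D.a j 0) (lcN n fun j => D.a j 2),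
      NP.mul n (NP.const (-1) n) (NP.mul n (lcN n fun j => D.a j 1) (lcN n fun j => D.a j 1)),
      NP.mul n (NP.const (-1) n) (NP.mul n (lcN n fun j => D.b j 0) (lcN n fun j => D.b j 2)),
      NP.mul n (lcN n fun j => D.b j 1) (lcN n fun j => D.b j 1)]]

/-- the partial derivatives in the chart -/
def dFN (D : Cub ℤ) (n : ℕ) (k : Fin 6) : NP n :=
  sumN n [t2N n (D.a k 2) 1 1, t2N n (-2 * D.a k 1) 1 2, t2N n (D.a k 0) 2 2,
    t2N n (-D.b k 2) 3 3, t2N n (2 * D.b k 1) 3 4, t2N n (-D.b k 0) 4 4,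
    NP.mul n (NP.v 5 n) (lcN n fun j => D.a k 0 * D.a j 2 + D.a k 2 * D.a j 0 -
      2 * D.a k 1 * D.a j 1 - (D.b k 0 * D.b j 2 + D.b k 2 * D.b j 0 - 2 * D.b k 1 * D.b j 1)),
    t4N D n k]

section

variable {R : Type} [CommRing R] (x : ℕ → R)

/-- the point of the chart -/
def pt (n : ℕ) : Fin 6 → R := fun j => if j.val < n then x j.val else if j.val = n then 1 else 0

theorem ev_sumN (n : ℕ) (l : List (NP n)) : NP.ev x n (sumN n l) = (l.map (NP.ev x n)).sum := by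
  induction l with
  | nil => exact NP.ev_zero x n
  | cons a l ih => rw [sumN, NP.ev_add, ih, List.map_cons, List.sum_cons]

theorem ev_vN (n : ℕ) (j : Fin 6) : NP.ev x n (NP.v j.val n) = pt x n j := NP.ev_v x n j.val

theorem ev_lcN (n : ℕ) (c : Fin 6 → ℤ) :
    NP.ev x n (lcN n c) = ∑ k, (c k : R) * pt x n k := by
  have h0 : NP.ev x n (NP.v 0 n) = pt x n 0 := ev_vN x n 0
  have h1 : NP.ev x n (NP.v 1 n) = pt x n 1 := ev_vN x n 1
  have h2 : NP.ev x n (NP.v 2 n) = pt x n 2 := ev_vN x n 2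
  have h3 : NP.ev x n (NP.v 3 n) = pt x n 3 := ev_vN x n 3
  have h4 : NP.ev x n (NP.v 4 n) = pt x n 4 := ev_vN x n 4
  have h5 : NP.ev x n (NP.v 5 n) = pt x n 5 := ev_vN x n 5
  rw [lcN, ev_sumN, Fin.sum_univ_six]
  simp only [List.map_cons, List.map_nil, List.sum_cons, List.sum_nil, NP.ev_mul, NP.ev_const,
    h0, h1, h2, h3, h4, h5]
  ring

theorem ev_t4N (D : Cub ℤ) (n : ℕ) (k : Fin 6) :
    NP.ev x n (t4N D n k) = dF4 D (pt x n) k := by
  have h1 : NP.ev x n (NP.v 1 n) = pt x n 1 := ev_vN x n 1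
  have h2 : NP.ev x n (NP.v 2 n) = pt x n 2 := ev_vN x n 2
  have h3 : NP.ev x n (NP.v 3 n) = pt x n 3 := ev_vN x n 3
  have h4 : NP.ev x n (NP.v 4 n) = pt x n 4 := ev_vN x n 4
  have ha : ∀ i, (∑ j, (D.a j i : R) * pt x n j) = va D (pt x n) i := fun i => rfl
  have hb : ∀ i, (∑ j, (D.b j i : R) * pt x n j) = vb D (pt x n) i := fun i => rfl
  have hk : ∀ k : Fin 6, k = 0 ∨ k = 1 ∨ k = 2 ∨ k = 3 ∨ k = 4 ∨ k = 5 := by decide
  rcases hk k with rfl | rfl | rfl | rfl | rfl | rfl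
  · exact NP.ev_zero x n
  all_goals
    simp only [t4N, dF4, Matrix.cons_val, ev_sumN, List.map_cons, List.map_nil, List.sum_cons,
      List.sum_nil, NP.ev_mul, NP.ev_add, NP.ev_const, t1N, ev_lcN, h1, h2, h3, h4, ha, hb]
    push_cast
    ring

theorem ev_dFN (D : Cub ℤ) (n : ℕ) (k : Fin 6) :
    NP.ev x n (dFN D n k) = dF D (pt x n) k := by
  have h1 : NP.ev x n (NP.v 1 n) = pt x n 1 := ev_vN x n 1
  have h2 : NP.ev x n (NP.v 2 n) = pt x n 2 := ev_vN x n 2
  have h3 : NP.ev x n (NP.v 3 n) = pt x n 3 := ev_vN x n 3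
  have h4 : NP.ev x n (NP.v 4 n) = pt x n 4 := ev_vN x n 4
  have h5 : NP.ev x n (NP.v 5 n) = pt x n 5 := ev_vN x n 5
  have hv : (∑ j, ((D.a k 0 * D.a j 2 + D.a k 2 * D.a j 0 -
      2 * D.a k 1 * D.a j 1 - (D.b k 0 * D.b j 2 + D.b k 2 * D.b j 0 -
      2 * D.b k 1 * D.b j 1) : ℤ) : R) * pt x n j) =
      (D.a k 0 : R) * va D (pt x n) 2 + va D (pt x n) 0 * (D.a k 2 : R) -
        2 * va D (pt x n) 1 * (D.a k 1 : R) - ((D.b k 0 : R) * vb D (pt x n) 2 +
        vb D (pt x n) 0 * (D.b k 2 : R) - 2 * vb D (pt x n) 1 * (D.b k 1 : R)) := by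
    unfold va vb
    simp only [Fin.sum_univ_six]
    push_cast
    ring
  unfold dFN dF
  simp only [ev_sumN, List.map_cons, List.map_nil, List.sum_cons, List.sum_nil, NP.ev_mul,
    NP.ev_const, t2N, ev_lcN, ev_t4N, h1, h2, h3, h4, h5, hv]
  push_cast
  ring

theorem dF_smul (D : Cub ℤ) (c : R) (v : Fin 6 → R) (k : Fin 6) :
    dF D (fun j => c * v j) k = c ^ 2 * dF D v k := by
  have ha : ∀ i, va D (fun j => c * v j) i = c * va D v i := fun i => by
    unfold va
    rw [Finset.mul_sum]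
    exact Finset.sum_congr rfl fun j _ => by ring
  have hb : ∀ i, vb D (fun j => c * v j) i = c * vb D v i := fun i => by
    unfold vb
    rw [Finset.mul_sum]
    exact Finset.sum_congr rfl fun j _ => by ring
  unfold dF dF4
  simp only [ha, hb]
  fin_cases k <;> simp <;> ring

end

/-- the test in one chart -/
def chkN (D : Cub ℤ) (p n : ℕ) (c : Fin 6 → NP n) : Bool :=
  NP.chk p n [(c 0, dFN D n 0), (c 1, dFN D n 1), (c 2, dFN D n 2), (c 3, dFN D n 3),
    (c 4, dFN D n 4), (c 5, dFN D n 5)]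

/-- Smoothness of the cubic from certificates. -/
theorem psmooth_of_chk (D : Cub ℤ) (p : ℕ) (hp : p.Prime) (c : (n : ℕ) → Fin 6 → NP n)
    (h : ∀ n < 6, chkN D p n (c n) = true) : P28.PSmooth (D.map (Int.castRingHom ℂ)).F := by
  classical
  refine psmooth D p hp fun κ _ _ v hv => ?_
  by_contra hne
  have h1 : ∃ i, v i ≠ 0 := by
    by_contra hcon
    push Not at hcon
    exact hne (funext hcon)
  obtain ⟨n, hn, hmax⟩ := (Finset.univ.filter fun i : Fin 6 => v i ≠ 0).exists_max_image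
    (fun i => i) (by
      obtain ⟨i, hi⟩ := h1
      exact ⟨i, by simp [hi]⟩)
  have hn' : v n ≠ 0 := (Finset.mem_filter.1 hn).2
  have hz : ∀ j : Fin 6, n < j → v j = 0 := by
    intro j hj
    by_contra hj0
    exact absurd (hmax j (by simp [hj0])) (not_le.2 hj)
  set x : ℕ → κ := fun j => if hj : j < 6 then (v n)⁻¹ * v ⟨j, hj⟩ else 0 with hx
  have hpt : pt x n.val = fun j => (v n)⁻¹ * v j := by
    funext j
    unfold pt
    rcases lt_trichotomy j n with hj | hj | hj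
    · rw [if_pos (show j.val < n.val from hj), hx]
      simp
    · subst hj
      rw [if_neg (lt_irrefl _), if_pos rfl, inv_mul_cancel₀ hn']
    · have : n.val < j.val := hj
      rw [if_neg (by omega : ¬ j.val < n.val), if_neg (by omega : ¬ j.val = n.val), hz j hj,
        mul_zero]
  refine NP.cert (p := p) (h n.val n.isLt) x fun a ha => ?_
  have h3 : ∀ k, NP.ev x n.val (dFN D n.val k) = 0 := by
    intro k
    rw [ev_dFN, hpt, dF_smul, hv, mul_zero]
  simp only [List.mem_cons, List.not_mem_nil, or_false] at ha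
  rcases ha with rfl | rfl | rfl | rfl | rfl | rfl <;> exact h3 _

end Pool.Agent.GSE
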