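import Pool.Agent.GSE.Fld
import Pool.Agent.GSE.GoodZ
import Pool.Agent.GSE.Smooth
import Pool.Agent.GSE.DTree
import Pool.Agent.GSF.FinJ2

/-!
# GSE: the explicit form of the theorem

`rational_of`: a cubic with integer coefficients and a type O datum with integer coefficients: all
hypotheses of the theorem as tests.
-/

set_option autoImplicit false

noncomputable section

namespace Pool.Agent.GSE

open MvPolynomial Matrix Pool.Agent.GSH GSX Pool.Agent.GSD Pool.Agent.GSR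

/-- `NonDeg` -/
theorem nondeg_of {X : Cub ℤ}
    (h1 : X.a 0 0 * X.a 0 2 - X.a 0 1 * X.a 0 1 ≠ X.b 0 0 * X.b 0 2 - X.b 0 1 * X.b 0 1)
    (h2 : X.a 0 ≠ 0) (h3 : X.b 0 ≠ 0) : (X.map (Int.castRingHom ℂ)).NonDeg where
  det := by
    intro h
    apply h1
    have h4 : ((X.a 0 0 : ℤ) : ℂ) * (X.a 0 2 : ℤ) - ((X.a 0 1 : ℤ) : ℂ) ^ 2 =
        ((X.b 0 0 : ℤ) : ℂ) * (X.b 0 2 : ℤ) - ((X.b 0 1 : ℤ) : ℂ) ^ 2 := h
    rw [← pow_two, ← pow_two]
    exact_mod_cast h4
  a0 := by
    intro h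
    apply h2
    funext i
    have h4 : ((X.a 0 i : ℤ) : ℂ) = 0 := congrFun h i
    exact_mod_cast h4
  b0 := by
    intro h
    apply h3
    funext i
    have h4 : ((X.b 0 i : ℤ) : ℂ) = 0 := congrFun h i
    exact_mod_cast h4

/-- the parameters -/
def par (T : DT) : Fin 2 → KK := fun i => E.ev sK tK (T.n i) / E.ev sK tK T.dl

theorem rational_of {X : Cub ℤ} (hn : (X.map (Int.castRingHom ℂ)).NonDeg)
    (hirr : Irreducible (X.map (Int.castRingHom ℂ)).F)
    (hD2 : ¬ IsSquare (X.map (Int.castRingHom ℂ)).D2) {T : DT}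
    (hD : GSN.Good (T.D.map (Int.castRingHom ℂ)))
    (hli : LinearIndependent ℂ ![(T.D.map (Int.castRingHom ℂ)).B, (T.D.map (Int.castRingHom ℂ)).E,
      1, (T.D.map (Int.castRingHom ℂ)).N])
    (hdl : E.ev sK tK T.dl ≠ 0)
    (hc : IntermediateField.adjoin ℂ (Set.range (par T)) = ⊤)
    {J : Fin 8 → Fin 8 → E} (hJ : IsUnit (jm sK tK J).det)
    {den : Fin 8 → E} (hden : ∀ k, E.ev sK tK (den k) ≠ 0)
    {G : Fin 8 → Fin 9 → E} {B D : ℕ}
    (hchk : ∀ k, check B D (den k) J (T.tp.q k) (G k)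
      (nine (xh2 X).tp (xh2 X).d (xh2 X).nq) = true) :
    P28.Rational (X.map (Int.castRingHom ℂ)).F := by
  have hpen : (X.map (Int.castRingHom ℂ)).pen2 = ((xh2 X).herm sK tK).pen := by
    rw [Cub.pen2, map_cast, xh2_herm]
  have hdat : (T.D.map (Int.castRingHom ℂ)).map (algebraMap ℂ KK) = T.dat KK := by
    have h3 : ∀ z : ℤ, algebraMap ℂ KK (Int.castRingHom ℂ z) = Int.castRingHom KK z :=
      fun z => map_intCast _ z
    have h4 : ∀ M : Matrix (Fin 2) (Fin 2) ℤ,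
        (M.map (Int.castRingHom ℂ)).map (algebraMap ℂ KK) = M.map (Int.castRingHom KK) := by
      intro M
      ext i j
      exact h3 _
    have h5 : (T.D.t.map (Int.castRingHom ℂ)).map (algebraMap ℂ KK) =
        T.D.t.map (Int.castRingHom KK) := by
      ext i j
      exact h3 _
    unfold DT.dat Dat.map
    simp only [h4, h5, h3]
  have hD20 : ((xh2 X).herm sK tK).d ≠ 0 := by
    rw [xh2_herm, ← map_cast]
    intro h0
    exact hD2 (by
      rw [Cub.D2]
      change ((((X.map (Int.castRingHom ℂ)).map (algebraMap ℂ KK)).herm2 sK tK).d = 0) at h0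
      change ((X.map (Int.castRingHom ℂ)).map (algebraMap ℂ KK)).d2 sK tK = 0 at h0
      rw [h0]
      exact IsSquare.zero)
  refine GSF.linked_rational2 _ hn hirr hD2 _ hD hli hc (J := jm sK tK J) ⟨hJ, ?_⟩
  intro Ω _ _ w hw hu
  rw [hpen] at hw
  rw [hdat]
  have hpar : ∀ i, E.ev sK tK (T.n i) = E.ev sK tK T.dl * par T i := fun i => by
    rw [par, mul_div_cancel₀ _ hdl]
  have hnq := vm_nqT (xh2 X) sK tK
  rw [← hd_W]
  exact glue (HT.is (xh2 X) sK tK) hD20 rfl (by rw [hnq]) (dt_is T sK tK hpar hdl) hden hchk hw hu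

end Pool.Agent.GSE
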