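import Pool.Agent.P28.RDefs

/-!
# GSE: rationality does not depend on the coordinates

`rational_of_lin`: if `F(M x)` is rational for an invertible matrix `M`, then `F` is rational.
-/

set_option autoImplicit false

noncomputable section

namespace Pool.Agent.GSE

open MvPolynomial Matrix

/-- the linear forms with the coefficients given by the rows of a matrix -/
def lsub (M : Matrix (Fin 6) (Fin 6) ℂ) (i : Fin 6) : MvPolynomial (Fin 6) ℂ :=
  ∑ j, C (M i j) * X j

theorem lsub_hom (M : Matrix (Fin 6) (Fin 6) ℂ) (i : Fin 6) : (lsub M i).IsHomogeneous 1 := by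
  unfold lsub
  refine IsHomogeneous.sum _ _ _ fun j _ => ?_
  have h := (isHomogeneous_C (Fin 6) (M i j)).mul (isHomogeneous_X ℂ j)
  simpa using h

theorem bind_lsub {τ : Type} (M : Matrix (Fin 6) (Fin 6) ℂ) (f : Fin 6 → MvPolynomial τ ℂ)
    (i : Fin 6) : bind₁ f (lsub M i) = ∑ j, C (M i j) * f j := by
  simp [lsub, map_sum]

theorem sum_lsub (M N : Matrix (Fin 6) (Fin 6) ℂ) (h : M * N = 1) (i : Fin 6) :
    ∑ j, C (M i j) * lsub N j = X i := by
  have h1 : ∀ k, ∑ j, M i j * N j k = (1 : Matrix (Fin 6) (Fin 6) ℂ) i k := by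
    intro k
    rw [← h, Matrix.mul_apply]
  calc ∑ j, C (M i j) * lsub N j = ∑ j, ∑ k, C (M i j * N j k) * X k := by
        refine Finset.sum_congr rfl fun j _ => ?_
        rw [lsub, Finset.mul_sum]
        refine Finset.sum_congr rfl fun k _ => ?_
        rw [C_mul]
        ring
    _ = ∑ k, C (∑ j, M i j * N j k) * X k := by
        rw [Finset.sum_comm]
        refine Finset.sum_congr rfl fun k _ => ?_
        rw [map_sum, Finset.sum_mul]
    _ = X i := by
        rw [Finset.sum_congr rfl fun k _ => by rw [h1 k]]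
        rw [Finset.sum_eq_single i]
        · simp
        · intro k _ hk
          rw [Matrix.one_apply_ne (Ne.symm hk)]
          simp
        · simp

theorem bind_inv (M N : Matrix (Fin 6) (Fin 6) ℂ) (h : M * N = 1)
    (p : MvPolynomial (Fin 6) ℂ) : bind₁ (lsub N) (bind₁ (lsub M) p) = p := by
  rw [bind₁_bind₁]
  have : (fun i => bind₁ (lsub N) (lsub M i)) = (X : Fin 6 → MvPolynomial (Fin 6) ℂ) := by
    funext i
    rw [bind_lsub, sum_lsub M N h]
  rw [this]
  simp

/-- Rationality does not depend on the coordinates. -/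
theorem rational_of_lin {F : MvPolynomial (Fin 6) ℂ} (M N : Matrix (Fin 6) (Fin 6) ℂ)
    (h : M * N = 1) (hR : Pool.Agent.P28.Rational (bind₁ (lsub M) F)) :
    Pool.Agent.P28.Rational F := by
  have h' : N * M = 1 := mul_eq_one_comm.1 h
  obtain ⟨d, e, phi, psi, g, k, hphi, hpsi, hg, hk, h0, h1, h2⟩ := hR
  have hb : ∀ i, bind₁ (fun i => bind₁ phi (lsub M i)) (lsub N i) = phi i := by
    intro i
    have := congrArg (bind₁ phi) (bind_inv N M h' (X i))
    rw [bind₁_X_right, bind₁_X_right, bind₁_bind₁] at this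
    rw [this]
  refine ⟨d, e, fun i => bind₁ phi (lsub M i), fun j => bind₁ (lsub N) (psi j), g,
    bind₁ (lsub N) k, ?_, ?_, hg, ?_, ?_, ?_, ?_⟩
  · intro i
    show (bind₁ phi (lsub M i)).IsHomogeneous d
    rw [bind_lsub]
    refine IsHomogeneous.sum _ _ _ fun j _ => ?_
    have := (isHomogeneous_C (Fin 5) (M i j)).mul (hphi j)
    rwa [zero_add] at this
  · intro j
    show (bind₁ (lsub N) (psi j)).IsHomogeneous e
    have := (hpsi j).aeval (lsub N) (lsub_hom N)
    rw [one_mul] at this
    exact this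
  · intro hd
    apply hk
    have := map_dvd (bind₁ (lsub M)) hd
    rwa [bind_inv N M h'] at this
  · rw [← bind₁_bind₁]
    exact h0
  · intro j
    rw [bind₁_bind₁]
    have : (fun i => bind₁ (fun i => bind₁ phi (lsub M i)) (lsub N i)) = phi := funext hb
    rw [this]
    exact h1 j
  · intro i
    have h3 : ∀ j, F ∣ bind₁ (lsub N) (bind₁ psi (phi j)) - bind₁ (lsub N) k * lsub N j := by
      intro j
      have := map_dvd (bind₁ (lsub N)) (h2 j)
      rw [bind_inv M N h, map_sub, map_mul, bind₁_X_right] at this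
      exact this
    have h4 : bind₁ (fun j => bind₁ (lsub N) (psi j)) (bind₁ phi (lsub M i)) -
        bind₁ (lsub N) k * X i = ∑ j, C (M i j) *
          (bind₁ (lsub N) (bind₁ psi (phi j)) - bind₁ (lsub N) k * lsub N j) := by
      rw [← sum_lsub M N h i, bind_lsub, map_sum, Finset.mul_sum, ← Finset.sum_sub_distrib]
      refine Finset.sum_congr rfl fun j _ => ?_
      rw [map_mul, bind₁_C_right, bind₁_bind₁]
      ring
    rw [h4]
    exact Finset.dvd_sum fun j _ => Dvd.dvd.mul_left (h3 j) _

end Pool.Agent.GSE
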