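import Pool.Agent.GSX.HermW

/-!
# GSE: the norm quadric of a pencil of hermitian forms

For a pencil `(B 0, B 1)` of hermitian forms on `L ^ 3` the points `(ξ, u)`, `u ≠ 0`, of the cone
`W` satisfy a ninth quadratic equation `N(ξ) = - uᵀ (B 1 adj(B 0) B 1) ū` (`norm_eq`).
-/

set_option autoImplicit false

noncomputable section

namespace Pool.Agent.GSE

open Matrix Pool.Agent.GSH Pool.Agent.GSX

section Vec

variable {F : Type} [CommRing F]

theorem adj_cross (B0 B1 : Matrix (Fin 3) (Fin 3) F) (u : Fin 3 → F) :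
    B0 *ᵥ ((B0ᵀ *ᵥ u) ⨯₃ (B1ᵀ *ᵥ u)) = u ⨯₃ ((B1 * B0.adjugate)ᵀ *ᵥ u) := by
  funext i
  rw [adjugate_fin_three]
  fin_cases i <;>
    simp [mulVec, dotProduct, Fin.sum_univ_three, cross_apply, Matrix.mul_apply] <;> ring

theorem key (B0 B1 : Matrix (Fin 3) (Fin 3) F) (u v : Fin 3 → F) (a b : F)
    (h1 : (B0 *ᵥ v) ⨯₃ (B1 *ᵥ v) = b • u) (h2 : (B0ᵀ *ᵥ u) ⨯₃ (B1ᵀ *ᵥ u) = a • v)
    (h3 : u ⬝ᵥ (B1 *ᵥ v) = 0) :
    (a * b) • u = -(u ⬝ᵥ ((B1 * B0.adjugate * B1) *ᵥ v)) • u := by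
  have e1 : (a * b) • u = (B0 *ᵥ (a • v)) ⨯₃ (B1 *ᵥ v) := by
    rw [mulVec_smul, LinearMap.map_smul, LinearMap.smul_apply, h1, smul_smul]
  have e2 : ∀ x y z : Fin 3 → F, (x ⨯₃ y) ⨯₃ z = (x ⬝ᵥ z) • y - (y ⬝ᵥ z) • x := by
    intro x y z
    funext i
    fin_cases i <;> simp [cross_apply, dotProduct, Fin.sum_univ_three] <;> ring
  rw [e1, ← h2, adj_cross, e2, h3, zero_smul, zero_sub, neg_smul]
  congr 2
  rw [mulVec_transpose, ← dotProduct_mulVec, mulVec_mulVec]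

end Vec

variable {K Ω : Type} [Field K] [Field Ω] [Algebra K Ω]

/-- the symmetric part of `B j` -/
def pm (H : Herm K) (j : Fin 2) : Matrix (Fin 3) (Fin 3) K :=
  !![H.p j 0, H.p j 1, H.p j 2; H.p j 1, H.p j 3, H.p j 4; H.p j 2, H.p j 4, H.p j 5]

/-- the antisymmetric part of `B j` -/
def qm (H : Herm K) (j : Fin 2) : Matrix (Fin 3) (Fin 3) K :=
  !![0, H.q j 0, H.q j 1; -H.q j 0, 0, H.q j 2; -H.q j 1, -H.q j 2, 0]

/-- the real part of the adjugate of `B 0` -/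
def adR (H : Herm K) : Matrix (Fin 3) (Fin 3) K :=
  (pm H 0).adjugate + H.d • (qm H 0).adjugate

/-- the coefficient of `√d` of the adjugate of `B 0` -/
def adI (H : Herm K) : Matrix (Fin 3) (Fin 3) K :=
  (pm H 0 + qm H 0).adjugate - (pm H 0).adjugate - (qm H 0).adjugate

/-- the real part of `B 1 adj(B 0) B 1` -/
def cR (H : Herm K) : Matrix (Fin 3) (Fin 3) K :=
  pm H 1 * adR H * pm H 1 +
    H.d • (qm H 1 * adI H * pm H 1 + qm H 1 * adR H * qm H 1 + pm H 1 * adI H * qm H 1)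

/-- the coefficient of `√d` of `B 1 adj(B 0) B 1` -/
def cI (H : Herm K) : Matrix (Fin 3) (Fin 3) K :=
  qm H 1 * adR H * pm H 1 + pm H 1 * adI H * pm H 1 + pm H 1 * adR H * qm H 1 +
    H.d • (qm H 1 * adI H * qm H 1)

/-- the matrix of the quadratic form `uᵀ (B 1 adj(B 0) B 1) ū`, `u = x + √d y` -/
def nq (H : Herm K) : Matrix (Fin 6) (Fin 6) K :=
  !![cR H 0 0, cR H 0 1, cR H 0 2,
      -(H.d * cI H 0 0), -(H.d * cI H 0 1), -(H.d * cI H 0 2);
    cR H 1 0, cR H 1 1, cR H 1 2,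
      -(H.d * cI H 1 0), -(H.d * cI H 1 1), -(H.d * cI H 1 2);
    cR H 2 0, cR H 2 1, cR H 2 2,
      -(H.d * cI H 2 0), -(H.d * cI H 2 1), -(H.d * cI H 2 2);
    H.d * cI H 0 0, H.d * cI H 0 1, H.d * cI H 0 2,
      -(H.d * cR H 0 0), -(H.d * cR H 0 1), -(H.d * cR H 0 2);
    H.d * cI H 1 0, H.d * cI H 1 1, H.d * cI H 1 2,
      -(H.d * cR H 1 0), -(H.d * cR H 1 1), -(H.d * cR H 1 2);
    H.d * cI H 2 0, H.d * cI H 2 1, H.d * cI H 2 2,
      -(H.d * cR H 2 0), -(H.d * cR H 2 1), -(H.d * cR H 2 2)]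

/-- the matrix of `B j` over a field which contains a root `s` of `d` -/
def BB {Ω' : Type} [Field Ω'] [Algebra K Ω'] (H : Herm K) (j : Fin 2) (s : Ω') :
    Matrix (Fin 3) (Fin 3) Ω' := mK (pm H j) + s • mK (qm H j)

theorem mK_adjugate {Ω' : Type} [Field Ω'] [Algebra K Ω'] (M : Matrix (Fin 3) (Fin 3) K) :
    (mK M.adjugate : Matrix (Fin 3) (Fin 3) Ω') = (mK M).adjugate := by
  have h := RingHom.map_adjugate (algebraMap K Ω') M
  exact h

theorem adj_BB {Ω' : Type} [Field Ω'] [Algebra K Ω'] (H : Herm K) {s : Ω'}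
    (hs : s ^ 2 = algebraMap K Ω' H.d) :
    (BB H 0 s).adjugate = mK (adR H) + s • mK (adI H) := by
  have h1 : (mK (adR H) : Matrix (Fin 3) (Fin 3) Ω') =
      adjugate (mK (pm H 0)) + s ^ 2 • adjugate (mK (qm H 0)) := by
    unfold adR
    rw [hs, ← mK_adjugate, ← mK_adjugate]
    ext i j
    simp only [mK, Matrix.map_apply, Matrix.add_apply, Matrix.smul_apply, smul_eq_mul, map_add,
      map_mul]
  have h2 : (mK (adI H) : Matrix (Fin 3) (Fin 3) Ω') =
      adjugate (mK (pm H 0) + mK (qm H 0)) - adjugate (mK (pm H 0)) - adjugate (mK (qm H 0)) := by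
    unfold adI
    have h3 : (mK (pm H 0) + mK (qm H 0) : Matrix (Fin 3) (Fin 3) Ω') = mK (pm H 0 + qm H 0) :=
      (Matrix.map_add _ (map_add _) _ _).symm
    rw [h3, ← mK_adjugate, ← mK_adjugate, ← mK_adjugate]
    ext i j
    simp only [mK, Matrix.map_apply, Matrix.sub_apply, map_sub]
  rw [h1, h2]
  unfold BB
  generalize (mK (pm H 0) : Matrix (Fin 3) (Fin 3) Ω') = P
  generalize (mK (qm H 0) : Matrix (Fin 3) (Fin 3) Ω') = Q
  rw [adjugate_fin_three, adjugate_fin_three, adjugate_fin_three, adjugate_fin_three]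
  ext i j
  fin_cases i <;> fin_cases j <;> simp <;> ring

theorem pm_t (H : Herm K) (j : Fin 2) : (pm H j)ᵀ = pm H j := by
  ext a b
  fin_cases a <;> fin_cases b <;> rfl

theorem qm_t (H : Herm K) (j : Fin 2) : (qm H j)ᵀ = -qm H j := by
  ext a b
  fin_cases a <;> fin_cases b <;> simp [qm]

theorem adR_t (H : Herm K) : (adR H)ᵀ = adR H := by
  unfold adR pm qm
  rw [adjugate_fin_three, adjugate_fin_three]
  ext a b
  fin_cases a <;> fin_cases b <;> simp <;> ring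

theorem adI_t (H : Herm K) : (adI H)ᵀ = -adI H := by
  unfold adI pm qm
  rw [adjugate_fin_three, adjugate_fin_three, adjugate_fin_three]
  ext a b
  fin_cases a <;> fin_cases b <;> simp <;> ring

theorem cR_t (H : Herm K) : (cR H)ᵀ = cR H := by
  unfold cR
  simp only [transpose_add, transpose_mul, transpose_smul, pm_t, qm_t, adR_t, adI_t, mul_neg,
    neg_mul, neg_neg, Matrix.mul_assoc]
  abel

theorem cI_t (H : Herm K) : (cI H)ᵀ = -cI H := by
  unfold cI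
  simp only [transpose_add, transpose_mul, transpose_smul, pm_t, qm_t, adR_t, adI_t, mul_neg,
    neg_mul, neg_neg, Matrix.mul_assoc, smul_neg, neg_add]
  abel

section Ext

variable {Ω' : Type} [Field Ω'] [Algebra K Ω']

theorem mK_add (M N : Matrix (Fin 3) (Fin 3) K) :
    (mK (M + N) : Matrix (Fin 3) (Fin 3) Ω') = mK M + mK N := Matrix.map_add _ (map_add _) M N

theorem mK_smul3 (c : K) (M : Matrix (Fin 3) (Fin 3) K) :
    (mK (c • M) : Matrix (Fin 3) (Fin 3) Ω') = algebraMap K Ω' c • mK M := by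
  ext i j
  simp only [mK, Matrix.map_apply, Matrix.smul_apply, smul_eq_mul, map_mul]

theorem mK_mul3 (M N : Matrix (Fin 3) (Fin 3) K) :
    (mK (M * N) : Matrix (Fin 3) (Fin 3) Ω') = mK M * mK N := Matrix.map_mul

/-- `B 1 adj(B 0) B 1` over a field which contains `√d` -/
theorem CC (H : Herm K) {s : Ω'} (hs : s ^ 2 = algebraMap K Ω' H.d) :
    BB H 1 s * (BB H 0 s).adjugate * BB H 1 s = mK (cR H) + s • mK (cI H) := by
  rw [adj_BB H hs]
  unfold cR cI BB
  simp only [mK_add, mK_smul3, mK_mul3, ← hs]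
  generalize (mK (pm H 1) : Matrix (Fin 3) (Fin 3) Ω') = P
  generalize (mK (qm H 1) : Matrix (Fin 3) (Fin 3) Ω') = Q
  generalize (mK (adR H) : Matrix (Fin 3) (Fin 3) Ω') = R
  generalize (mK (adI H) : Matrix (Fin 3) (Fin 3) Ω') = I
  simp only [Matrix.add_mul, Matrix.mul_add, Matrix.smul_mul, Matrix.mul_smul, smul_add,
    smul_smul]
  module

end Ext

end Pool.Agent.GSE
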