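import Pool.Agent.GSE.Norm

/-!
# GSE: the norm equation holds on the cone of a pencil of hermitian forms
-/

set_option autoImplicit false

noncomputable section

namespace Pool.Agent.GSE

open Matrix Pool.Agent.GSH Pool.Agent.GSX

variable {K Ω Ω' : Type} [Field K] [Field Ω] [Field Ω'] [Algebra K Ω] [Algebra K Ω']
  [Algebra Ω Ω'] [IsScalarTower K Ω Ω']

/-- `x + s y` -/
def up (s : Ω') (u : Fin 6 → Ω) : Fin 3 → Ω' :=
  ![algebraMap Ω Ω' (u 0) + s * algebraMap Ω Ω' (u 3),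
    algebraMap Ω Ω' (u 1) + s * algebraMap Ω Ω' (u 4),
    algebraMap Ω Ω' (u 2) + s * algebraMap Ω Ω' (u 5)]

theorem BB_up (H : Herm K) {s : Ω'} (hs : s ^ 2 = algebraMap K Ω' H.d) (u : Fin 6 → Ω)
    (j : Fin 2) (i : Fin 3) : (BB H j s *ᵥ up (-s) u) i =
      algebraMap Ω Ω' (Herm.lv (H.E j i) u) + s * algebraMap Ω Ω' (Herm.lv (H.F j i) u) := by
  have h : ∀ x : K, algebraMap Ω Ω' (algebraMap K Ω x) = algebraMap K Ω' x := fun x =>
    (IsScalarTower.algebraMap_apply K Ω Ω' x).symm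
  fin_cases i
  · simp [BB, pm, qm, up, mK, mulVec, dotProduct, Fin.sum_univ_three, Herm.E, Herm.F, Herm.lv, vK,
      Fin.sum_univ_six, h]
    linear_combination (-(algebraMap K Ω' (H.q j 0) * algebraMap Ω Ω' (u 4)) -
      algebraMap K Ω' (H.q j 1) * algebraMap Ω Ω' (u 5)) * hs
  · simp [BB, pm, qm, up, mK, mulVec, dotProduct, Fin.sum_univ_three, Herm.E, Herm.F, Herm.lv, vK,
      Fin.sum_univ_six, h]
    linear_combination ((algebraMap K Ω' (H.q j 0) * algebraMap Ω Ω' (u 3)) -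
      algebraMap K Ω' (H.q j 2) * algebraMap Ω Ω' (u 5)) * hs
  · simp [BB, pm, qm, up, mK, mulVec, dotProduct, Fin.sum_univ_three, Herm.E, Herm.F, Herm.lv, vK,
      Fin.sum_univ_six, h]
    linear_combination ((algebraMap K Ω' (H.q j 1) * algebraMap Ω Ω' (u 3)) +
      algebraMap K Ω' (H.q j 2) * algebraMap Ω Ω' (u 4)) * hs

theorem BBt (H : Herm K) (j : Fin 2) (s : Ω') : (BB H j s)ᵀ = BB H j (-s) := by
  unfold BB
  have h1 : ∀ M : Matrix (Fin 3) (Fin 3) K, (mK M : Matrix (Fin 3) (Fin 3) Ω')ᵀ = mK Mᵀ :=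
    fun _ => rfl
  rw [transpose_add, transpose_smul, h1, h1, pm_t, qm_t]
  have h2 : (mK (-qm H j) : Matrix (Fin 3) (Fin 3) Ω') = -mK (qm H j) := by
    ext a b
    simp [mK]
  rw [h2, smul_neg, neg_smul]

theorem BBt_up (H : Herm K) {s : Ω'} (hs : s ^ 2 = algebraMap K Ω' H.d) (u : Fin 6 → Ω)
    (j : Fin 2) (i : Fin 3) : ((BB H j s)ᵀ *ᵥ up s u) i =
      algebraMap Ω Ω' (Herm.lv (H.E j i) u) - s * algebraMap Ω Ω' (Herm.lv (H.F j i) u) := by
  have h1 := BB_up H (s := -s) (by rw [neg_sq, hs]) u j i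
  rw [neg_neg] at h1
  rw [BBt, h1]
  ring

/-- the equations of a point of `W` in `L ^ 3` -/
theorem W_up [CharZero K] (H : Herm K) {s : Ω'} (hs : s ^ 2 = algebraMap K Ω' H.d) {w : I8 → Ω}
    (hw : w ∈ H.pen.W Ω) :
    (BB H 0 s *ᵥ up (-s) (pU w)) ⨯₃ (BB H 1 s *ᵥ up (-s) (pU w)) =
        (algebraMap Ω Ω' (pL w 0) - s * algebraMap Ω Ω' (pL w 1)) • up s (pU w) ∧
      up s (pU w) ⬝ᵥ (BB H 1 s *ᵥ up (-s) (pU w)) = 0 := by
  obtain ⟨hQ, hP⟩ := hw
  set u := pU w with hu
  set a := pL w 0 with ha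
  set b := pL w 1 with hb
  have hsm : ∀ i, sm H.pen.S a (-b) u i = a * u i + -b * (mK H.S *ᵥ u : Fin 6 → Ω) i :=
    fun _ => rfl
  have hT : ∀ x : K, algebraMap Ω Ω' (algebraMap K Ω x) = algebraMap K Ω' x := fun x =>
    (IsScalarTower.algebraMap_apply K Ω Ω' x).symm
  have hS := H.S_mulVec u
  have e1 : (0 : Fin 3) + 1 = 1 := rfl
  have e2 : (0 : Fin 3) + 2 = 2 := rfl
  have e3 : (1 : Fin 3) + 1 = 2 := rfl
  have e4 : (1 : Fin 3) + 2 = 0 := rfl
  have e5 : (2 : Fin 3) + 1 = 0 := rfl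
  have e6 : (2 : Fin 3) + 2 = 1 := rfl
  have k0R := H.bl_crR 0 u
  have k1R := H.bl_crR 1 u
  have k2R := H.bl_crR 2 u
  have k0I := H.bl_crI 0 u
  have k1I := H.bl_crI 1 u
  have k2I := H.bl_crI 2 u
  rw [e1, e2] at k0R k0I
  rw [e3, e4] at k1R k1I
  rw [e5, e6] at k2R k2I
  have p0 : bl (H.crR 0) u u = a * u 0 - b * (algebraMap K Ω H.d * u 3) := by
    have h := hP 0
    rw [hsm] at h
    change bl (H.crR 0) u u = _ at h
    rw [h, show (mK H.S *ᵥ u : Fin 6 → Ω) 0 = algebraMap K Ω H.d * u 3 from congrFun hS 0]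
    ring
  have p1 : bl (H.crR 1) u u = a * u 1 - b * (algebraMap K Ω H.d * u 4) := by
    have h := hP 1
    rw [hsm] at h
    change bl (H.crR 1) u u = _ at h
    rw [h, show (mK H.S *ᵥ u : Fin 6 → Ω) 1 = algebraMap K Ω H.d * u 4 from congrFun hS 1]
    ring
  have p2 : bl (H.crR 2) u u = a * u 2 - b * (algebraMap K Ω H.d * u 5) := by
    have h := hP 2
    rw [hsm] at h
    change bl (H.crR 2) u u = _ at h
    rw [h, show (mK H.S *ᵥ u : Fin 6 → Ω) 2 = algebraMap K Ω H.d * u 5 from congrFun hS 2]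
    ring
  have p3 : bl (H.crI 0) u u = a * u 3 - b * u 0 := by
    have h := hP 3
    rw [hsm] at h
    change bl (H.crI 0) u u = _ at h
    rw [h, show (mK H.S *ᵥ u : Fin 6 → Ω) 3 = u 0 from congrFun hS 3]
    ring
  have p4 : bl (H.crI 1) u u = a * u 4 - b * u 1 := by
    have h := hP 4
    rw [hsm] at h
    change bl (H.crI 1) u u = _ at h
    rw [h, show (mK H.S *ᵥ u : Fin 6 → Ω) 4 = u 1 from congrFun hS 4]
    ring
  have p5 : bl (H.crI 2) u u = a * u 5 - b * u 2 := by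
    have h := hP 5
    rw [hsm] at h
    change bl (H.crI 2) u u = _ at h
    rw [h, show (mK H.S *ᵥ u : Fin 6 → Ω) 5 = u 2 from congrFun hS 5]
    ring
  rw [k0R] at p0
  rw [k1R] at p1
  rw [k2R] at p2
  rw [k0I] at p3
  rw [k1I] at p4
  rw [k2I] at p5
  have q0 := congrArg (algebraMap Ω Ω') p0
  have q1 := congrArg (algebraMap Ω Ω') p1
  have q2 := congrArg (algebraMap Ω Ω') p2
  have q3 := congrArg (algebraMap Ω Ω') p3
  have q4 := congrArg (algebraMap Ω Ω') p4
  have q5 := congrArg (algebraMap Ω Ω') p5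
  simp only [map_add, map_sub, map_mul, hT, ← hs] at q0 q1 q2 q3 q4 q5
  constructor
  · funext k
    rw [cross_apply]
    simp only [BB_up H hs, Pi.smul_apply, smul_eq_mul]
    fin_cases k
    · simp only [up, Matrix.cons_val_zero, Fin.zero_eta, Fin.isValue, Matrix.cons_val]
      linear_combination q0 + s * q3
    · simp only [up, Matrix.cons_val_one, Fin.mk_one, Fin.isValue, Matrix.cons_val]
      linear_combination q1 + s * q4
    · simp only [up, Fin.reduceFinMk, Fin.isValue, Matrix.cons_val]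
      linear_combination q2 + s * q5
  · have h1 := hQ 1
    have h2 := H.im_zero 1 u
    rw [Herm.bl_Q] at h1
    have h1' := congrArg (algebraMap Ω Ω') h1
    have h2' := congrArg (algebraMap Ω Ω') h2
    simp only [map_add, map_mul, map_zero, hT, ← hs] at h1' h2'
    simp only [dotProduct, Fin.sum_univ_three, BB_up H hs]
    simp only [up, Matrix.cons_val_zero, Matrix.cons_val_one, Matrix.cons_val]
    linear_combination h1' + s * h2'

/-- the hermitian form of `B 1 adj(B 0) B 1` -/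
theorem nq_up [CharZero K] (H : Herm K) {s : Ω'} (hs : s ^ 2 = algebraMap K Ω' H.d) (u : Fin 6 → Ω) :
    up s u ⬝ᵥ ((BB H 1 s * (BB H 0 s).adjugate * BB H 1 s) *ᵥ up (-s) u) =
      algebraMap Ω Ω' (bl (nq H) u u) := by
  have hT : ∀ x : K, algebraMap Ω Ω' (algebraMap K Ω x) = algebraMap K Ω' x := fun x =>
    (IsScalarTower.algebraMap_apply K Ω Ω' x).symm
  rw [CC H hs]
  have r10 : cR H 1 0 = cR H 0 1 := congrFun (congrFun (cR_t H) 0) 1
  have r20 : cR H 2 0 = cR H 0 2 := congrFun (congrFun (cR_t H) 0) 2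
  have r21 : cR H 2 1 = cR H 1 2 := congrFun (congrFun (cR_t H) 1) 2
  have i10 : cI H 1 0 = -cI H 0 1 := congrFun (congrFun (cI_t H) 0) 1
  have i20 : cI H 2 0 = -cI H 0 2 := congrFun (congrFun (cI_t H) 0) 2
  have i21 : cI H 2 1 = -cI H 1 2 := congrFun (congrFun (cI_t H) 1) 2
  have i00 : cI H 0 0 = 0 := by
    have h : cI H 0 0 = -cI H 0 0 := congrFun (congrFun (cI_t H) 0) 0
    exact self_eq_neg.1 h
  have i11 : cI H 1 1 = 0 := by
    have h : cI H 1 1 = -cI H 1 1 := congrFun (congrFun (cI_t H) 1) 1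
    exact self_eq_neg.1 h
  have i22 : cI H 2 2 = 0 := by
    have h : cI H 2 2 = -cI H 2 2 := congrFun (congrFun (cI_t H) 2) 2
    exact self_eq_neg.1 h
  simp only [bl, nq, dotProduct, mulVec, Fin.sum_univ_six, Fin.sum_univ_three, mK,
    Matrix.map_apply, Matrix.add_apply, Matrix.smul_apply, smul_eq_mul, up, Matrix.of_apply,
    Matrix.cons_val_zero, Matrix.cons_val_one, Matrix.cons_val, map_add, map_mul, map_neg, hT,
    r10, r20, r21, i10, i20, i21, i00, i11, i22, ← hs, map_zero]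
  ring

/-- The norm equation: `N(ξ) = - uᵀ (B 1 adj(B 0) B 1) ū` on `W`, where `u ≠ 0`. -/
theorem norm_eq [CharZero K] (H : Herm K) (hd : H.d ≠ 0) {w : I8 → Ω} (hw : w ∈ H.pen.W Ω) (hu : pU w ≠ 0) :
    pL w 0 ^ 2 - algebraMap K Ω H.d * pL w 1 ^ 2 + bl (nq H) (pU w) (pU w) = 0 := by
  haveI : CharZero Ω := charZero_of_injective_algebraMap (algebraMap K Ω).injective
  obtain ⟨s, hs⟩ := IsAlgClosed.exists_pow_nat_eq
    (algebraMap K (AlgebraicClosure Ω) H.d) (n := 2) (by norm_num)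
  have hs' : (-s) ^ 2 = algebraMap K (AlgebraicClosure Ω) H.d := by rw [neg_sq, hs]
  obtain ⟨h1, h3⟩ := W_up (Ω' := AlgebraicClosure Ω) H hs hw
  obtain ⟨h2, h4⟩ := W_up (Ω' := AlgebraicClosure Ω) H hs' hw
  rw [neg_neg] at h2 h4
  set a := algebraMap Ω (AlgebraicClosure Ω) (pL w 0) with ha
  set b := algebraMap Ω (AlgebraicClosure Ω) (pL w 1) with hb
  set N := bl (nq H) (pU w) (pU w) with hN
  have k1 := key (BB H 0 s) (BB H 1 s) (up s (pU w)) (up (-s) (pU w)) (a + s * b) (a - s * b) h1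
    (by rw [BBt, BBt, h2]; congr 1; ring) h3
  have k2 := key (BB H 0 (-s)) (BB H 1 (-s)) (up (-s) (pU w)) (up s (pU w)) (a - s * b)
    (a + s * b) (by rw [h2]; congr 1; ring) (by rw [BBt, BBt, neg_neg, h1]) h4
  rw [nq_up H hs] at k1
  have k3 := nq_up H hs' (pU w)
  rw [neg_neg] at k3
  rw [k3] at k2
  have hz : (a + s * b) * (a - s * b) + algebraMap Ω (AlgebraicClosure Ω) N = 0 := by
    by_contra hne
    have e1 : ∀ i, up s (pU w) i = 0 := by
      intro i
      have h := congrFun k1 i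
      simp only [Pi.smul_apply, smul_eq_mul] at h
      have h5 : ((a + s * b) * (a - s * b) + algebraMap Ω (AlgebraicClosure Ω) N) *
          up s (pU w) i = 0 := by linear_combination h
      exact (mul_eq_zero.1 h5).resolve_left hne
    have e2 : ∀ i, up (-s) (pU w) i = 0 := by
      intro i
      have h := congrFun k2 i
      simp only [Pi.smul_apply, smul_eq_mul] at h
      have h5 : ((a + s * b) * (a - s * b) + algebraMap Ω (AlgebraicClosure Ω) N) *
          up (-s) (pU w) i = 0 := by linear_combination h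
      exact (mul_eq_zero.1 h5).resolve_left hne
    have hs0 : s ≠ 0 := by
      intro h0
      rw [h0] at hs
      have h5 : algebraMap K (AlgebraicClosure Ω) H.d = 0 := by rw [← hs]; ring
      exact hd ((map_eq_zero _).1 h5)
    haveI : CharZero (AlgebraicClosure Ω) :=
      charZero_of_injective_algebraMap (algebraMap Ω (AlgebraicClosure Ω)).injective
    have h20 : (2 : AlgebraicClosure Ω) ≠ 0 := two_ne_zero
    have f0 := e1 0
    have f1 := e1 1
    have f2 := e1 2
    have g0 := e2 0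
    have g1 := e2 1
    have g2 := e2 2
    simp only [up, Matrix.cons_val_zero, Matrix.cons_val_one, Matrix.cons_val] at f0 f1 f2 g0 g1 g2
    apply hu
    have hx : ∀ p q : Ω, algebraMap Ω (AlgebraicClosure Ω) p +
        s * algebraMap Ω (AlgebraicClosure Ω) q = 0 → algebraMap Ω (AlgebraicClosure Ω) p +
        -s * algebraMap Ω (AlgebraicClosure Ω) q = 0 → p = 0 ∧ q = 0 := by
      intro p q h5 h6
      constructor
      · have h7 : 2 * algebraMap Ω (AlgebraicClosure Ω) p = 0 := by linear_combination h5 + h6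
        exact (map_eq_zero _).1 ((mul_eq_zero.1 h7).resolve_left h20)
      · have h7 : 2 * s * algebraMap Ω (AlgebraicClosure Ω) q = 0 := by
          linear_combination h5 - h6
        exact (map_eq_zero _).1 ((mul_eq_zero.1 h7).resolve_left (mul_ne_zero h20 hs0))
    funext i
    fin_cases i
    · exact (hx _ _ f0 g0).1
    · exact (hx _ _ f1 g1).1
    · exact (hx _ _ f2 g2).1
    · exact (hx _ _ f0 g0).2
    · exact (hx _ _ f1 g1).2
    · exact (hx _ _ f2 g2).2
  have hfin : algebraMap Ω (AlgebraicClosure Ω)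
      (pL w 0 ^ 2 - algebraMap K Ω H.d * pL w 1 ^ 2 + N) = 0 := by
    rw [map_add, map_sub, map_mul, map_pow, map_pow, ← IsScalarTower.algebraMap_apply, ← hs]
    linear_combination hz
  exact (map_eq_zero _).1 hfin

end Pool.Agent.GSE
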