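import Pool.Agent.P28.RDefs

/-!
# GSE: smoothness over `ℂ` from smoothness modulo a prime

`psmooth_of_red`: if the partial derivatives of the cubic form `F₀` with integer coefficients have
no common zero, apart from `0`, over any field of characteristic `p`, then the hypersurface
`F₀ = 0` is smooth over `ℂ`.
-/

set_option autoImplicit false

namespace Pool.Agent.GSE

open MvPolynomial

/-- a valuation ring of `ℂ` in which `p` is not a unit -/
theorem exists_val (p : ℕ) (hp : p.Prime) :
    ∃ B : ValuationSubring ℂ, (p : ℂ) ∈ B.nonunits := by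
  set A : Subring ℂ := (Int.castRingHom ℂ).range with hA
  have hpA : (p : ℂ) ∈ A := ⟨p, by simp⟩
  set I : Ideal A := Ideal.span {⟨(p : ℂ), hpA⟩} with hI
  have h1 : I ≠ ⊤ := by
    intro h
    have h2 : (1 : A) ∈ I := by
      rw [h]
      trivial
    rw [hI, Ideal.mem_span_singleton'] at h2
    obtain ⟨⟨_, a, rfl⟩, ha⟩ := h2
    have h3 : ((a * p : ℤ) : ℂ) = ((1 : ℤ) : ℂ) := by
      have h4 := congrArg (fun z : A => (z : ℂ)) ha
      push_cast
      exact h4
    have h4 : a * (p : ℤ) = 1 := by exact_mod_cast h3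
    have h5 : (p : ℤ) ∣ 1 := ⟨a, by rw [mul_comm]; exact h4.symm⟩
    have h6 : p ∣ 1 := by exact_mod_cast h5
    exact hp.one_lt.ne' (Nat.dvd_one.1 h6)
  obtain ⟨B, _, hB⟩ := I.image_subset_nonunits_valuationSubring h1
  exact ⟨B, hB ⟨⟨(p : ℂ), hpA⟩, Ideal.subset_span rfl, rfl⟩⟩

theorem eval_smul_hom {σ R : Type} [CommRing R] {F : MvPolynomial σ R} {n : ℕ}
    (hF : F.IsHomogeneous n) (c : R) (v : σ → R) :
    eval (fun i => c * v i) F = c ^ n * eval v F := by
  rw [eval_eq, eval_eq, Finset.mul_sum]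
  refine Finset.sum_congr rfl fun d hd => ?_
  have h1 : ∏ i ∈ d.support, (c * v i) ^ d i = c ^ n * ∏ i ∈ d.support, v i ^ d i := by
    rw [← hF (mem_support_iff.1 hd), Finsupp.weight_apply, Finsupp.sum]
    simp only [mul_pow, Finset.prod_mul_distrib, Pi.one_apply, smul_eq_mul, mul_one]
    rw [Finset.prod_pow_eq_pow_sum]
  rw [h1]
  ring

/-- Smoothness over `ℂ` from smoothness modulo `p`. -/
theorem psmooth_of_red (F₀ : MvPolynomial (Fin 6) ℤ) (hF : F₀.IsHomogeneous 3) (p : ℕ)
    (hp : p.Prime) (h : ∀ (κ : Type) [Field κ] [CharP κ p] (v : Fin 6 → κ),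
      (∀ j, aeval v (pderiv j F₀) = 0) → v = 0) :
    P28.PSmooth (map (Int.castRingHom ℂ) F₀) := by
  intro v hv _
  by_contra hcon
  push Not at hcon
  obtain ⟨B, hB⟩ := exists_val p hp
  obtain ⟨i₀, -, hi⟩ := Finset.exists_max_image Finset.univ (fun i => B.valuation (v i))
    Finset.univ_nonempty
  have hi0 : v i₀ ≠ 0 := by
    intro h0
    apply hv
    funext j
    have h1 := hi j (Finset.mem_univ _)
    rw [h0, map_zero] at h1
    exact (map_eq_zero B.valuation).1 (le_antisymm h1 zero_le)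
  have hu : ∀ j, (v i₀)⁻¹ * v j ∈ B := by
    intro j
    rw [← B.valuation_le_one_iff, map_mul, map_inv₀]
    have h1 := hi j (Finset.mem_univ _)
    have h2 : B.valuation (v i₀) ≠ 0 := (map_ne_zero B.valuation).2 hi0
    rw [mul_comm]
    exact (mul_inv_le_iff₀ (zero_lt_iff.2 h2)).2 (by rwa [one_mul])
  set u : Fin 6 → B := fun j => ⟨(v i₀)⁻¹ * v j, hu j⟩ with hud
  have h1 : ∀ j, aeval u (pderiv j F₀) = 0 := by
    intro j
    apply B.subtype_injective
    have h2 : B.subtype (aeval u (pderiv j F₀)) =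
        eval (fun i => (v i₀)⁻¹ * v i) (map (Int.castRingHom ℂ) (pderiv j F₀)) := by
      rw [eval_map, aeval_def, hom_eval₂]
      congr 1
    have h3 : (map (Int.castRingHom ℂ) (pderiv j F₀)).IsHomogeneous 2 :=
      (hF.pderiv (i := j)).map _
    rw [h2, map_zero, eval_smul_hom h3]
    have h4 := hcon j
    rw [pderiv_map] at h4
    rw [h4, mul_zero]
  have h2 : (p : IsLocalRing.ResidueField B) = 0 := by
    have h3 : (p : B) ∈ IsLocalRing.maximalIdeal B := by
      have hB' : (p : ℂ) ∈ (B.nonunits : Set ℂ) := hB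
      rw [← ValuationSubring.image_maximalIdeal] at hB'
      obtain ⟨b, hb, hb'⟩ := hB'
      have h4 : b = (p : B) := B.subtype_injective (by
        rw [map_natCast]
        exact hb')
      rw [← h4]
      exact hb
    have h4 := (IsLocalRing.residue_eq_zero_iff (p : B)).2 h3
    rw [map_natCast] at h4
    exact h4
  have h3 : CharP (IsLocalRing.ResidueField B) p := (CharP.charP_iff_prime_eq_zero hp).2 h2
  have h4 := h (IsLocalRing.ResidueField B) (fun i => IsLocalRing.residue B (u i)) (fun j => by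
    have h5 := congrArg (IsLocalRing.residue B) (h1 j)
    rw [map_zero, aeval_def, hom_eval₂] at h5
    rw [aeval_def, ← h5]
    congr 1)
  have h5 : u i₀ = 1 := by
    apply Subtype.ext
    exact inv_mul_cancel₀ hi0
  have h6 := congrFun h4 i₀
  rw [h5, map_one] at h6
  exact one_ne_zero h6

end Pool.Agent.GSE
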