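import Pool.Agent.GSE.Lin
import Pool.Agent.GSE.Fin

/-!
# GSE: smoothness, rationality and linear substitutions

`short`: let `G = c F(M x)` for an invertible matrix `M` with integer entries and `c ≠ 0`. If `G` is
smooth and rational, then `F` is smooth and rational.
-/

set_option autoImplicit false

noncomputable section

namespace Pool.Agent.GSE

open MvPolynomial Matrix

/-- the chain rule -/
theorem pderiv_bind (f : Fin 6 → MvPolynomial (Fin 6) ℂ) (i : Fin 6)
    (p : MvPolynomial (Fin 6) ℂ) :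
    pderiv i (bind₁ f p) = ∑ j, pderiv i (f j) * bind₁ f (pderiv j p) := by
  induction p using MvPolynomial.induction_on with
  | C a => simp
  | add p q hp hq =>
    rw [map_add, map_add, hp, hq, ← Finset.sum_add_distrib]
    refine Finset.sum_congr rfl fun j _ => ?_
    rw [map_add, map_add, mul_add]
  | mul_X p k hp =>
    rw [map_mul, bind₁_X_right, Derivation.leibniz, hp, smul_eq_mul, smul_eq_mul]
    have h1 : ∀ j : Fin 6, pderiv i (f j) * bind₁ f (pderiv j (p * X k)) =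
        pderiv i (f j) * (bind₁ f p * bind₁ f (pderiv j (X k))) +
          f k * (pderiv i (f j) * bind₁ f (pderiv j p)) := by
      intro j
      rw [Derivation.leibniz, smul_eq_mul, smul_eq_mul, map_add, map_mul, map_mul, bind₁_X_right]
      ring
    rw [Finset.sum_congr rfl fun j _ => h1 j, Finset.sum_add_distrib, ← Finset.mul_sum]
    congr 1
    rw [Finset.sum_eq_single k]
    · rw [pderiv_X_self, map_one, mul_one, mul_comm]
    · intro j _ hj
      rw [pderiv_X_of_ne hj.symm, map_zero, mul_zero, mul_zero]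
    · intro h
      exact absurd (Finset.mem_univ _) h

theorem eval_lsub (M : Matrix (Fin 6) (Fin 6) ℂ) (w : Fin 6 → ℂ) (i : Fin 6) :
    eval w (lsub M i) = (M *ᵥ w) i := by
  simp [lsub, mulVec, dotProduct]

theorem eval_bind_lsub (M : Matrix (Fin 6) (Fin 6) ℂ) (w : Fin 6 → ℂ)
    (F : MvPolynomial (Fin 6) ℂ) : eval w (bind₁ (lsub M) F) = eval (M *ᵥ w) F := by
  have h1 : (M *ᵥ w) = fun i => eval w (lsub M i) := by
    funext i
    rw [eval_lsub]
  rw [h1]
  exact eval₂Hom_bind₁ (RingHom.id ℂ) w (lsub M) F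

/-- Smoothness does not depend on the coordinates. -/
theorem psmooth_of_lin {F : MvPolynomial (Fin 6) ℂ} (M N : Matrix (Fin 6) (Fin 6) ℂ)
    (h : M * N = 1) (hs : P28.PSmooth (bind₁ (lsub M) F)) : P28.PSmooth F := by
  intro v hv h0
  have h1 : M *ᵥ (N *ᵥ v) = v := by
    rw [mulVec_mulVec, h, one_mulVec]
  have hw : N *ᵥ v ≠ 0 := by
    intro h2
    rw [h2, mulVec_zero] at h1
    exact hv h1.symm
  obtain ⟨i, hi⟩ := hs (N *ᵥ v) hw (by rw [eval_bind_lsub, h1, h0])
  by_contra hc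
  push Not at hc
  apply hi
  rw [pderiv_bind, map_sum]
  refine Finset.sum_eq_zero fun j _ => ?_
  rw [map_mul, eval_bind_lsub, h1, hc j, mul_zero]

theorem psmooth_of_C {F : MvPolynomial (Fin 6) ℂ} {c : ℂ} (hc : c ≠ 0)
    (hs : P28.PSmooth (C c * F)) : P28.PSmooth F := by
  intro v hv h0
  obtain ⟨i, hi⟩ := hs v hv (by rw [map_mul, h0, mul_zero])
  refine ⟨i, fun h1 => hi ?_⟩
  rw [Derivation.leibniz, pderiv_C, smul_zero, add_zero, smul_eq_mul, map_mul, h1, mul_zero]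

theorem rational_of_C {F : MvPolynomial (Fin 6) ℂ} {c : ℂ} (hc : c ≠ 0)
    (hr : P28.Rational (C c * F)) : P28.Rational F := by
  obtain ⟨d, e, phi, psi, g, k, hphi, hpsi, hg, hk, h0, h1, h2⟩ := hr
  have hu : IsUnit (C c : MvPolynomial (Fin 6) ℂ) := (isUnit_iff_ne_zero.2 hc).map C
  have hd : ∀ q : MvPolynomial (Fin 6) ℂ, C c * F ∣ q ↔ F ∣ q := fun q =>
    hu.mul_left_dvd
  refine ⟨d, e, phi, psi, g, k, hphi, hpsi, hg, fun h3 => hk ((hd k).2 h3), ?_, h1,
    fun i => (hd _).1 (h2 i)⟩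
  rw [map_mul, bind₁_C_right] at h0
  rcases mul_eq_zero.1 h0 with h3 | h3
  · exact absurd ((map_eq_zero_iff _ (C_injective _ _)).1 h3) hc
  · exact h3

theorem psmooth_C {F : MvPolynomial (Fin 6) ℂ} {c : ℂ} (hc : c ≠ 0) (hs : P28.PSmooth F) :
    P28.PSmooth (C c * F) := by
  refine psmooth_of_C (inv_ne_zero hc) ?_
  rwa [← mul_assoc, ← C_mul, inv_mul_cancel₀ hc, C_1, one_mul]

theorem rational_C {F : MvPolynomial (Fin 6) ℂ} {c : ℂ} (hc : c ≠ 0) (hr : P28.Rational F) :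
    P28.Rational (C c * F) := by
  refine rational_of_C (inv_ne_zero hc) ?_
  rwa [← mul_assoc, ← C_mul, inv_mul_cancel₀ hc, C_1, one_mul]

/-- **A short form.** -/
theorem short {G F : MvPolynomial (Fin 6) ℂ} (M N : Matrix (Fin 6) (Fin 6) ℤ) {d c c' : ℤ}
    (hd : d ≠ 0) (hc : c ≠ 0) (hc' : c' ≠ 0) (h : M * N = d • (1 : Matrix (Fin 6) (Fin 6) ℤ))
    (e : C ((c : ℤ) : ℂ) * bind₁ (lsub (M.map (Int.castRingHom ℂ))) F = C ((c' : ℤ) : ℂ) * G)
    (hs : P28.PSmooth G) (hr : P28.Rational G) : P28.PSmooth F ∧ P28.Rational F := by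
  have hd' : ((d : ℤ) : ℂ) ≠ 0 := Int.cast_ne_zero.2 hd
  have hc1 : ((c : ℤ) : ℂ) ≠ 0 := Int.cast_ne_zero.2 hc
  have hc2 : ((c' : ℤ) : ℂ) ≠ 0 := Int.cast_ne_zero.2 hc'
  have h1 : (M.map (Int.castRingHom ℂ)) * (((d : ℤ) : ℂ)⁻¹ • N.map (Int.castRingHom ℂ)) = 1 := by
    rw [Matrix.mul_smul, ← Matrix.map_mul, h]
    ext i j
    simp only [Matrix.smul_apply, Matrix.map_apply, smul_eq_mul]
    by_cases hij : i = j
    · subst hij
      simp only [Matrix.one_apply_eq, mul_one, Int.coe_castRingHom]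
      exact inv_mul_cancel₀ hd'
    · simp only [Matrix.one_apply_ne hij, mul_zero, map_zero]
  have h2 := psmooth_C hc2 hs
  have h3 := rational_C hc2 hr
  rw [← e] at h2 h3
  exact ⟨psmooth_of_lin _ _ h1 (psmooth_of_C hc1 h2), rational_of_lin _ _ h1 (rational_of_C hc1 h3)⟩

end Pool.Agent.GSE
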