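import Pool.Agent.GSE.HTree
import Pool.Agent.GSX.Cub2
import Pool.Agent.GSX.GDefs

/-!
# GSE: the node pencil of a cubic with integer coefficients by expressions

`xh2`: the pencil `Cub.herm2` as expressions in `s`, `t`.
-/

set_option autoImplicit false

namespace Pool.Agent.GSE

open GSX

namespace XT

/-- the determinant `t - s ^ 2` -/
def dl : E := E.t - E.s * E.s

variable (D : Cub ℤ)

/-- `Cub.c` -/
def c (k : Fin 6) : Fin 3 → E :=
  ![dl * E.c (D.b k 2) - (E.t * E.t * E.c (D.a k 0) - E.c 2 * E.s * E.t * E.c (D.a k 1) +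
      E.s * E.s * E.c (D.a k 2)),
    -(dl * E.c (D.b k 1)) + (E.s * E.t * E.c (D.a k 0) -
      (E.s * E.s + E.t) * E.c (D.a k 1) + E.s * E.c (D.a k 2)),
    dl * E.c (D.b k 0) - (E.s * E.s * E.c (D.a k 0) - E.c 2 * E.s * E.c (D.a k 1) +
      E.c (D.a k 2))]

/-- `Cub.tr` -/
def tr (m c : Fin 3 → E) : E := m 0 * c 0 + E.c 2 * m 1 * c 1 + m 2 * c 2

/-- `Cub.g` -/
def g (m : Fin 3 → E) (k : Fin 6) : E := tr m (c D k)

/-- `Cub.m` -/
def m (j : Fin 2) : Fin 3 → E :=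
  ![![-(E.c 2 * c D 0 1), c D 0 0, E.c 0], ![-c D 0 2, E.c 0, c D 0 0]] j

/-- `Cub.d2` -/
def d2 : E :=
  E.c (D.b 0 0) * (E.t * E.t * E.c (D.a 0 0) - E.c 2 * E.s * E.t * E.c (D.a 0 1) +
      E.s * E.s * E.c (D.a 0 2)) -
    E.c 2 * E.c (D.b 0 1) * (E.s * E.t * E.c (D.a 0 0) - (E.s * E.s + E.t) * E.c (D.a 0 1) +
      E.s * E.c (D.a 0 2)) +
    E.c (D.b 0 2) * (E.s * E.s * E.c (D.a 0 0) - E.c 2 * E.s * E.c (D.a 0 1) +
      E.c (D.a 0 2)) -
    E.c (D.a 0 0 * D.a 0 2 - D.a 0 1 * D.a 0 1 + (D.b 0 0 * D.b 0 2 - D.b 0 1 * D.b 0 1)) * dl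

/-- `Cub.hp2` -/
def hp (m : Fin 3 → E) : Fin 6 → E :=
  ![E.c 2 * dl * m 2, -(E.c 2 * dl * m 1), c D 0 0 * g D m 4 - c D 0 1 * g D m 3,
    E.c 2 * dl * m 0, c D 0 1 * g D m 4 - c D 0 2 * g D m 3,
    E.c 2 * dl * d2 D * g D m 5]

/-- `Cub.hq2` -/
def hq (m : Fin 3 → E) : Fin 3 → E :=
  ![E.c 0, E.t * g D m 2 + E.s * g D m 1, -(E.s * g D m 2) - g D m 1]

end XT

/-- the node pencil -/
def xh2 (D : Cub ℤ) : HT where
  d := XT.d2 D
  p := fun j => XT.hp D (XT.m D j)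
  q := fun j => XT.hq D (XT.m D j)

section

variable {K : Type} [Field K] (s t : K) (D : Cub ℤ)

theorem XT.ev_c' (k : Fin 6) (i : Fin 3) :
    E.ev s t (XT.c D k i) = (D.map (Int.castRingHom K)).c s t k i := by
  have hs : E.ev s t E.s = s := rfl
  have ht : E.ev s t E.t = t := rfl
  fin_cases i <;>
    simp [XT.c, Cub.c, Cub.map, XT.dl, E.ev_add, E.ev_sub, E.ev_mul, E.ev_neg, E.ev_c, hs,
      ht] <;> ring

theorem XT.ev_tr (m c : Fin 3 → E) :
    E.ev s t (XT.tr m c) = Cub.tr (fun i => E.ev s t (m i)) fun i => E.ev s t (c i) := by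
  simp [XT.tr, Cub.tr, E.ev_add, E.ev_mul, E.ev_c]

theorem XT.ev_g (m : Fin 3 → E) (k : Fin 6) :
    E.ev s t (XT.g D m k) = (D.map (Int.castRingHom K)).g s t (fun i => E.ev s t (m i)) k := by
  rw [XT.g, XT.ev_tr]
  simp only [XT.ev_c']
  rfl

theorem XT.ev_m (j : Fin 2) (i : Fin 3) :
    E.ev s t (XT.m D j i) = (D.map (Int.castRingHom K)).m s t j i := by
  fin_cases j <;> fin_cases i <;>
    simp [XT.m, Cub.m, E.ev_neg, E.ev_mul, E.ev_c, XT.ev_c']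

theorem XT.ev_d2 : E.ev s t (XT.d2 D) = (D.map (Int.castRingHom K)).d2 s t := by
  have hs : E.ev s t E.s = s := rfl
  have ht : E.ev s t E.t = t := rfl
  simp [XT.d2, Cub.d2, Cub.map, XT.dl, E.ev_add, E.ev_sub, E.ev_mul, E.ev_c, hs, ht]
  ring

theorem XT.ev_hp (m : Fin 3 → E) (i : Fin 6) :
    E.ev s t (XT.hp D m i) =
      (D.map (Int.castRingHom K)).hp2 s t (fun i => E.ev s t (m i)) i := by
  have hs : E.ev s t E.s = s := rfl
  have ht : E.ev s t E.t = t := rfl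
  fin_cases i <;>
    simp [XT.hp, Cub.hp2, XT.dl, E.ev_sub, E.ev_mul, E.ev_neg, E.ev_c, hs, ht, XT.ev_c',
      XT.ev_g, XT.ev_d2, -mul_eq_mul_left_iff, -mul_eq_mul_right_iff] <;> ring

theorem XT.ev_hq (m : Fin 3 → E) (i : Fin 3) :
    E.ev s t (XT.hq D m i) =
      (D.map (Int.castRingHom K)).hq2 s t (fun i => E.ev s t (m i)) i := by
  have hs : E.ev s t E.s = s := rfl
  have ht : E.ev s t E.t = t := rfl
  fin_cases i <;>
    simp [XT.hq, Cub.hq2, E.ev_add, E.ev_sub, E.ev_mul, E.ev_neg, E.ev_c, hs, ht, XT.ev_g]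

/-- the expressions are the data of the node pencil -/
theorem xh2_herm : (xh2 D).herm s t = (D.map (Int.castRingHom K)).herm2 s t := by
  have h1 : ∀ j i, E.ev s t (XT.m D j i) = (D.map (Int.castRingHom K)).m s t j i :=
    XT.ev_m s t D
  have hd : E.ev s t (XT.d2 D) = (D.map (Int.castRingHom K)).d2 s t := XT.ev_d2 s t D
  have hp : (fun (j : Fin 2) (i : Fin 6) => E.ev s t (XT.hp D (XT.m D j) i)) =
      fun j => (D.map (Int.castRingHom K)).hp2 s t ((D.map (Int.castRingHom K)).m s t j) := by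
    funext j i
    rw [XT.ev_hp]
    simp only [h1]
  have hq : (fun (j : Fin 2) (i : Fin 3) => E.ev s t (XT.hq D (XT.m D j) i)) =
      fun j => (D.map (Int.castRingHom K)).hq2 s t ((D.map (Int.castRingHom K)).m s t j) := by
    funext j i
    rw [XT.ev_hq]
    simp only [h1]
  unfold HT.herm xh2 Cub.herm2
  simp only [hd, hp, hq]

end

end Pool.Agent.GSE
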