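import Mathlib

/-!
# GSE: a zero test for polynomials in two variables given by expressions

`E`: expressions in `s`, `t` with integer constants. `E.zero`: if the bound `nrm` for the sum of
the absolute values of the coefficients is less than `B`, the bound `dg` for the degree in `s` is
less than `D`, and the value at `s = B`, `t = B ^ D` is zero, then `e` is zero as a polynomial,
that is its value in every commutative ring is zero.
-/

set_option autoImplicit false

namespace Pool.Agent.GSE

open Polynomial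

/-- Expressions in two variables. -/
inductive E where
  | c : ℤ → E
  | s : E
  | t : E
  | add : E → E → E
  | sub : E → E → E
  | mul : E → E → E

namespace E

/-- the value in a commutative ring -/
def ev {R : Type} [CommRing R] (x y : R) : E → R
  | c z => (z : R)
  | s => x
  | t => y
  | add a b => ev x y a + ev x y b
  | sub a b => ev x y a - ev x y b
  | mul a b => ev x y a * ev x y b

/-- the value in the integers, for the kernel -/
def evZ (x y : ℤ) : E → ℤ
  | c z => z
  | s => x
  | t => y
  | add a b => Int.add (evZ x y a) (evZ x y b)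
  | sub a b => Int.sub (evZ x y a) (evZ x y b)
  | mul a b => Int.mul (evZ x y a) (evZ x y b)

/-- a bound for the sum of the absolute values of the coefficients -/
def nrm : E → ℕ
  | c z => z.natAbs
  | s => 1
  | t => 1
  | add a b => Nat.add (nrm a) (nrm b)
  | sub a b => Nat.add (nrm a) (nrm b)
  | mul a b => Nat.mul (nrm a) (nrm b)

/-- a bound for the degree in `s` -/
def dg : E → ℕ
  | c _ => 0
  | s => 1
  | t => 0
  | add a b => max (dg a) (dg b)
  | sub a b => max (dg a) (dg b)
  | mul a b => Nat.add (dg a) (dg b)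

theorem evZ_eq (x y : ℤ) (e : E) : evZ x y e = ev x y e := by
  induction e with
  | c z => simp [evZ, ev]
  | s => rfl
  | t => rfl
  | add a b iha ihb => simp only [evZ, ev, iha, ihb]; rfl
  | sub a b iha ihb => simp only [evZ, ev, iha, ihb]; rfl
  | mul a b iha ihb => simp only [evZ, ev, iha, ihb]; rfl

theorem ev_map {R R' : Type} [CommRing R] [CommRing R'] (f : R →+* R') (x y : R) (e : E) :
    f (ev x y e) = ev (f x) (f y) e := by
  induction e with
  | c z => simp [ev]
  | s => rfl
  | t => rfl
  | add a b iha ihb => simp only [ev, map_add, iha, ihb]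
  | sub a b iha ihb => simp only [ev, map_sub, iha, ihb]
  | mul a b iha ihb => simp only [ev, map_mul, iha, ihb]

/-- the polynomial -/
noncomputable def pol (e : E) : ℤ[X][X] := ev (C X) X e

/-- the majorant -/
noncomputable def maj : E → ℕ[X][X]
  | c z => C (C z.natAbs)
  | s => C X
  | t => X
  | add a b => maj a + maj b
  | sub a b => maj a + maj b
  | mul a b => maj a * maj b

theorem maj_eval (e : E) : (eval (1 : ℕ[X]) (maj e)).eval 1 = nrm e := by
  induction e with
  | c z => simp [maj, nrm]
  | s => simp [maj, nrm]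
  | t => simp [maj, nrm]
  | add a b iha ihb => simp only [maj, nrm, eval_add, iha, ihb]; rfl
  | sub a b iha ihb => simp only [maj, nrm, eval_add, iha, ihb]; rfl
  | mul a b iha ihb => simp only [maj, nrm, eval_mul, iha, ihb]; rfl

theorem coeff_le_eval (q : ℕ[X]) (i : ℕ) : q.coeff i ≤ q.eval 1 := by
  rw [eval_eq_sum, Polynomial.sum]
  by_cases h : i ∈ q.support
  · calc q.coeff i = q.coeff i * 1 ^ i := by simp
      _ ≤ _ := Finset.single_le_sum (f := fun i => q.coeff i * 1 ^ i) (fun _ _ => Nat.zero_le _) h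
  · rw [notMem_support_iff.1 h]
    exact Nat.zero_le _

theorem coeff_coeff_le (q : ℕ[X][X]) (j i : ℕ) :
    (q.coeff j).coeff i ≤ (eval (1 : ℕ[X]) q).eval 1 := by
  have h1 : (q.coeff j).coeff i ≤ (eval (1 : ℕ[X]) q).coeff i := by
    rw [eval_eq_sum, Polynomial.sum, finsetSum_coeff]
    by_cases h : j ∈ q.support
    · calc (q.coeff j).coeff i = (q.coeff j * 1 ^ j).coeff i := by simp
        _ ≤ _ := Finset.single_le_sum (f := fun j => (q.coeff j * 1 ^ j).coeff i)
            (fun _ _ => Nat.zero_le _) h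
    · rw [notMem_support_iff.1 h]
      simp
  exact h1.trans (coeff_le_eval _ _)

theorem coeff_mul_bound (p q : ℤ[X]) (p' q' : ℕ[X]) (hp : ∀ i, (p.coeff i).natAbs ≤ p'.coeff i)
    (hq : ∀ i, (q.coeff i).natAbs ≤ q'.coeff i) (i : ℕ) :
    ((p * q).coeff i).natAbs ≤ (p' * q').coeff i := by
  rw [coeff_mul, coeff_mul]
  refine (Int.natAbs_sum_le _ _).trans (Finset.sum_le_sum fun x _ => ?_)
  rw [Int.natAbs_mul]
  exact Nat.mul_le_mul (hp _) (hq _)

theorem maj_bound (e : E) (j i : ℕ) :
    (((pol e).coeff j).coeff i).natAbs ≤ ((maj e).coeff j).coeff i := by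
  induction e generalizing j i with
  | c z =>
    have h1 : pol (c z) = C (C z) := by simp [pol, ev]
    rw [h1, maj, coeff_C, coeff_C]
    split_ifs with h
    · rw [coeff_C, coeff_C]
      split_ifs <;> simp
    · simp
  | s =>
    have h1 : pol s = C X := rfl
    rw [h1, maj, coeff_C, coeff_C]
    split_ifs with h
    · rw [coeff_X, coeff_X]
      split_ifs <;> simp
    · simp
  | t =>
    have h1 : pol t = X := rfl
    rw [h1, maj, coeff_X, coeff_X]
    split_ifs with h
    · rw [coeff_one, coeff_one]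
      split_ifs <;> simp
    · simp
  | add a b iha ihb =>
    have h1 : pol (add a b) = pol a + pol b := rfl
    rw [h1, maj, coeff_add, coeff_add, coeff_add, coeff_add]
    exact (Int.natAbs_add_le _ _).trans (Nat.add_le_add (iha _ _) (ihb _ _))
  | sub a b iha ihb =>
    have h1 : pol (sub a b) = pol a - pol b := rfl
    rw [h1, maj, coeff_sub, coeff_sub, coeff_add, coeff_add]
    exact (Int.natAbs_sub_le _ _).trans (Nat.add_le_add (iha _ _) (ihb _ _))
  | mul a b iha ihb =>
    have h1 : pol (mul a b) = pol a * pol b := rfl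
    rw [h1, maj, coeff_mul, coeff_mul, finsetSum_coeff, finsetSum_coeff]
    refine (Int.natAbs_sum_le _ _).trans (Finset.sum_le_sum fun x _ => ?_)
    exact coeff_mul_bound _ _ _ _ (iha _) (ihb _) i

theorem nrm_bound (e : E) (j i : ℕ) : (((pol e).coeff j).coeff i).natAbs ≤ nrm e := by
  rw [← maj_eval]
  exact (maj_bound e j i).trans (coeff_coeff_le _ _ _)

theorem dg_bound (e : E) (j : ℕ) : ((pol e).coeff j).natDegree ≤ dg e := by
  induction e generalizing j with
  | c z =>
    have h1 : pol (c z) = C (C z) := by simp [pol, ev]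
    rw [h1, coeff_C]
    split_ifs <;> simp
  | s =>
    have h1 : pol s = C X := rfl
    rw [h1, coeff_C]
    split_ifs
    · exact natDegree_X_le
    · simp
  | t =>
    have h1 : pol t = X := rfl
    rw [h1, coeff_X]
    split_ifs <;> simp
  | add a b iha ihb =>
    have h1 : pol (add a b) = pol a + pol b := rfl
    rw [h1, coeff_add]
    exact (natDegree_add_le _ _).trans (max_le_max (iha _) (ihb _))
  | sub a b iha ihb =>
    have h1 : pol (sub a b) = pol a - pol b := rfl
    rw [h1, coeff_sub]
    exact (natDegree_sub_le _ _).trans (max_le_max (iha _) (ihb _))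
  | mul a b iha ihb =>
    have h1 : pol (mul a b) = pol a * pol b := rfl
    rw [h1, coeff_mul]
    refine natDegree_sum_le_of_forall_le _ _ fun x _ => ?_
    exact natDegree_mul_le.trans (Nat.add_le_add (iha _) (ihb _))

/-- a univariate polynomial with small coefficients and a zero at `B` is zero -/
theorem uni_zero (B : ℕ) (n : ℕ) (q : ℤ[X]) (hn : q.natDegree ≤ n)
    (hq : ∀ i, (q.coeff i).natAbs < B) (h : q.eval (B : ℤ) = 0) : q = 0 := by
  induction n generalizing q with
  | zero =>
    have h1 := eq_C_of_natDegree_le_zero hn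
    rw [h1, eval_C] at h
    rw [h1, h, C_0]
  | succ n ih =>
    have h1 := divX_mul_X_add q
    have h2 : q.divX.eval (B : ℤ) * B + q.coeff 0 = 0 := by
      have h3 := congrArg (eval (B : ℤ)) h1
      rw [eval_add, eval_mul, eval_X, eval_C, h] at h3
      exact h3
    have h3 : q.coeff 0 = 0 := by
      have h4 : (B : ℤ) ∣ q.coeff 0 := ⟨-q.divX.eval (B : ℤ), by linear_combination h2⟩
      by_contra h5
      have h6 := Int.le_of_dvd (Int.natAbs_pos.2 h5 |> fun h => by exact_mod_cast h)
        (Int.dvd_natAbs.2 h4)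
      have h7 := hq 0
      omega
    have hB : (B : ℤ) ≠ 0 := by
      have := hq 0
      omega
    have h4 : q.divX.eval (B : ℤ) = 0 := by
      rw [h3, add_zero] at h2
      exact (mul_eq_zero.1 h2).resolve_right hB
    have h5 := ih q.divX (by rw [natDegree_divX_eq_natDegree_tsub_one]; omega)
      (fun i => by rw [coeff_divX]; exact hq _) h4
    rw [← h1, h5, h3]
    simp

theorem uni_bound (B : ℕ) (n : ℕ) (q : ℤ[X]) (hn : q.natDegree < n)
    (hq : ∀ i, (q.coeff i).natAbs < B) : (q.eval (B : ℤ)).natAbs < B ^ n := by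
  have hB : 0 < B := lt_of_le_of_lt (Nat.zero_le _) (hq 0)
  rw [eval_eq_sum_range' hn]
  refine (Int.natAbs_sum_le _ _).trans_lt ?_
  have h1 : ∀ m, ∑ i ∈ Finset.range m, (q.coeff i * (B : ℤ) ^ i).natAbs ≤ B ^ m - 1 := by
    intro m
    induction m with
    | zero => simp
    | succ m ih =>
      rw [Finset.sum_range_succ]
      have h2 : (q.coeff m * (B : ℤ) ^ m).natAbs ≤ (B - 1) * B ^ m := by
        rw [Int.natAbs_mul, Int.natAbs_pow, Int.natAbs_natCast]
        exact Nat.mul_le_mul_right _ (Nat.le_sub_one_of_lt (hq m))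
      have h3 : B ^ (m + 1) = (B - 1) * B ^ m + B ^ m := by
        obtain ⟨b, rfl⟩ : ∃ b, B = b + 1 := ⟨B - 1, by omega⟩
        simp only [Nat.add_sub_cancel]
        ring
      have h4 : 0 < B ^ m := Nat.pow_pos hB
      omega
  have h2 := h1 n
  have h3 : 0 < B ^ n := Nat.pow_pos hB
  omega

theorem biv_zero (B D : ℕ) (n : ℕ) (q : ℤ[X][X]) (hn : q.natDegree ≤ n)
    (hq : ∀ j i, ((q.coeff j).coeff i).natAbs < B) (hd : ∀ j, (q.coeff j).natDegree < D)
    (h : (eval (C ((B : ℤ) ^ D)) q).eval (B : ℤ) = 0) : q = 0 := by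
  have hB : 0 < B := lt_of_le_of_lt (Nat.zero_le _) (hq 0 0)
  induction n generalizing q with
  | zero =>
    have h1 := eq_C_of_natDegree_le_zero hn
    rw [h1, eval_C] at h
    rw [h1, uni_zero B _ _ le_rfl (hq 0) h, C_0]
  | succ n ih =>
    have h1 := divX_mul_X_add q
    have h2 : (eval (C ((B : ℤ) ^ D)) q.divX).eval (B : ℤ) * (B : ℤ) ^ D +
        (q.coeff 0).eval (B : ℤ) = 0 := by
      have h3 := congrArg (fun q : ℤ[X][X] => (eval (C ((B : ℤ) ^ D)) q).eval (B : ℤ)) h1
      simp only [eval_add, eval_mul, eval_X, eval_C] at h3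
      rw [h] at h3
      exact h3
    have h3 : q.coeff 0 = 0 := by
      refine uni_zero B _ _ le_rfl (hq 0) ?_
      have h4 : ((B ^ D : ℕ) : ℤ) ∣ (q.coeff 0).eval (B : ℤ) :=
        ⟨-(eval (C ((B : ℤ) ^ D)) q.divX).eval (B : ℤ), by push_cast; linear_combination h2⟩
      by_contra h5
      have h6 := Int.le_of_dvd (Int.natAbs_pos.2 h5 |> fun h => by exact_mod_cast h)
        (Int.dvd_natAbs.2 h4)
      have h7 := uni_bound B D (q.coeff 0) (hd 0) (hq 0)
      omega
    have hB' : (B : ℤ) ^ D ≠ 0 := pow_ne_zero _ (by omega)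
    have h4 : (eval (C ((B : ℤ) ^ D)) q.divX).eval (B : ℤ) = 0 := by
      rw [h3, eval_zero, add_zero] at h2
      exact (mul_eq_zero.1 h2).resolve_right hB'
    have h5 := ih q.divX (by rw [natDegree_divX_eq_natDegree_tsub_one]; omega)
      (fun j i => by rw [coeff_divX]; exact hq _ _) (fun j => by rw [coeff_divX]; exact hd _) h4
    rw [← h1, h5, h3]
    simp

/-- the test -/
def isZero (B D : ℕ) (e : E) : Bool :=
  Nat.blt (nrm e) B && Nat.blt (dg e) D && (evZ (B : ℤ) ((B ^ D : ℕ) : ℤ) e == 0)

theorem pol_zero {B D : ℕ} {e : E} (h : isZero B D e = true) : pol e = 0 := by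
  unfold isZero at h
  rw [Bool.and_eq_true, Bool.and_eq_true, beq_iff_eq] at h
  obtain ⟨⟨h1, h2⟩, h3⟩ := h
  have h1' : nrm e < B := by simpa [Nat.blt_eq] using h1
  have h2' : dg e < D := by simpa [Nat.blt_eq] using h2
  refine biv_zero B D _ _ le_rfl (fun j i => (nrm_bound e j i).trans_lt h1')
    (fun j => (dg_bound e j).trans_lt h2') ?_
  have h4 : (eval (C ((B : ℤ) ^ D)) (pol e)).eval (B : ℤ) = ev (B : ℤ) ((B : ℤ) ^ D) e := by
    have h5 := ev_map ((evalRingHom (B : ℤ)).comp (evalRingHom (C ((B : ℤ) ^ D)))) (C X) X e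
    simp only [RingHom.coe_comp, Function.comp_apply, coe_evalRingHom, eval_C, eval_X] at h5
    exact h5
  rw [h4, ← evZ_eq]
  rw [Nat.cast_pow] at h3
  exact h3

/-- **The zero test.** -/
theorem zero {B D : ℕ} {e : E} (h : isZero B D e = true) {R : Type} [CommRing R] (x y : R) :
    ev x y e = 0 := by
  have h1 := pol_zero h
  have h2 := ev_map (R := ℤ[X][X]) (eval₂RingHom (eval₂RingHom (Int.castRingHom R) x) y)
    (C X) X e
  have h3 : ev (C X : ℤ[X][X]) X e = 0 := h1
  rw [h3, map_zero] at h2
  rw [h2]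
  simp

end E

end Pool.Agent.GSE
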